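import Pool.Agent.H91.Mono.Sym4
import Pool.Agent.H93Tate.Separate

/-! Criteria for maximal angle rank. -/

set_option linter.unusedSectionVars false

namespace Pool.Agent.H91.Mono

open Polynomial Pool.Agent.H93Tate

variable {p n : ℕ} [hp : Fact p.Prime] {P : ℚ[X]}

lemma maxRank_cycle (hn : 0 < n) {a : ℕ} (ha : 0 < a) (hP : Irreducible P)
    (hdeg : P.natDegree = 2 ^ (a + 1))
    (hweil : ∀ z : ℂ, aeval z P = 0 → ‖z‖ ^ 2 = (p : ℝ) ^ n)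
    (σ : P.SplittingField ≃ₐ[ℚ] P.SplittingField)
    (hσ : ∀ x y : P.SplittingField, aeval x P = 0 → aeval y P = 0 → ∃ k : ℕ, (σ ^ k) x = y)
    (hns : ∃ y : PadicAlgCl p, aeval y P = 0 ∧ slope p n y ≠ 1 / 2) :
    MaxRank ((p : ℂ) ^ n) P :=
  maxRank_of hn hP hweil (onlyTrivial_cycle hn ha hP hdeg hweil σ hσ hns)

lemma maxRank_half (hn : 0 < n) {r a : ℕ} (hr : r.Prime) (ha : 0 < a) (hP : Irreducible P)
    (hdeg : P.natDegree = 2 * r ^ a)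
    (hweil : ∀ z : ℂ, aeval z P = 0 → ‖z‖ ^ 2 = (p : ℝ) ^ n)
    (D : ℤ) (u : PadicAlgCl p → ℤ)
    (hu : ∀ y : PadicAlgCl p, aeval y P = 0 → (u y : ℝ) = D * (2 * slope p n y - 1))
    (hΦ : ∀ Φ : Finset (PadicAlgCl p), (∀ y ∈ Φ, aeval y P = 0) →
      (∀ y, aeval y P = 0 → (y ∈ Φ ↔ (p : PadicAlgCl p) ^ n / y ∉ Φ)) →
      ¬ (r : ℤ) ∣ ∑ y ∈ Φ, u y) : MaxRank ((p : ℂ) ^ n) P := by
  intro xs T hxs hprod x hx
  exact key hn hr ha hP hdeg hweil D u hu hΦ 1 T one_pos xs hxs (by rw [pow_one, hprod]) x hx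

lemma maxRank_sep (hn : 0 < n) (hP : Irreducible P) (hdeg2 : 2 < P.natDegree)
    (hweil : ∀ z : ℂ, aeval z P = 0 → ‖z‖ ^ 2 = (p : ℝ) ^ n)
    (hsep : ∀ x y : P.SplittingField, aeval x P = 0 → aeval y P = 0 → y ≠ x →
      x * y ≠ (p : P.SplittingField) ^ n →
      ∃ σ : P.SplittingField ≃ₐ[ℚ] P.SplittingField,
        (∀ z, aeval z P = 0 → σ z = z ∨ z * σ z = (p : P.SplittingField) ^ n) ∧
        σ x = x ∧ y * σ y = (p : P.SplittingField) ^ n)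
    (hns : ∃ y : PadicAlgCl p, aeval y P = 0 ∧ slope p n y ≠ 1 / 2) :
    MaxRank ((p : ℂ) ^ n) P :=
  maxRank_of hn hP hweil (Pool.Agent.H93Tate.onlyTrivial_sep hn hP hdeg2 hweil hsep hns)

/-- `P` has degree `2 ^ (a + 1)`, some automorphism of its splitting field permutes its roots in
one cycle, and not all slopes are `1 / 2`. -/
def CycleCond (p n : ℕ) [Fact p.Prime] (P : ℚ[X]) : Prop :=
  ∃ a : ℕ, 0 < a ∧ P.natDegree = 2 ^ (a + 1) ∧
    (∃ σ : P.SplittingField ≃ₐ[ℚ] P.SplittingField,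
      ∀ x y : P.SplittingField, aeval x P = 0 → aeval y P = 0 → ∃ k : ℕ, (σ ^ k) x = y) ∧
    ∃ y : PadicAlgCl p, aeval y P = 0 ∧ slope p n y ≠ 1 / 2

/-- `P` has degree `2 r ^ a` with `r` prime, and for a suitable integer `D` all
`u(y) = D (2 slope(y) - 1)` are integers whose sum over any set of roots containing exactly one
of `y`, `q / y` for each root `y` is not divisible by `r`. -/
def HalfCond (p n : ℕ) [Fact p.Prime] (P : ℚ[X]) : Prop :=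
  ∃ r a : ℕ, r.Prime ∧ 0 < a ∧ P.natDegree = 2 * r ^ a ∧
    ∃ (D : ℤ) (u : PadicAlgCl p → ℤ),
      (∀ y : PadicAlgCl p, aeval y P = 0 → (u y : ℝ) = D * (2 * slope p n y - 1)) ∧
      ∀ Φ : Finset (PadicAlgCl p), (∀ y ∈ Φ, aeval y P = 0) →
        (∀ y, aeval y P = 0 → (y ∈ Φ ↔ (p : PadicAlgCl p) ^ n / y ∉ Φ)) →
        ¬ (r : ℤ) ∣ ∑ y ∈ Φ, u y

/-- Any two pairs `{x, q / x}`, `{y, q / y}` of roots are separated by an automorphism of the
splitting field that preserves all these pairs, and not all slopes are `1 / 2`. -/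
def SepCond (p n : ℕ) [Fact p.Prime] (P : ℚ[X]) : Prop :=
  (∀ x y : P.SplittingField, aeval x P = 0 → aeval y P = 0 → y ≠ x →
    x * y ≠ (p : P.SplittingField) ^ n →
    ∃ σ : P.SplittingField ≃ₐ[ℚ] P.SplittingField,
      (∀ z, aeval z P = 0 → σ z = z ∨ z * σ z = (p : P.SplittingField) ^ n) ∧
      σ x = x ∧ y * σ y = (p : P.SplittingField) ^ n) ∧
  ∃ y : PadicAlgCl p, aeval y P = 0 ∧ slope p n y ≠ 1 / 2

lemma maxRank_cond (hn : 0 < n) (hP : Irreducible P) (hdeg : 2 < P.natDegree)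
    (hweil : ∀ z : ℂ, aeval z P = 0 → ‖z‖ ^ 2 = (p : ℝ) ^ n)
    (hcond : MaxRank ((p : ℂ) ^ n) P ∨ CycleCond p n P ∨ HalfCond p n P ∨ SepCond p n P) :
    MaxRank ((p : ℂ) ^ n) P := by
  rcases hcond with h | ⟨a, ha, hd, ⟨σ, hσ⟩, hns⟩ | ⟨r, a, hr, ha, hd, D, u, hu, hΦ⟩ | ⟨hs, hns⟩
  · exact h
  · exact maxRank_cycle hn ha hP hd hweil σ hσ hns
  · exact maxRank_half hn hr ha hP hd hweil D u hu hΦ
  · exact maxRank_sep hn hP hdeg hweil hs hns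

end Pool.Agent.H91.Mono
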