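import Pool.Agent.H91.Mono.Sym3

/-! Semilinear symmetries of the Lie algebra and of the root relation. -/

set_option linter.unusedSectionVars false

namespace Pool.Agent.H91.Mono

open MvPolynomial

variable {K : Type*} [Field K] {V : Type*} [AddCommGroup V] [Module K V]

/-- conjugation of an endomorphism by a semilinear map -/
noncomputable def sconj (σ : K ≃+* K) (T : V ≃+ V) (hT : ∀ (c : K) v, T (c • v) = σ c • T v)
    (x : Module.End K V) : Module.End K V where
  toFun v := T (x (T.symm v))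
  map_add' u v := by rw [map_add, map_add, map_add]
  map_smul' c v := by
    have h1 : T.symm (c • v) = σ.symm c • T.symm v := by
      apply T.injective
      rw [hT, T.apply_symm_apply, T.apply_symm_apply, σ.apply_symm_apply]
    rw [h1, map_smul, hT, σ.apply_symm_apply, RingHom.id_apply]

section

variable (σ : K ≃+* K) (T : V ≃+ V) (hT : ∀ (c : K) v, T (c • v) = σ c • T v)

lemma sconj_apply (x : Module.End K V) (v : V) : sconj σ T hT x v = T (x (T.symm v)) := rfl

lemma sconj_one : sconj σ T hT 1 = 1 := by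
  ext v
  rw [sconj_apply]
  exact T.apply_symm_apply v

lemma sconj_add (x y : Module.End K V) :
    sconj σ T hT (x + y) = sconj σ T hT x + sconj σ T hT y := by
  ext v
  simp only [sconj_apply, LinearMap.add_apply, map_add]

lemma sconj_smul (c : K) (x : Module.End K V) :
    sconj σ T hT (c • x) = σ c • sconj σ T hT x := by
  ext v
  simp only [sconj_apply, LinearMap.smul_apply, hT]

/-- twisted functional -/
noncomputable def tw (φ : Module.Dual K (Module.End K V)) : Module.Dual K (Module.End K V) where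
  toFun x := σ.symm (φ (sconj σ T hT x))
  map_add' x y := by rw [sconj_add, map_add, map_add]
  map_smul' c x := by
    rw [sconj_smul, map_smul, smul_eq_mul, map_mul, σ.symm_apply_apply, RingHom.id_apply,
      smul_eq_mul]

lemma tw_apply (φ : Module.Dual K (Module.End K V)) (x : Module.End K V) :
    tw σ T hT φ x = σ.symm (φ (sconj σ T hT x)) := rfl

/-- twisted polynomial -/
noncomputable def twp : MvPolynomial (Module.Dual K (Module.End K V)) K →+*
    MvPolynomial (Module.Dual K (Module.End K V)) K :=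
  eval₂Hom (C.comp (σ.symm : K →+* K)) (fun φ => X (tw σ T hT φ))

lemma twp_C (c : K) : twp σ T hT (C c) = C (σ.symm c) := by
  simp [twp]

lemma twp_X (φ : Module.Dual K (Module.End K V)) : twp σ T hT (X φ) = X (tw σ T hT φ) := by
  simp [twp]

lemma ev_twp (g : Module.End K V) (f) :
    ev g (twp σ T hT f) = σ.symm (ev (sconj σ T hT g) f) := by
  induction f using MvPolynomial.induction_on with
  | C c =>
    rw [twp_C]
    simp [ev]
  | add p q hp hq => simp only [map_add, hp, hq]
  | mul_X p φ hp => rw [map_mul, map_mul, map_mul, map_mul, hp, twp_X, ev_X, ev_X, tw_apply]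

lemma pd_twp (x : Module.End K V) (f) :
    pd x (twp σ T hT f) = σ.symm (pd (sconj σ T hT x) f) := by
  induction f using MvPolynomial.induction_on with
  | C c => rw [twp_C, pd_C, pd_C, map_zero]
  | add p q hp hq => rw [map_add, pd_add, pd_add, map_add, hp, hq]
  | mul_X p φ hp =>
    rw [map_mul, pd_mul, pd_mul, map_add, map_mul, map_mul, hp, twp_X, pd_X, pd_X, ev_X, ev_X,
      tw_apply, tw_apply, ev_twp, sconj_one]

variable {Γ : Subgroup (V ≃ₗ[K] V)}

lemma lie_sconj (hTΓ : ∀ γ ∈ Γ, ∀ v, T ((γ : V ≃ₗ[K] V) v) = (γ : V ≃ₗ[K] V) (T v))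
    {x : Module.End K V} (hx : x ∈ lie Γ) : sconj σ T hT x ∈ lie Γ := by
  intro f hf
  have h1 := hx (twp σ T hT f) (by
    intro γ hγ
    rw [ev_twp]
    have : sconj σ T hT (γ : Module.End K V) = (γ : Module.End K V) := by
      ext v
      rw [sconj_apply]
      show T (γ (T.symm v)) = γ v
      rw [hTΓ γ hγ, T.apply_symm_apply]
    rw [this, hf γ hγ, map_zero])
  rw [pd_twp] at h1
  exact (map_eq_zero_iff σ.symm σ.symm.injective).1 h1

end

variable [CharZero K]
variable {ι : Type*} [Fintype ι] [DecidableEq ι]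
variable {ψ : V →ₗ[K] V →ₗ[K] K} {Γ : Subgroup (V ≃ₗ[K] V)} {b : Module.Basis ι K V}
    {bar : ι → ι} {lam : ι → K} {F : V ≃ₗ[K] V}

lemma lam_inj (h : Setup ψ Γ b bar lam F) : Function.Injective lam := by
  intro i j hij
  by_contra hne
  obtain ⟨h1, -⟩ := h.triv (Pi.single i 1) (Pi.single j 1) (by
    rw [Finset.prod_eq_single i, Finset.prod_eq_single j]
    · simp [hij]
    · intro k _ hk; simp [hk]
    · simp
    · intro k _ hk; simp [hk]
    · simp)
  have h2 := h1 i
  have hn := h.nofix i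
  rw [Pi.single_eq_same, Pi.single_eq_of_ne hn, Pi.single_eq_of_ne hne] at h2
  omega

/-- semilinear symmetries permute the eigenlines -/
lemma exists_perm (h : Setup ψ Γ b bar lam F) (σ : K ≃+* K) (T : V ≃+ V)
    (hT : ∀ (c : K) v, T (c • v) = σ c • T v)
    (hTΓ : ∀ γ ∈ Γ, ∀ v, T ((γ : V ≃ₗ[K] V) v) = (γ : V ≃ₗ[K] V) (T v)) :
    ∃ (s : ι → ι) (a : ι → K), Function.Injective s ∧ (∀ i, a i ≠ 0) ∧
      (∀ i, T (b i) = a i • b (s i)) ∧ ∀ i, lam (s i) = σ (lam i) := by
  have h1 : ∀ i, F (T (b i)) = σ (lam i) • T (b i) := by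
    intro i
    rw [← hTΓ F h.mem, h.eig, hT]
  have hF : ∀ (v : V) (k : ι), b.repr (F v) k = lam k * b.repr v k := by
    intro v k
    have h2 : (F : Module.End K V) = dg b lam := by
      apply b.ext
      intro i
      rw [dg_apply]
      exact h.eig i
    have h3 : F v = dg b lam v := by rw [← h2]; rfl
    rw [h3, dg_repr]
  have h2 : ∀ i, ∃ k, b.repr (T (b i)) k ≠ 0 := by
    intro i
    have h5 : b.repr (T (b i)) ≠ 0 := by
      intro h6
      have h7 := b.repr.map_eq_zero_iff.1 h6
      exact b.ne_zero i ((map_eq_zero_iff T T.injective).1 h7)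
    obtain ⟨m, hm⟩ := Finsupp.ne_iff.1 h5
    exact ⟨m, hm⟩
  choose s hs using h2
  have h3 : ∀ i k, b.repr (T (b i)) k ≠ 0 → lam k = σ (lam i) := by
    intro i k hk
    have h4 := hF (T (b i)) k
    rw [h1, map_smul, Finsupp.smul_apply, smul_eq_mul] at h4
    exact (mul_right_cancel₀ hk h4).symm
  have hlam : ∀ i, lam (s i) = σ (lam i) := fun i => h3 i _ (hs i)
  refine ⟨s, fun i => b.repr (T (b i)) (s i), ?_, hs, ?_, hlam⟩
  · intro i j hij
    apply lam_inj h
    apply σ.injective
    rw [← hlam, ← hlam, hij]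
  · intro i
    conv_lhs => rw [← b.sum_repr (T (b i))]
    rw [Finset.sum_eq_single (s i)]
    · intro k _ hk
      by_contra hcon
      have h4 : b.repr (T (b i)) k ≠ 0 := fun h5 => hcon (by rw [h5, zero_smul])
      apply hk
      apply lam_inj h
      rw [h3 i k h4, hlam]
    · simp

lemma repr_T {σ : K ≃+* K} {T : V ≃+ V} (hT : ∀ (c : K) v, T (c • v) = σ c • T v)
    {s : ι → ι} {a : ι → K} (hs : Function.Injective s) (hb : ∀ i, T (b i) = a i • b (s i))
    (v : V) (i : ι) : b.repr (T v) (s i) = σ (b.repr v i) * a i := by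
  conv_lhs => rw [← b.sum_repr v]
  rw [map_sum, map_sum, Finsupp.finsetSum_apply, Finset.sum_eq_single i]
  · rw [hT, hb, smul_smul, map_smul, Finsupp.smul_apply, b.repr_self, Finsupp.single_eq_same,
      smul_eq_mul, mul_one]
  · intro k _ hk
    rw [hT, hb, smul_smul, map_smul, Finsupp.smul_apply, b.repr_self,
      Finsupp.single_eq_of_ne (fun h5 => hk (hs h5.symm)), smul_zero]
  · simp

lemma Rr_gal (h : Setup ψ Γ b bar lam F) {σ : K ≃+* K} {T : V ≃+ V}
    (hT : ∀ (c : K) v, T (c • v) = σ c • T v)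
    (hTΓ : ∀ γ ∈ Γ, ∀ v, T ((γ : V ≃ₗ[K] V) v) = (γ : V ≃ₗ[K] V) (T v))
    {s : ι → ι} {a : ι → K} (hs : Function.Injective s) (ha : ∀ i, a i ≠ 0)
    (hb : ∀ i, T (b i) = a i • b (s i)) {i j : ι} (hij : Rr ψ Γ b bar i j) :
    Rr ψ Γ b bar (s i) (s j) := by
  rcases hij with rfl | hR
  · exact Or.inl rfl
  by_cases hne : i = j
  · rw [hne]; exact Or.inl rfl
  right
  have h1 := lie_sconj σ T hT hTΓ hR
  have hX : LinearMap.toMatrix b b (sconj σ T hT (Matrix.toLin b b (root bar (cc ψ b bar) i j))) ∈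
      LM Γ b := by
    rw [mem_LM, Matrix.toLin_toMatrix]
    exact h1
  apply proj (good h) hX (fun h5 => hne (hs h5))
  rw [LinearMap.toMatrix_apply, sconj_apply]
  have h2 : T.symm (b (s j)) = σ.symm (a j)⁻¹ • b j := by
    apply T.injective
    rw [T.apply_symm_apply, hT, σ.apply_symm_apply, hb, smul_smul, inv_mul_cancel₀ (ha j),
      one_smul]
  rw [h2, repr_T hT hs hb, map_smul, map_smul, Finsupp.smul_apply, smul_eq_mul]
  have h3 : b.repr (Matrix.toLin b b (root bar (cc ψ b bar) i j) (b j)) i =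
      root bar (cc ψ b bar) i j i j := by
    rw [← LinearMap.toMatrix_apply, LinearMap.toMatrix_toLin]
  rw [h3]
  apply mul_ne_zero _ (ha i)
  rw [map_mul, σ.apply_symm_apply]
  apply mul_ne_zero (inv_ne_zero (ha j))
  rw [Ne, map_eq_zero_iff σ σ.injective, root_apply]
  simp only [and_self, if_true]
  by_cases h4 : bar j = i ∧ bar i = j
  · rw [if_pos h4]
    have h5 : cc ψ b bar j = - cc ψ b bar i := by rw [← h4.2, cc_neg h]
    rw [h5]
    have h6 : cc ψ b bar i ≠ 0 := h.ne i
    intro h7
    apply h6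
    have h8 : (2 : K) * cc ψ b bar i = 0 := by linear_combination -h7
    rcases mul_eq_zero.1 h8 with h9 | h9
    · exact absurd h9 two_ne_zero
    · exact h9
  · rw [if_neg h4, sub_zero]
    exact h.ne j

end Pool.Agent.H91.Mono
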