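import Pool.Agent.H91.Mono.Gal1

/-! Groups defined over a subfield: symmetry of the root relation without semisimplicity and a
criterion for irreducibility. -/

set_option linter.unusedSectionVars false

namespace Pool.Agent.H91.Mono

open MvPolynomial

variable {K : Type*} [Field K] [CharZero K] {V : Type*} [AddCommGroup V] [Module K V]
variable {ι : Type*} [Fintype ι] [DecidableEq ι]
variable {ψ : V →ₗ[K] V →ₗ[K] K} {Γ : Subgroup (V ≃ₗ[K] V)} {b : Module.Basis ι K V}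
    {bar : ι → ι} {lam : ι → K} {F : V ≃ₗ[K] V}

/-- some semilinear bijection over `σ` commutes with `Γ` -/
def SemiSym (Γ : Subgroup (V ≃ₗ[K] V)) (σ : K ≃+* K) : Prop :=
  ∃ T : V ≃+ V, (∀ (c : K) v, T (c • v) = σ c • T v) ∧
    ∀ γ ∈ Γ, ∀ v, T ((γ : V ≃ₗ[K] V) v) = (γ : V ≃ₗ[K] V) (T v)

omit [CharZero K] in
lemma SemiSym.symm {σ : K ≃+* K} (h : SemiSym Γ σ) : SemiSym Γ σ.symm := by
  obtain ⟨T, hT, hΓ⟩ := h
  refine ⟨T.symm, ?_, ?_⟩
  · intro c v
    apply T.injective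
    rw [hT, T.apply_symm_apply, T.apply_symm_apply, σ.apply_symm_apply]
  · intro γ hγ v
    apply T.injective
    rw [hΓ γ hγ, T.apply_symm_apply, T.apply_symm_apply]

lemma perm_R (h : Setup ψ Γ b bar lam F) {σ : K ≃+* K} (hσ : SemiSym Γ σ) :
    ∃ s : ι → ι, Function.Bijective s ∧ (∀ i, lam (s i) = σ (lam i)) ∧
      ∀ i j, Rr ψ Γ b bar (s i) (s j) ↔ Rr ψ Γ b bar i j := by
  obtain ⟨T, hT, hΓ⟩ := hσ
  obtain ⟨s, a, hs, ha, hb, hl⟩ := exists_perm h σ T hT hΓ
  obtain ⟨T', hT', hΓ'⟩ := SemiSym.symm ⟨T, hT, hΓ⟩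
  obtain ⟨s', a', hs', ha', hb', hl'⟩ := exists_perm h σ.symm T' hT' hΓ'
  have hss : ∀ i, s' (s i) = i := by
    intro i
    apply lam_inj h
    rw [hl', hl, σ.symm_apply_apply]
  refine ⟨s, Finite.injective_iff_bijective.1 hs, hl, ?_⟩
  intro i j
  constructor
  · intro h1
    have h2 := Rr_gal h hT' hΓ' hs' ha' hb' h1
    rwa [hss, hss] at h2
  · intro h1
    exact Rr_gal h hT hΓ hs ha hb h1

/-- symmetry of the root relation from conjugacy of the eigenvalues with their partners -/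
lemma all_mn_gal (h : Setup ψ Γ b bar lam F)
    (hq : ∀ i, ∃ σ : K ≃+* K, SemiSym Γ σ ∧ σ (lam i) = lam (bar i)) (i : ι) :
    Mn ψ Γ b bar i := by
  have hbar : ∀ l, Mn ψ Γ b bar l → Mn ψ Γ b bar (bar l) := by
    intro l hl
    obtain ⟨σ, hσ, hσl⟩ := hq l
    obtain ⟨s, hs, hsl, hsR⟩ := perm_R h hσ
    have h1 : s l = bar l := by
      apply lam_inj h
      rw [hsl, hσl]
    rw [← h1]
    intro k hk
    obtain ⟨k', rfl⟩ := hs.2 k
    exact (hsR _ _).2 (hl k' ((hsR _ _).1 hk))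
  have hdual : ∀ i j, Rr ψ Γ b bar (bar j) (bar i) → Rr ψ Γ b bar i j := by
    intro i j hij
    have := Rr_dual h hij
    rwa [h.inv, h.inv] at this
  obtain ⟨l, hl, hmn⟩ := exists_mn h i
  have h1 : Rr ψ Γ b bar (bar i) (bar l) := Rr_dual h hl
  have h2 := hbar l hmn _ h1
  have h3 : Rr ψ Γ b bar i l := hdual _ _ h2
  intro k hk
  have h4 := hmn k (Rr_trans h hk h3)
  exact Rr_trans h h3 h4

/-- projections commute with `fixSub` -/
lemma proj_fix (h : Setup ψ Γ b bar lam F) (hmn : ∀ i, Mn ψ Γ b bar i) (l : ι)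
    (e : ι → K) (he1 : ∀ k, Rr ψ Γ b bar k l → e k = 1) (he0 : ∀ k, ¬ Rr ψ Γ b bar k l → e k = 0)
    (γ : Γ) (hγ : γ ∈ fixSub Γ) (v : V) :
    dg b e ((γ : V ≃ₗ[K] V) v) = (γ : V ≃ₗ[K] V) (dg b e v) := by
  let W : Submodule K V := co b (fun k => Rr ψ Γ b bar k l)
  let W' : Submodule K V := co b (fun k => ¬ Rr ψ Γ b bar k l)
  have hW : Stab Γ W := stab_co h (fun k m h1 h2 => Rr_trans h h1 h2)
  have hW' : Stab Γ W' := stab_co h (fun k m h1 h2 h3 => h2 (Rr_trans h (Rr_symm hmn h1) h3))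
  have h1 : ∀ w ∈ W, (γ : V ≃ₗ[K] V) w ∈ W := by
    intro w hw
    have := mem_fixSub hγ hW
    rw [← this]
    exact Submodule.mem_map_of_mem hw
  have h2 : ∀ w ∈ W', (γ : V ≃ₗ[K] V) w ∈ W' := by
    intro w hw
    have := mem_fixSub hγ hW'
    rw [← this]
    exact Submodule.mem_map_of_mem hw
  have e1 : ∀ w ∈ W, dg b e w = w := by
    intro w hw
    apply b.repr.injective
    ext k
    rw [dg_repr]
    by_cases h3 : b.repr w k = 0
    · rw [h3, mul_zero]
    · rw [he1 k (hw k h3), one_mul]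
  have e2 : ∀ w ∈ W', dg b e w = 0 := by
    intro w hw
    apply b.repr.injective
    ext k
    rw [dg_repr, map_zero, Finsupp.zero_apply]
    by_cases h3 : b.repr w k = 0
    · rw [h3, mul_zero]
    · rw [he0 k (hw k h3), zero_mul]
  have hw : dg b e v ∈ W := by
    intro k hk
    rw [dg_repr] at hk
    by_contra h3
    rw [he0 k h3, zero_mul] at hk
    exact hk rfl
  have hw' : v - dg b e v ∈ W' := by
    intro k hk h3
    rw [map_sub, Finsupp.sub_apply, dg_repr, he1 k h3, one_mul, sub_self] at hk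
    exact hk rfl
  have h4 : v = dg b e v + (v - dg b e v) := by abel
  have h5 : (γ : V ≃ₗ[K] V) v = (γ : V ≃ₗ[K] V) (dg b e v) + (γ : V ≃ₗ[K] V) (v - dg b e v) := by
    rw [← map_add, ← h4]
  rw [h5, map_add, e1 _ (h1 _ hw), e2 _ (h2 _ hw'), add_zero]

/-- `v` spans the eigenspace of all positive powers of `F'` for the powers of `α` -/
def Nondeg (F' : V ≃ₗ[K] V) (α : K) (v : V) : Prop :=
  v ≠ 0 ∧ F' v = α • v ∧ ∀ N : ℕ, 0 < N → ∀ w, (F' ^ N) w = α ^ N • w → ∃ c : K, w = c • v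

/-- a nondegenerate eigenvector lies in one block -/
lemma eig_class (h : Setup ψ Γ b bar lam F) (hmn : ∀ i, Mn ψ Γ b bar i) {F' : V ≃ₗ[K] V}
    (hF' : F' ∈ Γ) {α : K} {v : V} (hv : Nondeg F' α v) :
    ∃ i₀, v ∈ co b (fun k => Rr ψ Γ b bar k i₀) := by
  classical
  obtain ⟨hv0, hFv, hN⟩ := hv
  have hfi := fixSub_finite h
  obtain ⟨N, hN0, -, hmem⟩ := Subgroup.exists_pow_mem_of_index_ne_zero hfi.index_ne_zero
    (⟨F', hF'⟩ : Γ)
  have hpow : ∀ n : ℕ, (F' ^ n) v = α ^ n • v := by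
    intro n
    induction n with
    | zero => rw [pow_zero, pow_zero, one_smul]; rfl
    | succ n ih => rw [pow_succ', LinearEquiv.mul_apply, ih, map_smul, hFv, smul_smul, pow_succ]
  have h5 : b.repr v ≠ 0 := by
    intro h6
    exact hv0 (b.repr.map_eq_zero_iff.1 h6)
  obtain ⟨i₀, hi₀⟩ := Finsupp.ne_iff.1 h5
  refine ⟨i₀, ?_⟩
  let e : ι → K := fun m => if Rr ψ Γ b bar m i₀ then 1 else 0
  have h6 := proj_fix h hmn i₀ e (fun k hk => if_pos hk) (fun k hk => if_neg hk) _ hmem v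
  have h7 : (((⟨F', hF'⟩ : Γ) ^ N : Γ) : V ≃ₗ[K] V) = F' ^ N := by simp
  rw [h7, hpow, map_smul] at h6
  obtain ⟨c, hc⟩ := hN N hN0 _ h6.symm
  have h8 : b.repr (dg b e v) i₀ = b.repr v i₀ := by
    rw [dg_repr]
    have : e i₀ = 1 := if_pos (Rr_refl i₀)
    rw [this, one_mul]
  have hc0 : c ≠ 0 := by
    rintro rfl
    rw [hc, zero_smul, map_zero, Finsupp.zero_apply] at h8
    exact hi₀ h8.symm
  intro k hk
  by_contra hcon
  have h9 : b.repr (dg b e v) k = 0 := by
    rw [dg_repr]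
    have : e k = 0 := if_neg hcon
    rw [this, zero_mul]
  rw [hc, map_smul, Finsupp.smul_apply, smul_eq_mul] at h9
  rcases mul_eq_zero.1 h9 with h10 | h10
  · exact hc0 h10
  · exact hk h10

/-- symmetries fixing the eigenvalue fix the block -/
lemma class_fixed (h : Setup ψ Γ b bar lam F) (hmn : ∀ i, Mn ψ Γ b bar i) {F' : V ≃ₗ[K] V}
    (hF' : F' ∈ Γ) {α : K} {v : V} (hv : Nondeg F' α v) {i₀ : ι}
    (hi₀ : v ∈ co b (fun k => Rr ψ Γ b bar k i₀)) {σ : K ≃+* K} (hσ : SemiSym Γ σ)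
    (hσα : σ α = α) (i₁ : ι) (hi₁ : lam i₁ = σ (lam i₀)) : Rr ψ Γ b bar i₁ i₀ := by
  obtain ⟨hv0, hFv, hN⟩ := hv
  obtain ⟨T, hT, hΓ⟩ := hσ
  obtain ⟨s, a, hs, ha, hb, hl⟩ := exists_perm h σ T hT hΓ
  have h1 : i₁ = s i₀ := by
    apply lam_inj h
    rw [hi₁, hl]
  rw [h1]
  have h2 : (F' ^ 1) (T v) = α ^ 1 • T v := by
    rw [pow_one, pow_one, ← hΓ F' hF', hFv, hT, hσα]
  obtain ⟨c, hc⟩ := hN 1 one_pos _ h2
  have hTv : T v ≠ 0 := fun h5 => hv0 ((map_eq_zero_iff T T.injective).1 h5)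
  have hc0 : c ≠ 0 := by
    rintro rfl
    rw [zero_smul] at hc
    exact hTv hc
  have h5 : b.repr v ≠ 0 := by
    intro h6
    exact hv0 (b.repr.map_eq_zero_iff.1 h6)
  obtain ⟨k, hk⟩ := Finsupp.ne_iff.1 h5
  have hk' : b.repr v k ≠ 0 := hk
  have h6 : Rr ψ Γ b bar k i₀ := hi₀ k hk'
  have h7 : b.repr (T v) (s k) ≠ 0 := by
    rw [repr_T hT hs hb]
    exact mul_ne_zero (fun h8 => hk' ((map_eq_zero_iff σ σ.injective).1 h8)) (ha k)
  have h8 : b.repr v (s k) ≠ 0 := by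
    intro h9
    apply h7
    rw [hc, map_smul, Finsupp.smul_apply, h9, smul_zero]
  have h9 : Rr ψ Γ b bar (s k) i₀ := hi₀ _ h8
  have h10 := Rr_gal h hT hΓ hs ha hb h6
  exact Rr_trans h (Rr_symm hmn h10) h9

/-- counting blocks -/
lemma single_block {G X : Type*} [Group G] [MulAction G X] [Fintype X]
    [MulAction.IsPretransitive G X] (r : X → X → Prop) (hrefl : ∀ x, r x x)
    (hsymm : ∀ x y, r x y → r y x) (htrans : ∀ x y z, r x y → r y z → r x z)
    (hG : ∀ (g : G) x y, r x y → r (g • x) (g • y))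
    (hA : ∀ q : ℕ, q.Prime → q ∣ Fintype.card X →
      ∃ (x₀ : X) (A : Subgroup G), (∀ g ∈ A, r (g • x₀) x₀) ∧ ¬ q ∣ A.index) (x y : X) :
    r x y := by
  classical
  let S : Setoid X := ⟨r, hrefl, fun {x y} => hsymm x y, fun {x y z} => htrans x y z⟩
  let Y := Quotient S
  let act : MulAction G Y :=
    { smul := fun g => Quotient.map (fun x => g • x) (fun x y h => hG g x y h)
      one_smul := by
        intro y
        induction y using Quotient.inductionOn with
        | _ x => exact congrArg (Quotient.mk S) (one_smul G x)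
      mul_smul := by
        intro g g' y
        induction y using Quotient.inductionOn with
        | _ x => exact congrArg (Quotient.mk S) (mul_smul g g' x) }
  have hmk : ∀ (g : G) (x : X), g • (Quotient.mk S x : Y) = Quotient.mk S (g • x) :=
    fun g x => rfl
  have htr : MulAction.IsPretransitive G Y := by
    refine ⟨fun a c => ?_⟩
    induction a using Quotient.inductionOn with
    | _ x =>
      induction c using Quotient.inductionOn with
      | _ y =>
        obtain ⟨g, hg⟩ := MulAction.exists_smul_eq G x y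
        exact ⟨g, by rw [hmk, hg]⟩
  have hcardY : ∀ y₀ : Y, (MulAction.stabilizer G y₀).index = Nat.card Y := fun y₀ =>
    MulAction.index_stabilizer_of_transitive G y₀
  have hcardX : ∀ x₀ : X, (MulAction.stabilizer G x₀).index = Fintype.card X := fun x₀ => by
    rw [MulAction.index_stabilizer_of_transitive G x₀, Nat.card_eq_fintype_card]
  have hdvd : Nat.card Y ∣ Fintype.card X := by
    rw [← hcardX x, ← hcardY (Quotient.mk S x)]
    apply Subgroup.index_dvd_of_le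
    intro g hg
    rw [MulAction.mem_stabilizer_iff] at hg ⊢
    rw [hmk, hg]
  have hone : Nat.card Y = 1 := by
    by_contra hne
    obtain ⟨q, hq, hqd⟩ := Nat.exists_prime_and_dvd hne
    obtain ⟨x₀, A, hA1, hA2⟩ := hA q hq (hqd.trans hdvd)
    apply hA2
    refine hqd.trans ?_
    rw [← hcardY (Quotient.mk S x₀)]
    apply Subgroup.index_dvd_of_le
    intro g hg
    rw [MulAction.mem_stabilizer_iff, hmk]
    exact Quotient.sound (hA1 g hg)
  have hsub := (Nat.card_eq_one_iff_unique.1 hone).1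
  exact Quotient.exact (Subsingleton.elim (Quotient.mk S x) (Quotient.mk S y))

end Pool.Agent.H91.Mono
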