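import Pool.Agent.H91.Mono.Sym3
import Pool.Agent.H93Tate.PairClassMain
import Pool.Agent.H93Tate.CycleMain
import Pool.Agent.H93Tate.Quad

/-! From Weil polynomials to the standing hypotheses. -/

set_option linter.unusedSectionVars false

namespace Pool.Agent.H91.Mono

open Polynomial Pool.Agent.H93Tate

/-- Maximal angle rank: every product of roots of `P` (with repetitions) that is equal to a power
of `q` contains each root `x` exactly as often as `q / x`. -/
def MaxRank (q : ℂ) (P : ℚ[X]) : Prop :=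
  ∀ (xs : List ℂ) (T : ℕ), (∀ x ∈ xs, aeval x P = 0) → xs.prod = q ^ T →
    ∀ x, aeval x P = 0 → xs.count x = xs.count (q / x)

section

variable {p n : ℕ} [hp : Fact p.Prime] {P : ℚ[X]}

lemma maxRank_of (hn : 0 < n) (hP : Irreducible P)
    (hweil : ∀ z : ℂ, aeval z P = 0 → ‖z‖ ^ 2 = (p : ℝ) ^ n) (h : OnlyTrivial hweil) :
    MaxRank ((p : ℂ) ^ n) P := by
  intro xs T hxs hprod x hx
  exact key_gen hn hP hweil h 1 T one_pos xs hxs (by rw [pow_one, hprod]) x hx

lemma maxRank_of_at (hn : 0 < n) (hP : Irreducible P)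
    (hweil : ∀ z : ℂ, aeval z P = 0 → ‖z‖ ^ 2 = (p : ℝ) ^ n)
    (jp : P.SplittingField →ₐ[ℚ] PadicAlgCl p) (h : OnlyTrivialAt hweil jp) :
    MaxRank ((p : ℂ) ^ n) P := by
  intro xs T hxs hprod x hx
  exact key_genAt hn hP hweil jp h 1 T one_pos xs hxs (by rw [pow_one, hprod]) x hx

/-- a list with prescribed multiplicities -/
lemma exists_list {α β : Type*} [Fintype α] [DecidableEq α] [CommMonoid β] [DecidableEq β]
    (f : α → β) (hf : Function.Injective f) (k : α → ℕ) :
    ∃ xs : List β, (∀ x ∈ xs, ∃ a, f a = x) ∧ xs.prod = ∏ a, f a ^ k a ∧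
      ∀ a, xs.count (f a) = k a := by
  let M : Multiset β := ∑ a, k a • ({f a} : Multiset β)
  refine ⟨M.toList, ?_, ?_, ?_⟩
  · intro x hx
    rw [Multiset.mem_toList] at hx
    obtain ⟨a, _, ha⟩ := Multiset.mem_sum.1 hx
    refine ⟨a, ?_⟩
    have h1 := Multiset.mem_of_mem_nsmul ha
    exact (Multiset.mem_singleton.1 h1).symm
  · rw [Multiset.prod_toList, Multiset.prod_sum]
    apply Finset.prod_congr rfl
    intro a _
    rw [Multiset.prod_nsmul, Multiset.prod_singleton]
  · intro a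
    rw [← Multiset.coe_count, Multiset.coe_toList, Multiset.count_sum', Finset.sum_eq_single a]
    · rw [Multiset.count_nsmul, Multiset.count_singleton_self, mul_one]
    · intro c _ hc
      rw [Multiset.count_nsmul, Multiset.count_singleton, if_neg (fun h => hc (hf h).symm),
        mul_zero]
    · simp

lemma trivRel_of (hn : 0 < n) (hP : Irreducible P)
    (hweil : ∀ z : ℂ, aeval z P = 0 → ‖z‖ ^ 2 = (p : ℝ) ^ n) (hmr : MaxRank ((p : ℂ) ^ n) P)
    {K : Type*} [Field K] [CharZero K] (jE : P.SplittingField →ₐ[ℚ] K) :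
    TrivRel (inv hweil) (fun x : Rt P => jE x.1) := by
  classical
  intro m m' hrel
  let L := P.SplittingField
  let jC : L →ₐ[ℚ] ℂ := IsAlgClosed.lift
  -- the relation in the splitting field
  have hL : ∏ x : Rt P, x.1 ^ m x = ∏ x : Rt P, x.1 ^ m' x := by
    apply jE.toRingHom.injective
    show jE _ = jE _
    simp only [map_prod, map_pow]
    exact hrel
  have hne : ∀ x : Rt P, x.1 ≠ 0 := fun x => root_ne_zero hweil x.2
  have hpair : ∀ x : Rt P, (inv hweil x).1 * x.1 = (p : L) ^ n := by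
    intro x
    show (p : L) ^ n / x.1 * x.1 = _
    rw [div_mul_cancel₀ _ (hne x)]
  have hbij : Function.Bijective (inv hweil) :=
    ⟨fun x y h => by rw [← inv_inv' hweil x, h, inv_inv' hweil y],
      fun x => ⟨inv hweil x, inv_inv' hweil x⟩⟩
  have hL2 : ∏ x : Rt P, x.1 ^ (m x + m' (inv hweil x)) = ((p : L) ^ n) ^ (∑ x, m' x) := by
    have h1 : ∏ x : Rt P, x.1 ^ (m x + m' (inv hweil x)) =
        (∏ x : Rt P, x.1 ^ m x) * ∏ x : Rt P, x.1 ^ m' (inv hweil x) := by
      rw [← Finset.prod_mul_distrib]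
      exact Finset.prod_congr rfl fun x _ => pow_add _ _ _
    have h2 : ∏ x : Rt P, x.1 ^ m' (inv hweil x) = ∏ x : Rt P, (inv hweil x).1 ^ m' x := by
      rw [← hbij.prod_comp (fun x : Rt P => (inv hweil x).1 ^ m' x)]
      apply Finset.prod_congr rfl
      intro x _
      rw [inv_inv']
    rw [h1, hL, h2, ← Finset.prod_mul_distrib, ← Finset.prod_pow_eq_pow_sum]
    apply Finset.prod_congr rfl
    intro x _
    rw [← mul_pow, mul_comm, hpair]
  have hinjC : Function.Injective (fun x : Rt P => jC x.1) :=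
    fun x y hxy => Subtype.ext (jC.toRingHom.injective hxy)
  have hrootC : ∀ x : Rt P, aeval (jC x.1) P = 0 := fun x => by
    rw [aeval_algHom_apply, rt_root, map_zero]
  constructor
  · intro x
    obtain ⟨xs, h1, h2, h3⟩ := exists_list (fun x : Rt P => jC x.1) hinjC
      (fun x => m x + m' (inv hweil x))
    have h4 := hmr xs (∑ x, m' x) (by
      intro z hz
      obtain ⟨y, rfl⟩ := h1 z hz
      exact hrootC y) (by
      rw [h2]
      have h5 := congrArg jC hL2
      rw [map_prod, map_pow, map_pow, map_natCast] at h5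
      rw [← h5]
      apply Finset.prod_congr rfl
      intro y _
      rw [map_pow]) (jC x.1) (hrootC x)
    have h5 : (p : ℂ) ^ n / jC x.1 = jC (inv hweil x).1 := by
      show _ = jC ((p : L) ^ n / x.1)
      rw [map_div₀, map_pow, map_natCast]
    have h3' : ∀ y : Rt P, xs.count (jC y.1) = m y + m' (inv hweil y) := h3
    rw [h5] at h4
    have h6 := h3' x
    have h7 := h3' (inv hweil x)
    rw [inv_inv'] at h7
    omega
  · have hnorm : ∀ x : Rt P, ‖jC x.1‖ ^ 2 = (p : ℝ) ^ n := fun x => hweil _ (hrootC x)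
    have key : ∀ k : Rt P → ℕ, ‖jC (∏ x : Rt P, x.1 ^ k x)‖ ^ 2 = ((p : ℝ) ^ n) ^ (∑ x, k x) := by
      intro k
      rw [map_prod, norm_prod, ← Finset.prod_pow, ← Finset.prod_pow_eq_pow_sum]
      apply Finset.prod_congr rfl
      intro x _
      rw [map_pow, norm_pow, ← pow_mul, mul_comm, pow_mul, hnorm]
    have h1 := key m
    rw [hL, key m'] at h1
    exact (pow_right_injective₀ (lt_trans one_pos (one_lt_pow hn)) (one_lt_pow hn).ne' h1).symm

/-- eigenbasis -/
lemma exists_eigenbasis (hP : Irreducible P) {K : Type*} [Field K] [CharZero K] {V : Type*}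
    [AddCommGroup V] [Module K V] [FiniteDimensional K V] (F : Module.End K V)
    (hF : F.charpoly = P.map (algebraMap ℚ K)) (jE : P.SplittingField →ₐ[ℚ] K) :
    ∃ b : Module.Basis (Rt P) K V, ∀ x, F (b x) = jE x.1 • b x := by
  classical
  have h1 : ∀ x : Rt P, ∃ v, F.HasEigenvector (jE x.1) v := by
    intro x
    have h2 : F.HasEigenvalue (jE x.1) := by
      rw [Module.End.hasEigenvalue_iff_isRoot_charpoly, hF, IsRoot.def, eval_map_algebraMap,
        aeval_algHom_apply, rt_root, map_zero]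
    exact h2.exists_hasEigenvector
  choose v hv using h1
  have hinj : Function.Injective (fun x : Rt P => jE x.1) :=
    fun x y hxy => Subtype.ext (jE.toRingHom.injective hxy)
  have hli : LinearIndependent K v := Module.End.eigenvectors_linearIndependent' F _ hinj v hv
  have hcard : Fintype.card (Rt P) = Module.finrank K V := by
    rw [card_rt hP, ← LinearMap.charpoly_natDegree F, hF, natDegree_map]
  have hne : Nonempty (Rt P) := by
    rw [← Fintype.card_pos_iff, card_rt hP]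
    exact hP.natDegree_pos
  refine ⟨basisOfLinearIndependentOfCardEqFinrank hli hcard, ?_⟩
  intro x
  rw [coe_basisOfLinearIndependentOfCardEqFinrank]
  exact (hv x).apply_eq_smul

/-- the standing hypotheses hold -/
theorem setup_of (hn : 0 < n) (hP : Irreducible P) (hdeg : 2 < P.natDegree)
    (hweil : ∀ z : ℂ, aeval z P = 0 → ‖z‖ ^ 2 = (p : ℝ) ^ n) (hmr : MaxRank ((p : ℂ) ^ n) P)
    {K : Type*} [Field K] [CharZero K] {V : Type*}
    [AddCommGroup V] [Module K V] [FiniteDimensional K V] (ψ : V →ₗ[K] V →ₗ[K] K)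
    (halt : ∀ v, ψ v v = 0) (hnd : ∀ v, (∀ w, ψ v w = 0) → v = 0)
    (Γ : Subgroup (V ≃ₗ[K] V))
    (hsim : ∀ γ ∈ Γ, ∃ μ : K, ∀ u v, ψ ((γ : V ≃ₗ[K] V) u) ((γ : V ≃ₗ[K] V) v) = μ * ψ u v)
    (F : V ≃ₗ[K] V) (hF : F ∈ Γ)
    (hchar : LinearMap.charpoly (F : V →ₗ[K] V) = P.map (algebraMap ℚ K))
    (hmult : ∀ u v, ψ (F u) (F v) = (p : K) ^ n * ψ u v)
    (jE : P.SplittingField →ₐ[ℚ] K) :
    ∃ b : Module.Basis (Rt P) K V, Setup ψ Γ b (inv hweil) (fun x : Rt P => jE x.1) F := by
  classical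
  obtain ⟨b, hb⟩ := exists_eigenbasis hP (F : V →ₗ[K] V) hchar jE
  have hne : ∀ x : Rt P, x.1 ≠ 0 := fun x => root_ne_zero hweil x.2
  have hlne : ∀ x : Rt P, jE x.1 ≠ 0 := fun x => by
    rw [Ne, map_eq_zero]; exact hne x
  have hzero : ∀ i j : Rt P, j ≠ inv hweil i → ψ (b i) (b j) = 0 := by
    intro i j hij
    have h1 := hmult (b i) (b j)
    have e1 : F (b i) = jE i.1 • b i := hb i
    have e2 : F (b j) = jE j.1 • b j := hb j
    rw [e1, e2, map_smul, map_smul, LinearMap.smul_apply, smul_eq_mul, smul_eq_mul] at h1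
    have h2 : (jE i.1 * jE j.1 - (p : K) ^ n) * ψ (b i) (b j) = 0 := by linear_combination h1
    rcases mul_eq_zero.1 h2 with h3 | h3
    · exfalso
      apply hij
      apply Subtype.ext
      apply jE.toRingHom.injective
      show jE j.1 = jE ((p : P.SplittingField) ^ n / i.1)
      rw [map_div₀, map_pow, map_natCast, eq_div_iff (hlne i)]
      linear_combination h3
    · exact h3
  have hne' : ∀ i : Rt P, ψ (b i) (b (inv hweil i)) ≠ 0 := by
    intro i h0
    apply b.ne_zero i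
    apply hnd
    intro w
    rw [← b.sum_repr w, map_sum]
    apply Finset.sum_eq_zero
    intro j _
    rw [map_smul]
    by_cases hj : j = inv hweil i
    · rw [hj, h0, smul_zero]
    · rw [hzero i j hj, smul_zero]
  exact ⟨b,
    { inv := inv_inv' hweil
      nofix := fun x hx => inv_ne hP hdeg hweil x.2 (congrArg Subtype.val hx)
      alt := halt
      zero := hzero
      ne := hne'
      sim := hsim
      mem := hF
      eig := hb
      triv := trivRel_of hn hP hweil hmr jE }⟩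

/-- **Density theorem, symplectic case.** -/
theorem symplectic (hn : 0 < n) (hP : Irreducible P) (hdeg : 2 < P.natDegree)
    (hweil : ∀ z : ℂ, aeval z P = 0 → ‖z‖ ^ 2 = (p : ℝ) ^ n) (hmr : MaxRank ((p : ℂ) ^ n) P)
    {K : Type*} [Field K] [CharZero K] [IsAlgClosed K] {V : Type*}
    [AddCommGroup V] [Module K V] [FiniteDimensional K V] (ψ : V →ₗ[K] V →ₗ[K] K)
    (halt : ∀ v, ψ v v = 0) (hnd : ∀ v, (∀ w, ψ v w = 0) → v = 0)
    (Γ : Subgroup (V ≃ₗ[K] V))
    (hsim : ∀ γ ∈ Γ, ∃ μ : K, ∀ u v, ψ ((γ : V ≃ₗ[K] V) u) ((γ : V ≃ₗ[K] V) v) = μ * ψ u v)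
    (hss : ∀ W : Submodule K V, (∀ γ ∈ Γ, ∀ w ∈ W, (γ : V ≃ₗ[K] V) w ∈ W) →
      ∃ W' : Submodule K V, (∀ γ ∈ Γ, ∀ w ∈ W', (γ : V ≃ₗ[K] V) w ∈ W') ∧ IsCompl W W')
    (F : V ≃ₗ[K] V) (hF : F ∈ Γ)
    (hchar : LinearMap.charpoly (F : V →ₗ[K] V) = P.map (algebraMap ℚ K))
    (hmult : ∀ u v, ψ (F u) (F v) = (p : K) ^ n * ψ u v)
    (g : V ≃ₗ[K] V) (hg : ∃ μ : K, ∀ u v, ψ (g u) (g v) = μ * ψ u v)
    (hcomm : ∀ c : Module.End K V, Comm Γ c → ∀ v, c (g v) = g (c v)) :
    InCl Γ (g : Module.End K V) := by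
  classical
  let jE : P.SplittingField →ₐ[ℚ] K := IsAlgClosed.lift
  obtain ⟨b, hset⟩ := setup_of hn hP hdeg hweil hmr ψ halt hnd Γ hsim F hF hchar hmult jE
  have hnt : Nontrivial V := by
    have hnz : Nonempty (Rt P) := by
      rw [← Fintype.card_pos_iff, card_rt hP]
      exact hP.natDegree_pos
    obtain ⟨x⟩ := hnz
    exact ⟨⟨b x, 0, b.ne_zero x⟩⟩
  have hmn := all_mn hset hss
  refine dense hset hmn g hg (supp_of_comm hset hmn _ ?_)
  intro c hc
  ext v
  exact hcomm c hc v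

end

end Pool.Agent.H91.Mono
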