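import Pool.Agent.H91.Mono.Gal2
import Pool.Agent.H91.Mono.Sym4

/-! Base change from a subfield. -/

set_option linter.unusedSectionVars false

namespace Pool.Agent.H91.Mono

open TensorProduct

section BC

variable {E : Type*} [Field E] (K : Type*) [Field K] [Algebra E K] {V : Type*} [AddCommGroup V]
  [Module E V]

/-- base change of automorphisms -/
noncomputable def bcE : (V ≃ₗ[E] V) →* (K ⊗[E] V ≃ₗ[K] K ⊗[E] V) where
  toFun γ := LinearEquiv.baseChange E K V V γ
  map_one' := by
    ext x
    induction x using TensorProduct.induction_on with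
    | zero => simp
    | tmul a v => rfl
    | add x y hx hy => rw [map_add, hx, hy]; rfl
  map_mul' γ δ := by
    ext x
    induction x using TensorProduct.induction_on with
    | zero => simp
    | tmul a v => rfl
    | add x y hx hy => rw [map_add, hx, hy, ← map_add]

lemma bcE_tmul (γ : V ≃ₗ[E] V) (a : K) (v : V) : bcE K γ (a ⊗ₜ[E] v) = a ⊗ₜ[E] γ v := rfl

lemma bcE_coe (γ : V ≃ₗ[E] V) :
    ((bcE K γ : K ⊗[E] V ≃ₗ[K] K ⊗[E] V) : K ⊗[E] V →ₗ[K] K ⊗[E] V) =
      (γ : V →ₗ[E] V).baseChange K := rfl

lemma semiSym_bc (σ : K ≃ₐ[E] K) (Γ : Subgroup (V ≃ₗ[E] V)) :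
    SemiSym (Γ.map (bcE K)) (σ : K ≃+* K) := by
  let T : K ⊗[E] V ≃ₗ[E] K ⊗[E] V := TensorProduct.congr σ.toLinearEquiv (LinearEquiv.refl E V)
  have hT : ∀ (a : K) (v : V), T (a ⊗ₜ[E] v) = σ a ⊗ₜ[E] v := fun a v => rfl
  refine ⟨T.toAddEquiv, ?_, ?_⟩
  · intro c x
    show T (c • x) = σ c • T x
    induction x using TensorProduct.induction_on with
    | zero => simp
    | tmul a v =>
      rw [TensorProduct.smul_tmul', hT, hT, TensorProduct.smul_tmul', smul_eq_mul, smul_eq_mul,
        map_mul]
    | add x y hx hy => rw [smul_add, map_add, map_add, smul_add, hx, hy]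
  · rintro _ ⟨γ, hγ, rfl⟩ x
    show T (bcE K γ x) = bcE K γ (T x)
    induction x using TensorProduct.induction_on with
    | zero => simp
    | tmul a v => rw [bcE_tmul, hT, hT, bcE_tmul]
    | add x y hx hy => rw [map_add, map_add, map_add, map_add, hx, hy]

/-- the base change of a form -/
noncomputable def fK (ψ : V →ₗ[E] V →ₗ[E] E) : K ⊗[E] V →ₗ[K] K ⊗[E] V →ₗ[K] K :=
  LinearMap.BilinForm.baseChange K ψ

lemma fK_tmul (ψ : V →ₗ[E] V →ₗ[E] E) (a a' : K) (v v' : V) :
    fK K ψ (a ⊗ₜ[E] v) (a' ⊗ₜ[E] v') = algebraMap E K (ψ v v') * (a * a') := by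
  have h := LinearMap.BilinForm.baseChange_tmul (A := K) ψ a v a' v'
  rw [Algebra.smul_def] at h
  exact h

variable {K} {ψ : V →ₗ[E] V →ₗ[E] E}

lemma fK_sim (γ : V ≃ₗ[E] V) (μ : E) (h : ∀ u v, ψ (γ u) (γ v) = μ * ψ u v)
    (x y : K ⊗[E] V) : fK K ψ (bcE K γ x) (bcE K γ y) = algebraMap E K μ * fK K ψ x y := by
  induction x using TensorProduct.induction_on with
  | zero => simp
  | add x x' hx hx' =>
    rw [map_add, map_add, LinearMap.add_apply, hx, hx', map_add, LinearMap.add_apply, mul_add]
  | tmul a u =>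
    induction y using TensorProduct.induction_on with
    | zero => simp
    | add y y' hy hy' => rw [map_add, map_add, hy, hy', map_add, mul_add]
    | tmul a' v =>
      rw [bcE_tmul, bcE_tmul, fK_tmul, fK_tmul, h, map_mul]
      ring

lemma fK_swap (h : ∀ u v, ψ v u = - ψ u v) (x y : K ⊗[E] V) : fK K ψ y x = - fK K ψ x y := by
  induction x using TensorProduct.induction_on with
  | zero => simp
  | add x x' hx hx' =>
    rw [map_add, map_add, LinearMap.add_apply, hx, hx', neg_add]
  | tmul a u =>
    induction y using TensorProduct.induction_on with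
    | zero => simp
    | add y y' hy hy' =>
      rw [map_add, map_add, LinearMap.add_apply, hy, hy', neg_add]
    | tmul a' v =>
      rw [fK_tmul, fK_tmul, h u v, map_neg]
      ring

lemma fK_alt [CharZero E] [CharZero K] (h : ∀ v, ψ v v = 0) (x : K ⊗[E] V) : fK K ψ x x = 0 := by
  have h1 := fK_swap (K := K) (ψ := ψ) (fun u v => psi_swap h u v) x x
  have h2 : (2 : K) * fK K ψ x x = 0 := by linear_combination h1
  rcases mul_eq_zero.1 h2 with h3 | h3
  · exact absurd h3 two_ne_zero
  · exact h3

lemma fK_nondeg [FiniteDimensional E V] (h : ∀ u v, ψ v u = - ψ u v)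
    (hnd : ∀ v, (∀ w, ψ v w = 0) → v = 0) (x : K ⊗[E] V) (hx : ∀ y, fK K ψ x y = 0) :
    x = 0 := by
  let e := Module.finBasis E V
  have hinj : Function.Injective ψ := by
    rw [injective_iff_map_eq_zero]
    intro v hv
    apply hnd
    intro w
    rw [hv]
    rfl
  have hsurj : Function.Surjective ψ :=
    (LinearMap.injective_iff_surjective_of_finrank_eq_finrank
      (by rw [Subspace.dual_finrank_eq])).1 hinj
  have hcoord : ∀ j, ∃ w : V, ∀ u, ψ w u = e.coord j u := by
    intro j
    obtain ⟨w, hw⟩ := hsurj (e.coord j)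
    exact ⟨w, fun u => by rw [hw]⟩
  choose w hw using hcoord
  let eK := Algebra.TensorProduct.basis K e
  have key : ∀ j (y : K ⊗[E] V), fK K ψ (1 ⊗ₜ[E] w j) y = eK.repr y j := by
    intro j y
    induction y using TensorProduct.induction_on with
    | zero => simp
    | add y y' hy hy' => rw [map_add, map_add, hy, hy', Finsupp.add_apply]
    | tmul a u =>
      rw [fK_tmul, hw, Algebra.TensorProduct.basis_repr_tmul]
      simp [mul_comm]
  apply eK.repr.injective
  ext j
  rw [← key, map_zero, Finsupp.zero_apply, fK_swap h, hx, neg_zero]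

end BC

/-! ### Descent of the Zariski closure -/

section Desc

variable {E : Type*} [Field E] (K : Type*) [Field K] [Algebra E K] {V : Type*} [AddCommGroup V]
  [Module E V] [FiniteDimensional E V]

/-- base change of functionals -/
noncomputable def phK (φ : Module.Dual E (Module.End E V)) :
    Module.Dual K (Module.End K (K ⊗[E] V)) :=
  ∑ i, ∑ j, algebraMap E K (φ (Matrix.toLin (Module.finBasis E V) (Module.finBasis E V)
      (Matrix.single i j 1))) •
    coefF ((Algebra.TensorProduct.basis K (Module.finBasis E V)).coord i)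
      (Algebra.TensorProduct.basis K (Module.finBasis E V) j)

lemma phK_apply (φ : Module.Dual E (Module.End E V)) (x : Module.End E V) :
    phK K φ (x.baseChange K) = algebraMap E K (φ x) := by
  classical
  set e := Module.finBasis E V with he
  have h1 : x = ∑ i, ∑ j, (LinearMap.toMatrix e e x i j) •
      Matrix.toLin e e (Matrix.single i j 1) := by
    conv_lhs => rw [← Matrix.toLin_toMatrix e e x, Matrix.matrix_eq_sum_single
      (LinearMap.toMatrix e e x)]
    rw [map_sum]
    apply Finset.sum_congr rfl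
    intro i _
    rw [map_sum]
    apply Finset.sum_congr rfl
    intro j _
    rw [← map_smul, Matrix.smul_single, smul_eq_mul, mul_one]
  have h2 : ∀ i j, coefF ((Algebra.TensorProduct.basis K e).coord i)
      (Algebra.TensorProduct.basis K e j) (x.baseChange K) =
      algebraMap E K (LinearMap.toMatrix e e x i j) := by
    intro i j
    rw [coefF_apply, Algebra.TensorProduct.basis_apply, LinearMap.baseChange_tmul,
      Module.Basis.coord_apply, Algebra.TensorProduct.basis_repr_tmul, LinearMap.toMatrix_apply]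
    simp
  conv_rhs => rw [h1]
  rw [phK, LinearMap.sum_apply, map_sum, map_sum]
  apply Finset.sum_congr rfl
  intro i _
  rw [LinearMap.sum_apply, map_sum, map_sum]
  apply Finset.sum_congr rfl
  intro j _
  rw [LinearMap.smul_apply, h2, map_smul, smul_eq_mul, smul_eq_mul, map_mul, mul_comm]

/-- base change of polynomials -/
noncomputable def plK : MvPolynomial (Module.Dual E (Module.End E V)) E →+*
    MvPolynomial (Module.Dual K (Module.End K (K ⊗[E] V))) K :=
  MvPolynomial.eval₂Hom (MvPolynomial.C.comp (algebraMap E K)) (fun φ => MvPolynomial.X (phK K φ))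

lemma ev_plK (x : Module.End E V) (f) :
    ev (x.baseChange K) (plK K f) = algebraMap E K (ev x f) := by
  induction f using MvPolynomial.induction_on with
  | C c => simp [plK, ev]
  | add p q hp hq => simp only [map_add, hp, hq]
  | mul_X p φ hp =>
    rw [map_mul, map_mul, map_mul, map_mul, hp, ev_X]
    congr 1
    have : plK K (MvPolynomial.X φ) = MvPolynomial.X (phK K φ) := by simp [plK]
    rw [this, ev_X, phK_apply]

lemma inCl_descend (Γ : Subgroup (V ≃ₗ[E] V)) (g : V ≃ₗ[E] V)
    (h : InCl (Γ.map (bcE K)) ((bcE K g : K ⊗[E] V ≃ₗ[K] K ⊗[E] V) :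
      Module.End K (K ⊗[E] V))) : InCl Γ (g : Module.End E V) := by
  intro f hf
  have h1 := h (plK K f) (by
    rintro _ ⟨γ, hγ, rfl⟩
    rw [bcE_coe, ev_plK, hf γ hγ, map_zero])
  rw [bcE_coe, ev_plK] at h1
  exact (map_eq_zero_iff (algebraMap E K) (algebraMap E K).injective).1 h1

end Desc

/-! ### Nondegenerate eigenvalues -/

section Nd

open Polynomial

variable {K : Type*} [Field K] [CharZero K] [IsAlgClosed K] {V : Type*} [AddCommGroup V]
  [Module K V] [FiniteDimensional K V]

lemma nondeg_of (G : V ≃ₗ[K] V) (α : K)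
    (h1 : rootMultiplicity α (LinearMap.charpoly (G : V →ₗ[K] V)) = 1)
    (h2 : ∀ β : K, (LinearMap.charpoly (G : V →ₗ[K] V)).IsRoot β → ∀ N : ℕ, 0 < N →
      β ^ N = α ^ N → β = α) : ∃ v, Nondeg G α v := by
  let g : Module.End K V := (G : V →ₗ[K] V)
  have hne : (LinearMap.charpoly (G : V →ₗ[K] V)) ≠ 0 := (LinearMap.charpoly_monic _).ne_zero
  have hroot : (LinearMap.charpoly (G : V →ₗ[K] V)).IsRoot α := by
    rw [← rootMultiplicity_pos hne, h1]
    exact one_pos
  have heig : g.HasEigenvalue α := (Module.End.hasEigenvalue_iff_isRoot_charpoly g α).2 hroot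
  obtain ⟨v, hv⟩ := heig.exists_hasEigenvector
  have hv0 : v ≠ 0 := hv.2
  have hGv : G v = α • v := hv.apply_eq_smul
  have hα0 : α ≠ 0 := by
    rintro rfl
    rw [zero_smul] at hGv
    exact hv0 ((map_eq_zero_iff G G.injective).1 hGv)
  have hfin : Module.finrank K (g.maxGenEigenspace α) = 1 := by
    rw [LinearMap.finrank_maxGenEigenspace_eq]
    exact h1
  have hone : ∀ w, G w = α • w → ∃ c : K, w = c • v := by
    intro w hw
    have hle : g.eigenspace α ≤ g.maxGenEigenspace α := by
      have := Module.End.genEigenspace_le_maximal g α 1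
      simpa using this
    have hvm : v ∈ g.maxGenEigenspace α := hle hv.1
    have hwm : w ∈ g.maxGenEigenspace α := hle (Module.End.mem_eigenspace_iff.2 hw)
    let v' : g.maxGenEigenspace α := ⟨v, hvm⟩
    have hv' : v' ≠ 0 := fun h => hv0 (congrArg Subtype.val h)
    obtain ⟨c, hc⟩ := (finrank_eq_one_iff_of_nonzero' v' hv').1 hfin ⟨w, hwm⟩
    exact ⟨c, (congrArg Subtype.val hc).symm⟩
  refine ⟨v, hv0, hGv, ?_⟩
  intro N hN w hw
  apply hone
  -- factor `X ^ N - α ^ N`
  obtain ⟨Q, hQ⟩ : (X - C α) ∣ (X ^ N - C (α ^ N) : K[X]) := by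
    rw [dvd_iff_isRoot]
    simp
  have hsep : (X ^ N - C (α ^ N) : K[X]).Separable :=
    separable_X_pow_sub_C _ (by exact_mod_cast hN.ne') (pow_ne_zero _ hα0)
  have hQα : ¬ Q.IsRoot α := by
    intro hr
    rw [hQ] at hsep
    have h3 := hsep.isCoprime
    have h4 : IsCoprime ((X - C α) : K[X]) Q := h3
    obtain ⟨a, c, hac⟩ := h4
    have h5 := congrArg (eval α) hac
    rw [IsRoot.def] at hr
    simp [hr] at h5
  have hcop : IsCoprime Q (LinearMap.charpoly (G : V →ₗ[K] V)) := by
    rw [Polynomial.isCoprime_iff_aeval_ne_zero_of_isAlgClosed K K]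
    intro β
    by_contra hcon
    push Not at hcon
    obtain ⟨h3, h4⟩ := hcon
    rw [coe_aeval_eq_eval] at h3 h4
    have h5 : eval β (X ^ N - C (α ^ N) : K[X]) = 0 := by
      rw [hQ, eval_mul, h3, mul_zero]
    rw [eval_sub, eval_pow, eval_X, eval_C, sub_eq_zero] at h5
    have h6 := h2 β h4 N hN h5
    rw [h6] at h3
    exact hQα h3
  obtain ⟨a, c, hac⟩ := hcop
  have hpow : ∀ (k : ℕ) (u : V), (g ^ k) u = (G ^ k) u := by
    intro k
    induction k with
    | zero => intro u; rfl
    | succ k ih => intro u; rw [pow_succ', pow_succ', Module.End.mul_apply, ih]; rfl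
  have h7 : aeval g Q (aeval g (X - C α) w) = 0 := by
    rw [← Module.End.mul_apply, ← map_mul, mul_comm, ← hQ, map_sub, map_pow, aeval_X, aeval_C,
      LinearMap.sub_apply, hpow, hw, Module.algebraMap_end_apply, sub_self]
  have h8 : aeval g (LinearMap.charpoly (G : V →ₗ[K] V)) = 0 := LinearMap.aeval_self_charpoly g
  have h9 : aeval g (X - C α) w = 0 := by
    have h10 := congrArg (fun q => aeval g q (aeval g (X - C α) w)) hac
    simp only [map_add, map_mul, LinearMap.add_apply, Module.End.mul_apply, h7, h8, map_zero,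
      LinearMap.zero_apply, add_zero, map_one, Module.End.one_apply] at h10
    exact h10.symm
  rw [map_sub, aeval_X, aeval_C, LinearMap.sub_apply, Module.algebraMap_end_apply,
    sub_eq_zero] at h9
  exact h9

end Nd

end Pool.Agent.H91.Mono
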