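import Pool.Agent.H91.Mono.Root

/-! Generation of block symplectic groups by root elements and torus elements. -/

set_option linter.unusedSectionVars false

namespace Pool.Agent.H91.Mono

open Matrix
open scoped Classical

variable {K : Type*} [Field K] [CharZero K] {ι : Type*} [Fintype ι] [DecidableEq ι]

/-- data: involution, form, equivalence relation -/
structure Frame (bar : ι → ι) (c : ι → K) (E : ι → ι → Prop) : Prop where
  inv : ∀ i, bar (bar i) = i
  nofix : ∀ i, bar i ≠ i
  c0 : ∀ i, c i ≠ 0
  cneg : ∀ i, c (bar i) = - c i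
  refl : ∀ i, E i i
  symm : ∀ i j, E i j → E j i
  trans : ∀ i j k, E i j → E j k → E i k
  dual : ∀ i j, E i j → E (bar i) (bar j)

variable {bar : ι → ι} {c : ι → K} {E : ι → ι → Prop}

/-- the alternating form -/
noncomputable def bil (bar : ι → ι) (c : ι → K) (u v : ι → K) : K := ∑ k, c k * u k * v (bar k)

lemma bar_inj (h : Frame bar c E) {a b : ι} (hab : bar a = bar b) : a = b := by
  rw [← h.inv a, ← h.inv b, hab]

lemma bil_single_right (h : Frame bar c E) (u : ι → K) (j : ι) (t : K) :
    bil bar c u (Pi.single j t) = c (bar j) * u (bar j) * t := by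
  rw [bil, Finset.sum_eq_single (bar j)]
  · rw [h.inv]; simp
  · intro k _ hk
    have : bar k ≠ j := fun h5 => hk (by rw [← h5, h.inv])
    simp [Pi.single_apply, this]
  · simp

lemma bil_single_left (u : ι → K) (j : ι) (t : K) :
    bil bar c (Pi.single j t) u = c j * t * u (bar j) := by
  rw [bil, Finset.sum_eq_single j]
  · simp
  · intro k _ hk
    simp [Pi.single_apply, hk]
  · simp

/-- the matrix preserves the form -/
def Pres (bar : ι → ι) (c : ι → K) (g : Matrix ι ι K) : Prop :=
  ∀ u v, bil bar c (g.mulVec u) (g.mulVec v) = bil bar c u v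

lemma Pres.mul {g h : Matrix ι ι K} (hg : Pres bar c g) (hh : Pres bar c h) :
    Pres bar c (g * h) := by
  intro u v
  rw [← Matrix.mulVec_mulVec, ← Matrix.mulVec_mulVec, hg, hh]

/-- generators fixing the basis vectors in `A` -/
inductive IsGen (bar : ι → ι) (c : ι → K) (E : ι → ι → Prop) (A : Finset ι) :
    Matrix ι ι K → Prop
  | unip (i j : ι) (s : K) (hij : i ≠ j) (hE : E i j) (hi : i ∉ A) (hj : j ∉ A) :
      IsGen bar c E A (1 + s • root bar c i j)
  | tor (t : ι → K) (ht : ∀ i, t i * t (bar i) = 1) (hA : ∀ i ∈ A, t i = 1) :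
      IsGen bar c E A (Matrix.diagonal t)

/-- the monoid generated -/
def NN (bar : ι → ι) (c : ι → K) (E : ι → ι → Prop) (A : Finset ι) : Submonoid (Matrix ι ι K) :=
  Submonoid.closure {g | IsGen bar c E A g}

lemma NN_mono {A B : Finset ι} (h : A ⊆ B) : NN bar c E B ≤ NN bar c E A := by
  apply Submonoid.closure_mono
  intro g hg
  cases hg with
  | unip i j s hij hE hi hj =>
    exact IsGen.unip i j s hij hE (fun h1 => hi (h h1)) (fun h1 => hj (h h1))
  | tor t ht hA => exact IsGen.tor t ht (fun i hi => hA i (h hi))

lemma root_sq (h : Frame bar c E) {i j : ι} (hij : i ≠ j) :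
    root bar c i j * root bar c i j = 0 := by
  have hbb : bar i ≠ bar j := fun h1 => hij (bar_inj h h1)
  rw [root, sub_mul, mul_sub, mul_sub, Matrix.single_mul_single_of_ne _ _ _ _ hij.symm,
    Matrix.single_mul_single_of_ne _ _ _ _ (h.nofix j).symm,
    Matrix.single_mul_single_of_ne _ _ _ _ (h.nofix i),
    Matrix.single_mul_single_of_ne _ _ _ _ hbb]
  simp

/-- every element of `NN` has an inverse in `NN` -/
lemma NN_inv (h : Frame bar c E) {A : Finset ι} (hA : ∀ i ∈ A, bar i ∈ A) {g : Matrix ι ι K}
    (hg : g ∈ NN bar c E A) : ∃ g' ∈ NN bar c E A, g' * g = 1 := by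
  induction hg using Submonoid.closure_induction with
  | mem g hg =>
    cases hg with
    | unip i j s hij hE hi hj =>
      refine ⟨1 + (-s) • root bar c i j, Submonoid.subset_closure
        (IsGen.unip i j (-s) hij hE hi hj), ?_⟩
      have h1 := root_sq h hij
      rw [add_mul, mul_add, mul_add, one_mul, one_mul, mul_one, smul_mul_smul_comm, h1]
      simp
    | tor t ht htA =>
      refine ⟨Matrix.diagonal (fun i => t (bar i)), Submonoid.subset_closure
        (IsGen.tor _ ?_ ?_), ?_⟩
      · intro i
        rw [h.inv, mul_comm]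
        exact ht i
      · intro i hi
        exact htA _ (hA i hi)
      · rw [Matrix.diagonal_mul_diagonal, ← Matrix.diagonal_one]
        congr 1
        ext i
        rw [mul_comm]
        exact ht i
  | one => exact ⟨1, Submonoid.one_mem _, by simp⟩
  | mul x y _ _ hx hy =>
    obtain ⟨x', hx', hxx⟩ := hx
    obtain ⟨y', hy', hyy⟩ := hy
    refine ⟨y' * x', Submonoid.mul_mem _ hy' hx', ?_⟩
    rw [mul_assoc, ← mul_assoc x' x y, hxx, one_mul, hyy]

lemma unip_mulVec (i j : ι) (s : K) (v : ι → K) (l : ι) :
    ((1 + s • root bar c i j).mulVec v) l = v l + s * ((if i = l then c j * v j else 0) -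
      (if bar j = l then c i * v (bar i) else 0)) := by
  rw [Matrix.add_mulVec, Matrix.one_mulVec, Matrix.smul_mulVec, Pi.add_apply, Pi.smul_apply,
    smul_eq_mul, root, Matrix.sub_mulVec, Pi.sub_apply]
  congr 2
  have hs : ∀ (a b : ι) (t : K), (Matrix.single a b t).mulVec v l =
      if a = l then t * v b else 0 := by
    intro a b t
    rw [Matrix.mulVec, dotProduct]
    rw [Finset.sum_eq_single b]
    · rw [Matrix.single_apply]
      by_cases hal : a = l
      · simp [hal]
      · simp [hal]
    · intro k _ hk
      rw [Matrix.single_apply, if_neg (fun h5 => hk h5.2.symm), zero_mul]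
    · simp
  rw [hs, hs]

lemma pres_unip (h : Frame bar c E) {i j : ι} (hij : i ≠ j) (s : K) :
    Pres bar c (1 + s • root bar c i j) := by
  intro u v
  have hbb : bar i ≠ bar j := fun h1 => hij (bar_inj h h1)
  have key : ∀ u v, bil bar c ((1 + s • root bar c i j).mulVec u) v =
      bil bar c u v + s * (c i * (c j * u j) * v (bar i) - c (bar j) * (c i * u (bar i)) * v j) := by
    intro u v
    simp only [bil, unip_mulVec]
    have : ∀ k, c k * (u k + s * ((if i = k then c j * u j else 0) -
        if bar j = k then c i * u (bar i) else 0)) * v (bar k) = c k * u k * v (bar k) +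
        ((if i = k then s * (c k * (c j * u j) * v (bar k)) else 0) -
        (if bar j = k then s * (c k * (c i * u (bar i)) * v (bar k)) else 0)) := by
      intro k
      split_ifs <;> ring
    simp only [this, Finset.sum_add_distrib, Finset.sum_sub_distrib, Finset.sum_ite_eq,
      Finset.mem_univ, if_true, h.inv]
    ring
  have key2 : ∀ u v, bil bar c u ((1 + s • root bar c i j).mulVec v) =
      bil bar c u v + s * (c (bar i) * u (bar i) * (c j * v j) - c j * u j * (c i * v (bar i))) := by
    intro u v
    simp only [bil, unip_mulVec]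
    have : ∀ k, c k * u k * (v (bar k) + s * ((if i = bar k then c j * v j else 0) -
        if bar j = bar k then c i * v (bar i) else 0)) = c k * u k * v (bar k) +
        ((if bar i = k then s * (c k * u k * (c j * v j)) else 0) -
        (if j = k then s * (c k * u k * (c i * v (bar i))) else 0)) := by
      intro k
      have e1 : (i = bar k) ↔ (bar i = k) :=
        ⟨fun h5 => by rw [h5, h.inv], fun h5 => by rw [← h5, h.inv]⟩
      have e2 : (bar j = bar k) ↔ (j = k) := ⟨fun h5 => bar_inj h h5, fun h5 => by rw [h5]⟩
      simp only [e1, e2]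
      split_ifs <;> ring
    simp only [this, Finset.sum_add_distrib, Finset.sum_sub_distrib, Finset.sum_ite_eq,
      Finset.mem_univ, if_true]
    ring
  have hr : ∀ w l, ((1 + s • root bar c i j).mulVec w) l = w l + s * ((if i = l then c j * w j else 0) -
      (if bar j = l then c i * w (bar i) else 0)) := fun w l => unip_mulVec i j s w l
  rw [key, key2, hr, hr]
  have n1 : ¬ (i = bar i) := fun h5 => h.nofix i h5.symm
  have n2 : ¬ (bar j = bar i) := fun h5 => hbb h5.symm
  have n3 : ¬ (bar j = j) := h.nofix j
  rw [if_neg n1, if_neg n2, if_neg hij, if_neg n3, h.cneg, h.cneg]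
  ring

lemma pres_tor (h : Frame bar c E) {t : ι → K} (ht : ∀ i, t i * t (bar i) = 1) :
    Pres bar c (Matrix.diagonal t) := by
  intro u v
  simp only [bil, Matrix.mulVec_diagonal]
  apply Finset.sum_congr rfl
  intro k _
  linear_combination c k * u k * v (bar k) * ht k

/-- support condition -/
def Supp (E : ι → ι → Prop) (g : Matrix ι ι K) : Prop := ∀ i j, g i j ≠ 0 → E i j

lemma supp_mul (h : Frame bar c E) {g g' : Matrix ι ι K} (hg : Supp E g) (hg' : Supp E g') :
    Supp E (g * g') := by
  intro i j hij
  rw [Matrix.mul_apply] at hij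
  obtain ⟨k, _, hk⟩ := Finset.exists_ne_zero_of_sum_ne_zero hij
  exact h.trans i k j (hg i k (left_ne_zero_of_mul hk)) (hg' k j (right_ne_zero_of_mul hk))

/-- properties of elements of `NN` -/
lemma NN_prop (h : Frame bar c E) {A : Finset ι} (hA : ∀ i ∈ A, bar i ∈ A) {g : Matrix ι ι K}
    (hg : g ∈ NN bar c E A) : Pres bar c g ∧ Supp E g ∧
      ∀ a ∈ A, g.mulVec (Pi.single a 1) = Pi.single a 1 := by
  induction hg using Submonoid.closure_induction with
  | mem g hg =>
    cases hg with
    | unip i j s hij hE hi hj =>
      refine ⟨pres_unip h hij s, ?_, ?_⟩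
      · intro k l hkl
        rw [Matrix.add_apply, Matrix.smul_apply, root_apply] at hkl
        by_cases h1 : k = l
        · rw [h1]; exact h.refl l
        rw [Matrix.one_apply_ne h1, zero_add, smul_eq_mul] at hkl
        by_cases h2 : i = k ∧ j = l
        · rw [← h2.1, ← h2.2]; exact hE
        by_cases h3 : bar j = k ∧ bar i = l
        · rw [← h3.1, ← h3.2]; exact h.dual _ _ (h.symm _ _ hE)
        rw [if_neg h2, if_neg h3] at hkl
        simp at hkl
      · intro a ha
        ext l
        rw [unip_mulVec]
        have h1 : j ≠ a := fun h5 => hj (h5 ▸ ha)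
        have h2 : bar i ≠ a := fun h5 => hi (by rw [← h.inv i, h5]; exact hA a ha)
        simp [Pi.single_apply, h1, h2]
    | tor t ht htA =>
      refine ⟨pres_tor h ht, ?_, ?_⟩
      · intro k l hkl
        by_cases h1 : k = l
        · rw [h1]; exact h.refl l
        · exact absurd (Matrix.diagonal_apply_ne _ h1) hkl
      · intro a ha
        ext l
        rw [Matrix.mulVec_diagonal]
        by_cases h1 : l = a
        · subst h1; rw [htA l ha, one_mul]
        · simp [Pi.single_apply, h1]
  | one =>
    refine ⟨fun u v => by rw [Matrix.one_mulVec, Matrix.one_mulVec], ?_,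
      fun a _ => by rw [Matrix.one_mulVec]⟩
    intro k l hkl
    by_cases h1 : k = l
    · rw [h1]; exact h.refl l
    · exact absurd (Matrix.one_apply_ne h1) hkl
  | mul x y _ _ hx hy =>
    refine ⟨hx.1.mul hy.1, supp_mul h hx.2.1 hy.2.1, fun a ha => ?_⟩
    rw [← Matrix.mulVec_mulVec, hy.2.2 a ha, hx.2.2 a ha]

/-- clearing a vector -/
lemma clear_aux (h : Frame bar c E) {A : Finset ι} (hA : ∀ i ∈ A, bar i ∈ A) {a : ι}
    (ha : a ∉ A) (n : ℕ) : ∀ v : ι → K, (∀ k, v k ≠ 0 → E k a ∧ k ∉ A) → v a ≠ 0 →
      (Finset.univ.filter (fun k => k ≠ a ∧ k ≠ bar a ∧ v k ≠ 0)).card ≤ n →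
      ∃ g ∈ NN bar c E A, g.mulVec v = Pi.single a (v a) ∧
        g.mulVec (Pi.single (bar a) 1) = Pi.single (bar a) 1 := by
  have hba : bar a ≠ a := h.nofix a
  induction n with
  | zero =>
    intro v hv hva hcard
    have h0 : ∀ k, k ≠ a → k ≠ bar a → v k = 0 := by
      intro k h1 h2
      by_contra h3
      have : k ∈ Finset.univ.filter (fun k => k ≠ a ∧ k ≠ bar a ∧ v k ≠ 0) := by
        simp [h1, h2, h3]
      rw [Finset.card_eq_zero.1 (Nat.le_zero.1 hcard)] at this
      simp at this
    by_cases hvb : v (bar a) = 0
    · refine ⟨1, Submonoid.one_mem _, ?_, by rw [Matrix.one_mulVec]⟩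
      rw [Matrix.one_mulVec]
      ext k
      by_cases h1 : k = a
      · subst h1; simp
      · by_cases h2 : k = bar a
        · rw [h2, hvb]; simp [Pi.single_apply, hba]
        · rw [h0 k h1 h2]; simp [Pi.single_apply, h1]
    · have hE := hv _ hvb
      refine ⟨1 + (-(v (bar a)) / (2 * c a * v a)) • root bar c (bar a) a,
        Submonoid.subset_closure (IsGen.unip _ _ _ hba hE.1 hE.2 ha), ?_, ?_⟩
      · ext k
        rw [unip_mulVec, h.inv, h.cneg]
        have hca := h.c0 a
        by_cases h1 : bar a = k
        · subst h1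
          simp only [if_true, Pi.single_apply, if_neg hba]
          field_simp
          ring
        · simp only [h1, if_false, sub_zero, mul_zero, add_zero]
          by_cases h2 : k = a
          · subst h2; simp
          · rw [h0 k h2 (fun h5 => h1 h5.symm)]
            simp [Pi.single_apply, h2]
      · ext k
        rw [unip_mulVec, h.inv]
        simp [Pi.single_apply, hba.symm]
  | succ n ih =>
    intro v hv hva hcard
    by_cases hex : ∃ k, k ≠ a ∧ k ≠ bar a ∧ v k ≠ 0
    · obtain ⟨k, hka, hkb, hvk⟩ := hex
      have hE := hv _ hvk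
      have hca := h.c0 a
      have hak : bar a ≠ k := fun h5 => hkb h5.symm
      let g : Matrix ι ι K := 1 + (-(v k) / (c a * v a)) • root bar c k a
      have hg : g ∈ NN bar c E A :=
        Submonoid.subset_closure (IsGen.unip _ _ _ hka hE.1 hE.2 ha)
      have hgv : ∀ l, g.mulVec v l = v l + (-(v k) / (c a * v a)) *
          ((if k = l then c a * v a else 0) - (if bar a = l then c k * v (bar k) else 0)) :=
        fun l => unip_mulVec k a _ v l
      have hgk : g.mulVec v k = 0 := by
        rw [hgv, if_pos rfl, if_neg hak]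
        field_simp
        ring
      have hga : g.mulVec v a = v a := by
        rw [hgv, if_neg hka, if_neg hba]
        ring
      have hgo : ∀ l, l ≠ k → l ≠ bar a → g.mulVec v l = v l := by
        intro l h1 h2
        rw [hgv, if_neg (fun h5 => h1 h5.symm), if_neg (fun h5 => h2 h5.symm)]
        ring
      have hp := NN_prop h hA hg
      have hv' : ∀ l, g.mulVec v l ≠ 0 → E l a ∧ l ∉ A := by
        intro l hl
        by_cases h1 : l = k
        · rw [h1, hgk] at hl; exact absurd rfl hl
        by_cases h2 : l = bar a
        · subst h2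
          have h3 : v (bar a) ≠ 0 ∨ v (bar k) ≠ 0 := by
            by_contra hcon
            push Not at hcon
            apply hl
            rw [hgv, hcon.1, hcon.2, if_neg (fun h5 => hkb h5)]
            simp
          have hnA : bar a ∉ A := fun h5 => ha (by rw [← h.inv a]; exact hA _ h5)
          refine ⟨?_, hnA⟩
          rcases h3 with h3 | h3
          · exact (hv _ h3).1
          · have h4 := (hv _ h3).1
            have h5 := h.dual _ _ h4
            rw [h.inv] at h5
            exact h.trans _ _ _ (h.symm _ _ h5) hE.1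
        · rw [hgo l h1 h2] at hl
          exact hv l hl
      have hcard' : (Finset.univ.filter
          (fun l => l ≠ a ∧ l ≠ bar a ∧ g.mulVec v l ≠ 0)).card ≤ n := by
        have hsub : Finset.univ.filter (fun l => l ≠ a ∧ l ≠ bar a ∧ g.mulVec v l ≠ 0) ⊆
            (Finset.univ.filter (fun l => l ≠ a ∧ l ≠ bar a ∧ v l ≠ 0)).erase k := by
          intro l hl
          simp only [Finset.mem_filter, Finset.mem_univ, true_and, Finset.mem_erase] at hl ⊢
          have h1 : l ≠ k := by
            rintro rfl
            exact hl.2.2 hgk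
          refine ⟨h1, hl.1, hl.2.1, ?_⟩
          rw [← hgo l h1 hl.2.1]
          exact hl.2.2
        have h1 := Finset.card_le_card hsub
        have hmem : k ∈ Finset.univ.filter (fun l => l ≠ a ∧ l ≠ bar a ∧ v l ≠ 0) := by
          simp [hka, hkb, hvk]
        rw [Finset.card_erase_of_mem hmem] at h1
        omega
      obtain ⟨g', hg', h1, h2⟩ := ih (g.mulVec v) hv' (by rw [hga]; exact hva) hcard'
      refine ⟨g' * g, Submonoid.mul_mem _ hg' hg, ?_, ?_⟩
      · rw [← Matrix.mulVec_mulVec, h1, hga]
      · rw [← Matrix.mulVec_mulVec]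
        have h3 : g.mulVec (Pi.single (bar a) 1) = Pi.single (bar a) 1 := by
          ext l
          have h4 : ((1 + (-(v k) / (c a * v a)) • root bar c k a).mulVec
            (Pi.single (bar a) (1 : K))) l = _ := unip_mulVec k a _ _ l
          show ((1 + (-(v k) / (c a * v a)) • root bar c k a).mulVec
            (Pi.single (bar a) (1 : K))) l = _
          rw [h4]
          have h5 : ¬ (bar k = bar a) := fun h6 => hka (bar_inj h h6)
          simp [Pi.single_apply, hba.symm, h5]
        rw [h3, h2]
    · apply ih v hv hva
      push Not at hex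
      rw [Finset.card_eq_zero.2]
      · exact Nat.zero_le _
      · ext k
        simp only [Finset.mem_filter, Finset.mem_univ, true_and, Finset.notMem_empty, iff_false]
        intro h5
        exact h5.2.2 (hex k h5.1 h5.2.1)

lemma clear (h : Frame bar c E) {A : Finset ι} (hA : ∀ i ∈ A, bar i ∈ A) {a : ι}
    (ha : a ∉ A) (v : ι → K) (hv : ∀ k, v k ≠ 0 → E k a ∧ k ∉ A) (hva : v a ≠ 0) :
      ∃ g ∈ NN bar c E A, g.mulVec v = Pi.single a (v a) ∧
        g.mulVec (Pi.single (bar a) 1) = Pi.single (bar a) 1 :=
  clear_aux h hA ha _ v hv hva le_rfl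

/-- **Generation.** -/
theorem gen_aux (h : Frame bar c E) (n : ℕ) : ∀ (A : Finset ι), (∀ i ∈ A, bar i ∈ A) →
    (Finset.univ \ A).card ≤ n → ∀ g : Matrix ι ι K, Pres bar c g → Supp E g →
    (∀ a ∈ A, g.mulVec (Pi.single a 1) = Pi.single a 1) → g ∈ NN bar c E A := by
  induction n with
  | zero =>
    intro A hA hcard g hg hs hfix
    have hall : ∀ a, a ∈ A := by
      intro a
      by_contra h1
      have : a ∈ Finset.univ \ A := by simp [h1]
      rw [Finset.card_eq_zero.1 (Nat.le_zero.1 hcard)] at this
      simp at this
    have : g = 1 := by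
      ext k l
      have h1 := congrFun (hfix l (hall l)) k
      rw [Matrix.mulVec_single_one] at h1
      rw [Matrix.col_apply] at h1
      rw [h1, Matrix.one_apply, Pi.single_apply]
    rw [this]
    exact Submonoid.one_mem _
  | succ n ih =>
    intro A hA hcard g hg hs hfix
    by_cases hall : ∀ a, a ∈ A
    · apply ih A hA _ g hg hs hfix
      rw [Finset.card_eq_zero.2]
      · exact Nat.zero_le _
      · ext a; simp [hall a]
    · push Not at hall
      obtain ⟨a, ha⟩ := hall
      have hba := h.nofix a
      have hbaA : bar a ∉ A := fun h5 => ha (by rw [← h.inv a]; exact hA _ h5)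
      -- the column of a
      have colv : ∀ (g : Matrix ι ι K) (a k : ι), g.mulVec (Pi.single a 1) k = g k a := by
        intro g a k
        rw [Matrix.mulVec_single_one, Matrix.col_apply]
      have cond : ∀ g : Matrix ι ι K, Pres bar c g → Supp E g →
          (∀ a ∈ A, g.mulVec (Pi.single a 1) = Pi.single a 1) → ∀ b, b ∉ A → ∀ k,
          g.mulVec (Pi.single b 1) k ≠ 0 → E k b ∧ k ∉ A := by
        intro g hg hs hfix b hb k hk
        refine ⟨hs k b (by rwa [colv] at hk), ?_⟩
        intro hkA
        apply hk
        have h1 := hg (Pi.single b 1) (Pi.single (bar k) 1)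
        rw [hfix (bar k) (hA k hkA), bil_single_right h, bil_single_right h, h.inv] at h1
        have h2 : (Pi.single b 1 : ι → K) k = 0 := by
          have : k ≠ b := fun h5 => hb (h5 ▸ hkA)
          simp [Pi.single_apply, this]
        rw [h2, mul_one, mul_zero, mul_one] at h1
        rcases mul_eq_zero.1 h1 with h3 | h3
        · exact absurd h3 (h.c0 k)
        · exact h3
      -- step 0 : make the (a,a) entry nonzero
      obtain ⟨g0, hg0, hg0a⟩ : ∃ g0 ∈ NN bar c E A, (g0 * g).mulVec (Pi.single a 1) a ≠ 0 := by
        by_cases h1 : g.mulVec (Pi.single a 1) a = 0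
        · obtain ⟨k, hk⟩ : ∃ k, g.mulVec (Pi.single a 1) k ≠ 0 := by
            by_contra hcon
            push Not at hcon
            have h2 := hg (Pi.single a 1) (Pi.single (bar a) 1)
            have h3 : g.mulVec (Pi.single a 1) = 0 := by ext k; exact hcon k
            rw [h3, bil_single_right h] at h2
            simp only [bil, Pi.zero_apply, mul_zero, zero_mul, Finset.sum_const_zero, h.inv,
              Pi.single_eq_same, mul_one] at h2
            exact h.c0 a h2.symm
          have hka : k ≠ a := by
            rintro rfl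
            exact hk h1
          obtain ⟨hE, hkA⟩ := cond g hg hs hfix a ha k hk
          refine ⟨1 + (1 : K) • root bar c a k, Submonoid.subset_closure
            (IsGen.unip _ _ _ hka.symm (h.symm _ _ hE) ha hkA), ?_⟩
          rw [← Matrix.mulVec_mulVec, unip_mulVec, h1, if_pos rfl, zero_add, one_mul]
          have hck := h.c0 k
          by_cases h2 : bar k = a
          · have h3 : bar a = k := by rw [← h2, h.inv]
            rw [if_pos h2, h3]
            have h4 : c a = - c k := by rw [← h2, h.cneg]
            rw [h4]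
            intro h5
            have h6 : 2 * (c k * g.mulVec (Pi.single a 1) k) = 0 := by linear_combination h5
            rcases mul_eq_zero.1 h6 with h7 | h7
            · exact two_ne_zero h7
            · exact mul_ne_zero hck hk h7
          · rw [if_neg h2, sub_zero]
            exact mul_ne_zero hck hk
        · refine ⟨1, Submonoid.one_mem _, ?_⟩
          rwa [one_mul]
      obtain ⟨p01, p02, p03⟩ := NN_prop h hA hg0
      let g1 := g0 * g
      have hg1 : Pres bar c g1 := p01.mul hg
      have hs1 : Supp E g1 := supp_mul h p02 hs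
      have hf1 : ∀ b ∈ A, g1.mulVec (Pi.single b 1) = Pi.single b 1 := by
        intro b hb
        rw [← Matrix.mulVec_mulVec, hfix b hb, p03 b hb]
      -- step 1
      obtain ⟨g2', hg2', h21, h22⟩ := clear h hA ha (g1.mulVec (Pi.single a 1))
        (cond g1 hg1 hs1 hf1 a ha) hg0a
      obtain ⟨q1, q2, q3⟩ := NN_prop h hA hg2'
      let g2 := g2' * g1
      have hg2 : Pres bar c g2 := q1.mul hg1
      have hs2 : Supp E g2 := supp_mul h q2 hs1
      have hf2 : ∀ b ∈ A, g2.mulVec (Pi.single b 1) = Pi.single b 1 := by
        intro b hb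
        rw [← Matrix.mulVec_mulVec, hf1 b hb, q3 b hb]
      let α := g1.mulVec (Pi.single a 1) a
      have h2a : g2.mulVec (Pi.single a 1) = Pi.single a α := by
        rw [← Matrix.mulVec_mulVec, h21]
      -- step 2
      have hβ : c a * α * g2.mulVec (Pi.single (bar a) 1) (bar a) = c a := by
        have h5 := hg2 (Pi.single a 1) (Pi.single (bar a) 1)
        rw [h2a, bil_single_left, bil_single_left] at h5
        rw [h5]
        simp
      have hb0 : g2.mulVec (Pi.single (bar a) 1) (bar a) ≠ 0 := by
        intro h5
        rw [h5, mul_zero] at hβ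
        exact h.c0 a hβ.symm
      obtain ⟨g3', hg3', h31, h32⟩ := clear h hA hbaA (g2.mulVec (Pi.single (bar a) 1))
        (cond g2 hg2 hs2 hf2 (bar a) hbaA) hb0
      rw [h.inv] at h32
      obtain ⟨r1, r2, r3⟩ := NN_prop h hA hg3'
      let g3 := g3' * g2
      have hg3 : Pres bar c g3 := r1.mul hg2
      have hs3 : Supp E g3 := supp_mul h r2 hs2
      have hf3 : ∀ b ∈ A, g3.mulVec (Pi.single b 1) = Pi.single b 1 := by
        intro b hb
        rw [← Matrix.mulVec_mulVec, hf2 b hb, r3 b hb]
      let β := g2.mulVec (Pi.single (bar a) 1) (bar a)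
      have hαβ : α * β = 1 := by
        have := h.c0 a
        apply mul_left_cancel₀ this
        rw [mul_one, ← mul_assoc]
        exact hβ
      have h3b : g3.mulVec (Pi.single (bar a) 1) = Pi.single (bar a) β := by
        rw [← Matrix.mulVec_mulVec, h31]
      have h3a : g3.mulVec (Pi.single a 1) = Pi.single a α := by
        rw [← Matrix.mulVec_mulVec, h2a]
        have h5 : (Pi.single a α : ι → K) = α • Pi.single a 1 := by
          ext k; simp [Pi.single_apply]
        rw [h5, Matrix.mulVec_smul, h32]
      -- step 3 : torus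
      let t : ι → K := fun k => if k = a then β else if k = bar a then α else 1
      have hta : t a = β := by simp [t]
      have htb : t (bar a) = α := by simp [t, hba]
      have hto : ∀ k, k ≠ a → k ≠ bar a → t k = 1 := by intro k h1 h2; simp [t, h1, h2]
      have htt : ∀ i, t i * t (bar i) = 1 := by
        intro i
        by_cases h1 : i = a
        · rw [h1, hta, htb, mul_comm]; exact hαβ
        by_cases h2 : i = bar a
        · rw [h2, h.inv, hta, htb]; exact hαβ
        rw [hto i h1 h2, hto (bar i) (fun h5 => h2 (by rw [← h5, h.inv]))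
          (fun h5 => h1 (bar_inj h h5)), mul_one]
      have htA : ∀ i ∈ A, t i = 1 := by
        intro i hi
        exact hto i (fun h5 => ha (h5 ▸ hi)) (fun h5 => hbaA (h5 ▸ hi))
      have hT : Matrix.diagonal t ∈ NN bar c E A :=
        Submonoid.subset_closure (IsGen.tor t htt htA)
      obtain ⟨s1, s2, s3⟩ := NN_prop h hA hT
      let g4 := Matrix.diagonal t * g3
      have hg4 : Pres bar c g4 := s1.mul hg3
      have hs4 : Supp E g4 := supp_mul h s2 hs3
      have hf4 : ∀ b ∈ insert a (insert (bar a) A),
          g4.mulVec (Pi.single b 1) = Pi.single b 1 := by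
        intro b hb
        rw [Finset.mem_insert, Finset.mem_insert] at hb
        rcases hb with rfl | rfl | hb
        · rw [← Matrix.mulVec_mulVec, h3a]
          ext k
          rw [Matrix.mulVec_diagonal]
          by_cases h1 : k = b
          · subst h1; rw [hta, Pi.single_eq_same, Pi.single_eq_same, mul_comm]; exact hαβ
          · simp [Pi.single_apply, h1]
        · rw [← Matrix.mulVec_mulVec, h3b]
          ext k
          rw [Matrix.mulVec_diagonal]
          by_cases h1 : k = bar a
          · subst h1; rw [htb, Pi.single_eq_same, Pi.single_eq_same]; exact hαβ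
          · simp [Pi.single_apply, h1]
        · rw [← Matrix.mulVec_mulVec, hf3 b hb, s3 b hb]
      have hA' : ∀ i ∈ insert a (insert (bar a) A), bar i ∈ insert a (insert (bar a) A) := by
        intro i hi
        simp only [Finset.mem_insert] at hi ⊢
        rcases hi with rfl | rfl | hi
        · right; left; rfl
        · left; rw [h.inv]
        · right; right; exact hA i hi
      have hcard' : (Finset.univ \ insert a (insert (bar a) A)).card ≤ n := by
        have hsub : Finset.univ \ insert a (insert (bar a) A) ⊆ (Finset.univ \ A).erase a := by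
          intro k hk
          simp only [Finset.mem_sdiff, Finset.mem_univ, true_and, Finset.mem_insert, not_or,
            Finset.mem_erase] at hk ⊢
          exact ⟨hk.1, hk.2.2⟩
        have h1 := Finset.card_le_card hsub
        rw [Finset.card_erase_of_mem (by simp [ha])] at h1
        omega
      have hmem := ih _ hA' hcard' g4 hg4 hs4 hf4
      have hsubA : A ⊆ insert a (insert (bar a) A) := fun k hk =>
        Finset.mem_insert_of_mem (Finset.mem_insert_of_mem hk)
      have hmem' := NN_mono hsubA hmem
      -- undo
      obtain ⟨i1, hi1, e1⟩ := NN_inv h hA hT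
      obtain ⟨i2, hi2, e2⟩ := NN_inv h hA hg3'
      obtain ⟨i3, hi3, e3⟩ := NN_inv h hA hg2'
      obtain ⟨i4, hi4, e4⟩ := NN_inv h hA hg0
      have hfin : g = i4 * (i3 * (i2 * (i1 * g4))) := by
        show g = i4 * (i3 * (i2 * (i1 * (Matrix.diagonal t * (g3' * (g2' * (g0 * g)))))))
        rw [← mul_assoc i1, e1, one_mul, ← mul_assoc i2, e2, one_mul, ← mul_assoc i3, e3, one_mul,
          ← mul_assoc i4, e4, one_mul]
      rw [hfin]
      exact Submonoid.mul_mem _ hi4 (Submonoid.mul_mem _ hi3 (Submonoid.mul_mem _ hi2
        (Submonoid.mul_mem _ hi1 hmem')))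

theorem gen (h : Frame bar c E) (g : Matrix ι ι K) (hg : Pres bar c g) (hs : Supp E g) :
    g ∈ NN bar c E ∅ :=
  gen_aux h _ ∅ (by simp) le_rfl g hg hs (by simp)

end Pool.Agent.H91.Mono
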