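import Pool.Agent.H91.Mono.Gal3

/-! Orthogonal similitude groups: the Lie algebra in an eigenbasis. -/

set_option linter.unusedSectionVars false

namespace Pool.Agent.H91.Mono

open MvPolynomial

variable {K : Type*} [Field K] [CharZero K] {V : Type*} [AddCommGroup V] [Module K V]
variable {ι : Type*} [Fintype ι] [DecidableEq ι]

/-- The standing hypotheses, orthogonal case. -/
structure OSetup (ψ : V →ₗ[K] V →ₗ[K] K) (Γ : Subgroup (V ≃ₗ[K] V)) (b : Module.Basis ι K V)
    (bar : ι → ι) (lam : ι → K) (F : V ≃ₗ[K] V) : Prop where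
  inv : ∀ i, bar (bar i) = i
  nofix : ∀ i, bar i ≠ i
  sym : ∀ u v, ψ u v = ψ v u
  zero : ∀ i j, j ≠ bar i → ψ (b i) (b j) = 0
  ne : ∀ i, ψ (b i) (b (bar i)) ≠ 0
  sim : ∀ γ ∈ Γ, ∃ μ : K, ∀ u v, ψ ((γ : V ≃ₗ[K] V) u) ((γ : V ≃ₗ[K] V) v) = μ * ψ u v
  mem : F ∈ Γ
  eig : ∀ i, F (b i) = lam i • b i
  triv : TrivRel bar lam

variable {ψ : V →ₗ[K] V →ₗ[K] K} {Γ : Subgroup (V ≃ₗ[K] V)} {b : Module.Basis ι K V}
    {bar : ι → ι} {lam : ι → K} {F : V ≃ₗ[K] V}

namespace OSetup

lemma cc_pos (h : OSetup ψ Γ b bar lam F) (i : ι) : cc ψ b bar (bar i) = cc ψ b bar i := by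
  unfold cc
  rw [h.inv, h.sym]

lemma psi_bil (h : OSetup ψ Γ b bar lam F) (u v : V) :
    ψ u v = bil bar (cc ψ b bar) (b.repr u) (b.repr v) := by
  conv_lhs => rw [← b.sum_repr u, ← b.sum_repr v]
  rw [map_sum ψ, LinearMap.sum_apply, bil]
  apply Finset.sum_congr rfl
  intro i _
  rw [map_sum, Finset.sum_eq_single (bar i)]
  · simp only [map_smul, LinearMap.smul_apply, smul_eq_mul, cc]
    ring
  · intro j _ hj
    simp only [map_smul, LinearMap.smul_apply, smul_eq_mul, h.zero i j hj, mul_zero]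
  · simp

lemma lie_tor (h : OSetup ψ Γ b bar lam F) (x : ι → K) (hx : ∀ i, x i + x (bar i) = 0) :
    dg b x ∈ lie Γ := by
  apply lie_torus h.mem h.eig
  intro m m' hm
  obtain ⟨h1, -⟩ := h.triv m m' hm
  have h2 : ∑ i, ((m i : K) - m' i) * x i = 0 := by
    apply Finset.sum_involution (fun i _ => bar i)
    · intro i _
      have h3 : (m i : K) + m' (bar i) = m (bar i) + m' i := by exact_mod_cast h1 i
      have h4 := hx i
      linear_combination ((m i : K) - m' i) * h4 - x (bar i) * h3
    · intro i _ _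
      exact h.nofix i
    · intro i _
      exact Finset.mem_univ _
    · intro i _
      exact h.inv i
  simp only [sub_mul, Finset.sum_sub_distrib] at h2
  exact sub_eq_zero.1 h2

lemma cl_tor [IsAlgClosed K] (h : OSetup ψ Γ b bar lam F) (t : ι → K) (κ : K) (hκ : κ ≠ 0)
    (ht : ∀ i, t i * t (bar i) = κ) : InCl Γ (dg b t) := by
  apply inCl_torus h.mem h.eig
  intro m m' hm
  obtain ⟨h1, h0⟩ := h.triv m m' hm
  obtain ⟨ν, hν⟩ := IsAlgClosed.exists_pow_nat_eq κ (n := 2) (by norm_num)
  have hν0 : ν ≠ 0 := by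
    rintro rfl
    apply hκ
    rw [← hν]
    norm_num
  have ht0 : ∀ i, t i ≠ 0 := by
    intro i hi
    have := ht i
    rw [hi, zero_mul] at this
    exact hκ this.symm
  let s : ι → K := fun i => t i / ν
  have hs : ∀ i, s i * s (bar i) = 1 := by
    intro i
    have := ht i
    simp only [s]
    field_simp
    rw [this, hν]
  have hs0 : ∀ i, s i ≠ 0 := fun i => div_ne_zero (ht0 i) hν0
  have hts : ∀ i, t i = ν * s i := by
    intro i
    simp only [s]
    field_simp
  have h2 : ∏ i, s i ^ ((m i : ℤ) - m' i) = 1 := by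
    apply Finset.prod_involution (fun i _ => bar i)
    · intro i _
      have h3 : (m (bar i) : ℤ) - m' (bar i) = (m i : ℤ) - m' i := by
        have := h1 i
        omega
      rw [h3, ← mul_zpow, hs, one_zpow]
    · intro i _ _
      exact h.nofix i
    · intro i _
      exact Finset.mem_univ _
    · intro i _
      exact h.inv i
  have h3 : ∏ i, s i ^ m i = ∏ i, s i ^ m' i := by
    have h4 : ∀ i, s i ^ ((m i : ℤ) - m' i) = s i ^ m i / s i ^ m' i := by
      intro i
      rw [zpow_sub₀ (hs0 i), zpow_natCast, zpow_natCast]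
    simp only [h4, Finset.prod_div_distrib] at h2
    rw [div_eq_one_iff_eq] at h2
    · exact h2
    · exact Finset.prod_ne_zero_iff.2 fun i _ => pow_ne_zero _ (hs0 i)
  simp only [hts, mul_pow, Finset.prod_mul_distrib]
  rw [h3, Finset.prod_pow_eq_pow_sum, Finset.prod_pow_eq_pow_sum]
  congr 2

lemma ev_qq (h : OSetup ψ Γ b bar lam F) (u v : V) (g : Module.End K V) :
    ev g (qq (cc ψ b bar) bar b u v) = ψ (g u) (g v) := by
  rw [h.psi_bil, bil, qq, map_sum]
  apply Finset.sum_congr rfl
  intro k _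
  rw [map_mul, map_mul, ev_X, ev_X]
  simp [ev, coefF]

lemma lie_skew (h : OSetup ψ Γ b bar lam F) {x : Module.End K V} (hx : x ∈ lie Γ) {i j : ι}
    (hij : i ≠ j) : b.repr (x (b j)) i * cc ψ b bar i +
      b.repr (x (b (bar i))) (bar j) * cc ψ b bar j = 0 := by
  have h1 := hx (qq (cc ψ b bar) bar b (b j) (b (bar i))) (by
    intro γ hγ
    rw [h.ev_qq]
    obtain ⟨μ, hμ⟩ := h.sim γ hγ
    have := hμ (b j) (b (bar i))
    show ψ (γ (b j)) (γ (b (bar i))) = 0
    rw [this, h.zero, mul_zero]
    intro h5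
    apply hij
    rw [← h.inv i, h5, h.inv])
  rw [pd_qq] at h1
  have h2 : ∀ k, cc ψ b bar k * (b.repr (x (b j)) k * b.repr (b (bar i)) (bar k) +
      b.repr (b j) k * b.repr (x (b (bar i))) (bar k)) =
      (if k = i then cc ψ b bar k * b.repr (x (b j)) k else 0) +
      (if k = j then cc ψ b bar k * b.repr (x (b (bar i))) (bar k) else 0) := by
    intro k
    rw [b.repr_self, b.repr_self, Finsupp.single_apply, Finsupp.single_apply]
    have e1 : (bar i = bar k) ↔ k = i :=
      ⟨fun h5 => by rw [← h.inv k, ← h5, h.inv], fun h5 => by rw [h5]⟩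
    have e2 : (j = k) ↔ k = j := eq_comm
    simp only [e1, e2]
    split_ifs <;> ring
  rw [Finset.sum_congr rfl (fun k _ => h2 k), Finset.sum_add_distrib, Finset.sum_ite_eq',
    Finset.sum_ite_eq'] at h1
  simp only [Finset.mem_univ, if_true] at h1
  linear_combination h1

/-- the form is preserved infinitesimally up to a scalar, on vectors where it vanishes -/
lemma lie_form (h : OSetup ψ Γ b bar lam F) {x : Module.End K V} (hx : x ∈ lie Γ) {i j : ι}
    (hij : j ≠ bar i) : ψ (x (b i)) (b j) + ψ (b i) (x (b j)) = 0 := by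
  have h1 := hx (qq (cc ψ b bar) bar b (b i) (b j)) (by
    intro γ hγ
    rw [h.ev_qq]
    obtain ⟨μ, hμ⟩ := h.sim γ hγ
    have := hμ (b i) (b j)
    show ψ (γ (b i)) (γ (b j)) = 0
    rw [this, h.zero i j hij, mul_zero])
  rw [pd_qq] at h1
  rw [h.psi_bil, h.psi_bil, bil, bil, ← Finset.sum_add_distrib, ← h1]
  apply Finset.sum_congr rfl
  intro k _
  ring

end OSetup

/-- Conditions on a space of matrices, orthogonal case. -/
structure OGood (bar : ι → ι) (c : ι → K) (L : Submodule K (Matrix ι ι K)) : Prop where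
  inv : ∀ i, bar (bar i) = i
  nofix : ∀ i, bar i ≠ i
  c0 : ∀ i, c i ≠ 0
  cpos : ∀ i, c (bar i) = c i
  br : ∀ X ∈ L, ∀ Y ∈ L, X * Y - Y * X ∈ L
  tor : ∀ x : ι → K, (∀ i, x i + x (bar i) = 0) → Matrix.diagonal x ∈ L
  skew : ∀ X ∈ L, ∀ i j, i ≠ j → X i j * c i + X (bar j) (bar i) * c j = 0

theorem ogood (h : OSetup ψ Γ b bar lam F) : OGood bar (cc ψ b bar) (LM Γ b) where
  inv := h.inv
  nofix := h.nofix
  c0 := h.ne
  cpos := h.cc_pos
  br := by
    intro X hX Y hY
    rw [mem_LM, map_sub, Matrix.toLin_mul b b b, Matrix.toLin_mul b b b]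
    exact lie_bracket hX hY
  tor := by
    intro x hx
    exact h.lie_tor x hx
  skew := by
    intro X hX i j hij
    have h1 := h.lie_skew (x := Matrix.toLin b b X) hX hij
    have h2 : ∀ k l, b.repr (Matrix.toLin b b X (b l)) k = X k l := by
      intro k l
      rw [← LinearMap.toMatrix_apply, LinearMap.toMatrix_toLin]
    rw [h2, h2] at h1
    exact h1

section Roots

variable {c : ι → K} {L : Submodule K (Matrix ι ι K)}

lemma OGood.diag_filter (hL : OGood bar c L) (x : ι → K) (hx : ∀ i, x i + x (bar i) = 0)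
    {X : Matrix ι ι K} (hX : X ∈ L) (p : Polynomial K) :
    Matrix.of (fun k l => p.eval (x k - x l) * X k l) ∈ L := by
  induction p using Polynomial.induction_on' with
  | add p q hp hq =>
    have : Matrix.of (fun k l => (p + q).eval (x k - x l) * X k l) =
        Matrix.of (fun k l => p.eval (x k - x l) * X k l) +
        Matrix.of (fun k l => q.eval (x k - x l) * X k l) := by
      ext k l
      simp [add_mul]
    rw [this]
    exact L.add_mem hp hq
  | monomial n a =>
    have h1 : ∀ n : ℕ, Matrix.of (fun k l => (x k - x l) ^ n * X k l) ∈ L := by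
      intro n
      induction n with
      | zero =>
        have : Matrix.of (fun k l => (x k - x l) ^ 0 * X k l) = X := by
          ext k l; simp
        rw [this]; exact hX
      | succ n ih =>
        have h2 := hL.br _ (hL.tor x hx) _ ih
        have : Matrix.of (fun k l => (x k - x l) ^ (n + 1) * X k l) =
            Matrix.diagonal x * Matrix.of (fun k l => (x k - x l) ^ n * X k l) -
            Matrix.of (fun k l => (x k - x l) ^ n * X k l) * Matrix.diagonal x := by
          ext k l
          simp only [Matrix.of_apply, Matrix.sub_apply, Matrix.diagonal_mul, Matrix.mul_diagonal]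
          ring
        rw [this]
        exact h2
    have : Matrix.of (fun k l => (Polynomial.monomial n a).eval (x k - x l) * X k l) =
        a • Matrix.of (fun k l => (x k - x l) ^ n * X k l) := by
      ext k l
      simp [mul_assoc]
    rw [this]
    exact L.smul_mem _ (h1 n)

lemma OGood.filt [DecidableEq K] (hL : OGood bar c L) (x : ι → K)
    (hx : ∀ i, x i + x (bar i) = 0) (d : K)
    {X : Matrix ι ι K} (hX : X ∈ L) :
    Matrix.of (fun k l => if x k - x l = d then X k l else 0) ∈ L := by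
  let s : Finset K := insert d (Finset.univ.image fun q : ι × ι => x q.1 - x q.2)
  let g : K → K := fun e => if e = d then 1 else 0
  let p : Polynomial K := Lagrange.interpolate s id g
  have hp : ∀ e ∈ s, p.eval e = g e := by
    intro e he
    have h1 := Lagrange.eval_interpolate_at_node g (s := s) (v := id) (Set.injOn_id _) he
    exact h1
  have h2 := hL.diag_filter x hx hX p
  have : Matrix.of (fun k l => p.eval (x k - x l) * X k l) =
      Matrix.of (fun k l => if x k - x l = d then X k l else 0) := by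
    ext k l
    simp only [Matrix.of_apply]
    rw [hp _ (Finset.mem_insert_of_mem (Finset.mem_image_of_mem
      (fun q : ι × ι => x q.1 - x q.2) (Finset.mem_univ (k, l))))]
    simp [g]
  rwa [this] at h2

/-- no long roots -/
lemma OGood.bar_zero (hL : OGood bar c L) {X : Matrix ι ι K} (hX : X ∈ L) (i : ι) :
    X i (bar i) = 0 := by
  have h1 := hL.skew X hX i (bar i) (hL.nofix i).symm
  rw [hL.inv, hL.cpos] at h1
  have h2 : (2 : K) * (X i (bar i) * c i) = 0 := by linear_combination h1
  rcases mul_eq_zero.1 h2 with h3 | h3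
  · exact absurd h3 two_ne_zero
  · rcases mul_eq_zero.1 h3 with h4 | h4
    · exact h4
    · exact absurd h4 (hL.c0 i)

/-- projection to a root space -/
lemma OGood.proj (hL : OGood bar c L) {X : Matrix ι ι K} (hX : X ∈ L) {i j : ι} (hij : i ≠ j)
    (h : X i j ≠ 0) : root bar c i j ∈ L ∧ i ≠ bar j := by
  classical
  have hci := hL.c0 i
  have hcj := hL.c0 j
  have hinj : ∀ a b, bar a = bar b → a = b := fun a b hab => by
    rw [← hL.inv a, ← hL.inv b, hab]
  have hb : j ≠ bar i := by
    rintro rfl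
    exact h (hL.bar_zero hX i)
  have hji : j ≠ i := fun h => hij h.symm
  have hib : i ≠ bar i := fun h => hL.nofix i h.symm
  have hjb : j ≠ bar j := fun h => hL.nofix j h.symm
  have hibj : i ≠ bar j := fun h => hb (by rw [h, hL.inv])
  have hbb : bar i ≠ bar j := fun h => hij (hinj _ _ h)
  refine ⟨?_, hibj⟩
  let x : ι → K := fun k => if k = i then 1 else if k = bar i then -1 else
    if k = j then 4 else if k = bar j then -4 else 0
  have xi : x i = 1 := by simp [x]
  have xbi : x (bar i) = -1 := by simp [x, hL.nofix i]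
  have xj : x j = 4 := by simp [x, hji, hb]
  have xbj : x (bar j) = -4 := by
    simp [x, hibj.symm, hbb.symm, hL.nofix j]
  have xo : ∀ k, k ≠ i → k ≠ bar i → k ≠ j → k ≠ bar j → x k = 0 := by
    intro k h1 h2 h3 h4
    simp [x, h1, h2, h3, h4]
  have hx : ∀ k, x k + x (bar k) = 0 := by
    intro k
    by_cases h1 : k = i
    · rw [h1, xi, xbi]; norm_num
    by_cases h2 : k = bar i
    · rw [h2, hL.inv, xi, xbi]; norm_num
    by_cases h3 : k = j
    · rw [h3, xj, xbj]; norm_num
    by_cases h4 : k = bar j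
    · rw [h4, hL.inv, xj, xbj]; norm_num
    rw [xo k h1 h2 h3 h4, xo (bar k), add_zero]
    · exact fun h => h2 (by rw [← h, hL.inv])
    · exact fun h => h1 (hinj _ _ h)
    · exact fun h => h4 (by rw [← h, hL.inv])
    · exact fun h => h3 (hinj _ _ h)
  have h1 := hL.filt x hx (-3) hX
  have h2 : Matrix.of (fun k l => if x k - x l = -3 then X k l else 0) =
      (X i j / c j) • root bar c i j := by
    have hsk := hL.skew X hX i j hij
    have hval : ∀ k, (k = i ∧ x k = 1) ∨ (k = bar i ∧ x k = -1) ∨ (k = j ∧ x k = 4) ∨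
        (k = bar j ∧ x k = -4) ∨ (k ≠ i ∧ k ≠ bar i ∧ k ≠ j ∧ k ≠ bar j ∧ x k = 0) := by
      intro k
      by_cases h1 : k = i
      · left; exact ⟨h1, by rw [h1, xi]⟩
      by_cases h2 : k = bar i
      · right; left; exact ⟨h2, by rw [h2, xbi]⟩
      by_cases h3 : k = j
      · right; right; left; exact ⟨h3, by rw [h3, xj]⟩
      by_cases h4 : k = bar j
      · right; right; right; left; exact ⟨h4, by rw [h4, xbj]⟩
      right; right; right; right
      exact ⟨h1, h2, h3, h4, xo k h1 h2 h3 h4⟩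
    have hiff : ∀ k l, x k - x l = -3 ↔ (k = i ∧ l = j) ∨ (k = bar j ∧ l = bar i) := by
      intro k l
      constructor
      · intro h0
        rcases hval k with ⟨e1, v1⟩ | ⟨e1, v1⟩ | ⟨e1, v1⟩ | ⟨e1, v1⟩ | ⟨_, _, _, _, v1⟩ <;>
        rcases hval l with ⟨e2, v2⟩ | ⟨e2, v2⟩ | ⟨e2, v2⟩ | ⟨e2, v2⟩ | ⟨_, _, _, _, v2⟩ <;>
        rw [v1, v2] at h0 <;> first
          | exact Or.inl ⟨e1, e2⟩
          | exact Or.inr ⟨e1, e2⟩
          | (exfalso; norm_num at h0)
      · rintro (⟨rfl, rfl⟩ | ⟨rfl, rfl⟩)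
        · rw [xi, xj]; norm_num
        · rw [xbi, xbj]; norm_num
    ext k l
    simp only [Matrix.of_apply, Matrix.smul_apply, root_apply, smul_eq_mul]
    by_cases h5 : k = i ∧ l = j
    · obtain ⟨rfl, rfl⟩ := h5
      rw [if_pos ((hiff _ _).2 (Or.inl ⟨rfl, rfl⟩))]
      simp only [and_self, if_true]
      rw [if_neg (fun h => hibj h.1.symm)]
      field_simp
      ring
    · by_cases h6 : k = bar j ∧ l = bar i
      · obtain ⟨rfl, rfl⟩ := h6
        rw [if_pos ((hiff _ _).2 (Or.inr ⟨rfl, rfl⟩))]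
        simp only [and_self, if_true]
        rw [if_neg (fun h => hibj h.1)]
        field_simp
        linear_combination hsk
      · rw [if_neg (fun h => by rcases (hiff _ _).1 h with h7 | h7 <;> [exact h5 h7; exact h6 h7])]
        rw [if_neg (fun h => h5 ⟨h.1.symm, h.2.symm⟩), if_neg (fun h => h6 ⟨h.1.symm, h.2.symm⟩)]
        ring
  rw [h2] at h1
  have hne : X i j / c j ≠ 0 := div_ne_zero h hcj
  have h3 := L.smul_mem (X i j / c j)⁻¹ h1
  rwa [smul_smul, inv_mul_cancel₀ hne, one_smul] at h3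

/-- duality of root elements -/
lemma OGood.root_dual (hL : OGood bar c L) (i j : ι) :
    root bar c (bar j) (bar i) = - root bar c i j := by
  ext k l
  rw [Matrix.neg_apply, root_apply, root_apply, hL.inv, hL.inv, hL.cpos, hL.cpos]
  ring

/-- the nonzero entry -/
lemma OGood.root_entry (_hL : OGood bar c L) {i j : ι} (h : i ≠ bar j) :
    root bar c i j i j = c j := by
  rw [root_apply]
  simp only [and_self, if_true]
  rw [if_neg (fun h5 => h h5.1.symm), sub_zero]

/-- an edge of the root graph -/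
def Edge (bar : ι → ι) (c : ι → K) (L : Submodule K (Matrix ι ι K)) (i j : ι) : Prop :=
  i ≠ j ∧ i ≠ bar j ∧ root bar c i j ∈ L

lemma OGood.edge_dual (hL : OGood bar c L) {i j : ι} (h : Edge bar c L i j) :
    Edge bar c L (bar j) (bar i) := by
  obtain ⟨h1, h2, h3⟩ := h
  refine ⟨fun h5 => h1 ?_, fun h5 => h2 ?_, ?_⟩
  · rw [← hL.inv i, ← h5, hL.inv]
  · rw [hL.inv] at h5; exact h5.symm
  · rw [hL.root_dual]; exact L.neg_mem h3

/-- transitivity -/
lemma OGood.edge_trans (hL : OGood bar c L) {h i j : ι} (h1 : Edge bar c L h i)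
    (h2 : Edge bar c L i j) (hhj : h ≠ j) (hhbj : h ≠ bar j) : Edge bar c L h j := by
  obtain ⟨hhi, hhbi, h1⟩ := h1
  obtain ⟨hij, hibj, h2⟩ := h2
  have hinj : ∀ a b, bar a = bar b → a = b := fun a b hab => by
    rw [← hL.inv a, ← hL.inv b, hab]
  have hci := hL.c0 i
  have hcj := hL.c0 j
  have hch := hL.c0 h
  have h3 := hL.br _ h1 _ h2
  have h4 : (root bar c h i * root bar c i j - root bar c i j * root bar c h i) h j ≠ 0 := by
    rw [Matrix.sub_apply, Matrix.mul_apply, Matrix.mul_apply]
    have n1 : bar i ≠ h := fun h5 => hhbi h5.symm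
    have n2 : bar h ≠ i := fun h5 => n1 (by rw [← h5, hL.inv])
    have n3 : bar j ≠ i := fun h5 => hibj h5.symm
    have n4 : bar j ≠ h := fun h5 => hhbj h5.symm
    have e1 : ∑ k, root bar c h i h k * root bar c i j k j = c i * c j := by
      rw [Finset.sum_eq_single i]
      · rw [hL.root_entry hhbi, hL.root_entry hibj]
      · intro k _ hk
        rw [root_apply, if_neg (fun h5 => hk h5.2.symm), if_neg (fun h5 => n1 h5.1), sub_zero,
          zero_mul]
      · simp
    have e2 : ∑ k, root bar c i j h k * root bar c h i k j = 0 := by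
      apply Finset.sum_eq_zero
      intro k _
      rw [root_apply, if_neg (fun h5 => hhi h5.1.symm), if_neg (fun h5 => n4 h5.1), sub_zero,
        zero_mul]
    rw [e1, e2, sub_zero]
    exact mul_ne_zero hci hcj
  exact ⟨hhj, hhbj, (hL.proj h3 hhj h4).1⟩

/-- everything within reach of `j` -/
def Near (bar : ι → ι) (c : ι → K) (L : Submodule K (Matrix ι ι K)) (j k : ι) : Prop :=
  k = j ∨ Edge bar c L k j ∨ (k = bar j ∧ ∃ a, Edge bar c L a j ∧ Edge bar c L (bar j) a)

lemma OGood.near_closed (hL : OGood bar c L) {j k l : ι} (hk : Near bar c L j k)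
    (hl : Edge bar c L l k) : Near bar c L j l := by
  rcases hk with rfl | hk | ⟨rfl, a, ha1, ha2⟩
  · exact Or.inr (Or.inl hl)
  · by_cases h1 : l = j
    · exact Or.inl h1
    by_cases h2 : l = bar j
    · right; right
      subst h2
      exact ⟨rfl, k, hk, hl⟩
    · exact Or.inr (Or.inl (hL.edge_trans hl hk h1 h2))
  · have n1 : l ≠ bar j := hl.1
    have n2 : l ≠ j := by
      have := hl.2.1
      rwa [hL.inv] at this
    right; left
    by_cases h1 : l = a
    · rw [h1]; exact ha1
    by_cases h2 : l = bar a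
    · rw [h2]
      have := hL.edge_dual ha2
      rwa [hL.inv] at this
    · exact hL.edge_trans (hL.edge_trans hl ha2 h1 h2) ha1 n2 n1

end Roots

end Pool.Agent.H91.Mono
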