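import Pool.Agent.H91.Mono.Ort1

/-! Orthogonal case: stable subspaces, reachability, Galois symmetry. -/

set_option linter.unusedSectionVars false

namespace Pool.Agent.H91.Mono

open MvPolynomial

variable {K : Type*} [Field K] [CharZero K] {V : Type*} [AddCommGroup V] [Module K V]
variable {ι : Type*} [Fintype ι] [DecidableEq ι]
variable {ψ : V →ₗ[K] V →ₗ[K] K} {Γ : Subgroup (V ≃ₗ[K] V)} {b : Module.Basis ι K V}
    {bar : ι → ι} {lam : ι → K} {F : V ≃ₗ[K] V}

/-- `b i` lies in every stable subspace containing `b j` -/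
def Rch (Γ : Subgroup (V ≃ₗ[K] V)) (b : Module.Basis ι K V) (i j : ι) : Prop :=
  ∀ W : Submodule K V, Stab Γ W → b j ∈ W → b i ∈ W

lemma Rch_refl (i : ι) : Rch Γ b i i := fun _ _ h => h

lemma Rch_trans {i j k : ι} (h1 : Rch Γ b i j) (h2 : Rch Γ b j k) : Rch Γ b i k :=
  fun W hW hk => h1 W hW (h2 W hW hk)

/-- minimal indices -/
def OMn (Γ : Subgroup (V ≃ₗ[K] V)) (b : Module.Basis ι K V) (i : ι) : Prop :=
  ∀ k, Rch Γ b k i → Rch Γ b i k

lemma exists_omn (k : ι) : ∃ l, Rch Γ b l k ∧ OMn Γ b l := by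
  classical
  let f : ι → ℕ := fun l => (Finset.univ.filter (fun m => Rch Γ b m l)).card
  obtain ⟨l, hl, hmin⟩ := Finset.exists_min_image (Finset.univ.filter (fun l => Rch Γ b l k)) f
    ⟨k, by simp [Rch_refl]⟩
  rw [Finset.mem_filter] at hl
  refine ⟨l, hl.2, ?_⟩
  intro m hm
  have h1 := hmin m (by simp [Rch_trans hm hl.2])
  have hsub : Finset.univ.filter (fun n => Rch Γ b n m) ⊆
      Finset.univ.filter (fun n => Rch Γ b n l) := by
    intro n hn
    simp only [Finset.mem_filter, Finset.mem_univ, true_and] at hn ⊢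
    exact Rch_trans hn hm
  have h2 := Finset.eq_of_subset_of_card_le hsub h1
  have h3 : l ∈ Finset.univ.filter (fun n => Rch Γ b n l) := by simp [Rch_refl]
  rw [← h2] at h3
  simpa using h3

namespace OSetup

/-- stable subspaces are coordinate subspaces -/
lemma stab_coord (h : OSetup ψ Γ b bar lam F) {W : Submodule K V} (hW : Stab Γ W) {w : V}
    (hw : w ∈ W) {i : ι} (hi : b.repr w i ≠ 0) : b i ∈ W := by
  let x : ι → K := fun k => if k = i then 1 else if k = bar i then -1 else 0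
  have hx : ∀ k, x k + x (bar k) = 0 := by
    intro k
    have hn := h.nofix i
    by_cases h1 : k = i
    · subst h1
      simp [x, hn]
    · by_cases h2 : k = bar i
      · subst h2
        simp [x, hn, h.inv]
      · have h3 : bar k ≠ i := fun h5 => h2 (by rw [← h5, h.inv])
        have h4 : bar k ≠ bar i := fun h5 => h1 (by rw [← h.inv k, h5, h.inv])
        simp [x, h1, h2, h3, h4]
  have hL := h.lie_tor x hx
  have h1 := hW _ hL _ hw
  have h2 := hW _ hL _ h1
  have hre : ∀ (y : ι → K) (v : V), dg b y v = ∑ k, (y k * b.repr v k) • b k := by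
    intro y v
    conv_lhs => rw [← b.sum_repr v]
    rw [map_sum]
    apply Finset.sum_congr rfl
    intro k _
    rw [map_smul, dg_apply, smul_smul, mul_comm]
  have h3 : dg b x w + dg b x (dg b x w) = (2 * b.repr w i) • b i := by
    rw [← Module.End.mul_apply (dg b x), ← dg_mul, hre, hre, ← Finset.sum_add_distrib,
      Finset.sum_eq_single i]
    · rw [← add_smul]
      congr 1
      simp only [Pi.mul_apply]
      have : x i = 1 := by simp [x]
      rw [this]
      ring
    · intro k _ hk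
      rw [← add_smul]
      have : x k + x k * x k = 0 := by
        by_cases h5 : k = bar i
        · simp only [x]; rw [if_neg hk, if_pos h5]; ring
        · simp only [x]; rw [if_neg hk, if_neg h5]; ring
      have h6 : x k * b.repr w k + (x * x) k * b.repr w k = 0 := by
        rw [Pi.mul_apply]
        linear_combination (b.repr w k) * this
      rw [h6, zero_smul]
    · simp
  have h4 := W.add_mem h1 h2
  rw [h3] at h4
  have h5 : (2 * b.repr w i) ≠ 0 := mul_ne_zero two_ne_zero hi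
  have h6 := W.smul_mem (2 * b.repr w i)⁻¹ h4
  rwa [smul_smul, inv_mul_cancel₀ h5, one_smul] at h6

/-- a lower set for reachability gives a stable subspace -/
lemma stab_co (h : OSetup ψ Γ b bar lam F) {p : ι → Prop}
    (hp : ∀ i j, Rch Γ b i j → p j → p i) : Stab Γ (co b p) := by
  intro x hx w hw k hk
  rw [← b.sum_repr w, map_sum, map_sum, Finsupp.finsetSum_apply] at hk
  obtain ⟨j, _, hj⟩ := Finset.exists_ne_zero_of_sum_ne_zero hk
  rw [map_smul, map_smul, Finsupp.smul_apply, smul_eq_mul] at hj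
  have h1 := hw j (left_ne_zero_of_mul hj)
  apply hp k j _ h1
  intro W hW hjW
  exact h.stab_coord hW (hW x hx _ hjW) (right_ne_zero_of_mul hj)

/-- a set closed under edges gives a stable subspace -/
lemma stab_co_edge (h : OSetup ψ Γ b bar lam F) {p : ι → Prop}
    (hp : ∀ i j, Edge bar (cc ψ b bar) (LM Γ b) i j → p j → p i) : Stab Γ (co b p) := by
  intro x hx w hw k hk
  rw [← b.sum_repr w, map_sum, map_sum, Finsupp.finsetSum_apply] at hk
  obtain ⟨j, _, hj⟩ := Finset.exists_ne_zero_of_sum_ne_zero hk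
  rw [map_smul, map_smul, Finsupp.smul_apply, smul_eq_mul] at hj
  have h1 := hw j (left_ne_zero_of_mul hj)
  by_cases hkj : k = j
  · rw [hkj]; exact h1
  apply hp k j _ h1
  have hX : LinearMap.toMatrix b b x ∈ LM Γ b := by
    rw [mem_LM, Matrix.toLin_toMatrix]
    exact hx
  have h2 := (ogood h).proj hX hkj (by
    rw [LinearMap.toMatrix_apply]
    exact right_ne_zero_of_mul hj)
  exact ⟨hkj, h2.2, h2.1⟩

/-- reachability is described by edges -/
lemma near_of_rch (h : OSetup ψ Γ b bar lam F) {i j : ι} (hij : Rch Γ b i j) :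
    Near bar (cc ψ b bar) (LM Γ b) j i := by
  have h1 := hij (co b (Near bar (cc ψ b bar) (LM Γ b) j))
    (h.stab_co_edge (fun k l hkl hl => (ogood h).near_closed hl hkl))
    (basis_mem_co.2 (Or.inl rfl))
  exact basis_mem_co.1 h1

lemma edge_of_rch (h : OSetup ψ Γ b bar lam F) {i j : ι} (hij : Rch Γ b i j) (h1 : i ≠ j)
    (h2 : i ≠ bar j) : root bar (cc ψ b bar) i j ∈ LM Γ b := by
  rcases h.near_of_rch hij with h3 | h3 | ⟨h3, _⟩
  · exact absurd h3 h1
  · exact h3.2.2
  · exact absurd h3 h2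

/-- the orthogonal complement of a stable subspace -/
lemma stab_perp (h : OSetup ψ Γ b bar lam F) {W : Submodule K V} (hW : Stab Γ W) :
    Stab Γ (co b (fun k => b (bar k) ∉ W)) := by
  intro x hx w hw k hk
  rw [← b.sum_repr w, map_sum, map_sum, Finsupp.finsetSum_apply] at hk
  obtain ⟨j, _, hj⟩ := Finset.exists_ne_zero_of_sum_ne_zero hk
  rw [map_smul, map_smul, Finsupp.smul_apply, smul_eq_mul] at hj
  have h1 : b (bar j) ∉ W := hw j (left_ne_zero_of_mul hj)
  have h2 := right_ne_zero_of_mul hj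
  by_cases hkj : k = j
  · rw [hkj]; exact h1
  intro h3
  apply h1
  -- `x b_{bar k}` has a nonzero coordinate at `bar j`
  have h4 := h.lie_skew hx hkj
  apply h.stab_coord hW (hW x hx _ h3)
  intro h5
  rw [h5, zero_mul, add_zero] at h4
  rcases mul_eq_zero.1 h4 with h6 | h6
  · exact h2 h6
  · exact h.ne k h6

lemma Rch_dual (h : OSetup ψ Γ b bar lam F) {i j : ι} (h1 : Rch Γ b i j) :
    Rch Γ b (bar j) (bar i) := by
  intro W hW hi
  by_contra hj
  have h2 : b j ∈ co b (fun k => b (bar k) ∉ W) := basis_mem_co.2 hj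
  have h3 := h1 _ (h.stab_perp hW) h2
  exact (basis_mem_co.1 h3) hi

lemma lam_inj (h : OSetup ψ Γ b bar lam F) : Function.Injective lam := by
  intro i j hij
  by_contra hne
  obtain ⟨h1, -⟩ := h.triv (Pi.single i 1) (Pi.single j 1) (by
    rw [Finset.prod_eq_single i, Finset.prod_eq_single j]
    · simp [hij]
    · intro k _ hk; simp [hk]
    · simp
    · intro k _ hk; simp [hk]
    · simp)
  have h2 := h1 i
  have hn := h.nofix i
  rw [Pi.single_eq_same, Pi.single_eq_of_ne hn, Pi.single_eq_of_ne hne] at h2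
  omega

/-- semilinear symmetries permute the eigenlines -/
lemma exists_perm (h : OSetup ψ Γ b bar lam F) (σ : K ≃+* K) (T : V ≃+ V)
    (hT : ∀ (c : K) v, T (c • v) = σ c • T v)
    (hTΓ : ∀ γ ∈ Γ, ∀ v, T ((γ : V ≃ₗ[K] V) v) = (γ : V ≃ₗ[K] V) (T v)) :
    ∃ (s : ι → ι) (a : ι → K), Function.Injective s ∧ (∀ i, a i ≠ 0) ∧
      (∀ i, T (b i) = a i • b (s i)) ∧ ∀ i, lam (s i) = σ (lam i) := by
  have h1 : ∀ i, F (T (b i)) = σ (lam i) • T (b i) := by
    intro i
    rw [← hTΓ F h.mem, h.eig, hT]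
  have hF : ∀ (v : V) (k : ι), b.repr (F v) k = lam k * b.repr v k := by
    intro v k
    have h2 : (F : Module.End K V) = dg b lam := by
      apply b.ext
      intro i
      rw [dg_apply]
      exact h.eig i
    have h3 : F v = dg b lam v := by rw [← h2]; rfl
    rw [h3, dg_repr]
  have h2 : ∀ i, ∃ k, b.repr (T (b i)) k ≠ 0 := by
    intro i
    have h5 : b.repr (T (b i)) ≠ 0 := by
      intro h6
      have h7 := b.repr.map_eq_zero_iff.1 h6
      exact b.ne_zero i ((map_eq_zero_iff T T.injective).1 h7)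
    obtain ⟨m, hm⟩ := Finsupp.ne_iff.1 h5
    exact ⟨m, hm⟩
  choose s hs using h2
  have h3 : ∀ i k, b.repr (T (b i)) k ≠ 0 → lam k = σ (lam i) := by
    intro i k hk
    have h4 := hF (T (b i)) k
    rw [h1, map_smul, Finsupp.smul_apply, smul_eq_mul] at h4
    exact (mul_right_cancel₀ hk h4).symm
  have hlam : ∀ i, lam (s i) = σ (lam i) := fun i => h3 i _ (hs i)
  refine ⟨s, fun i => b.repr (T (b i)) (s i), ?_, hs, ?_, hlam⟩
  · intro i j hij
    apply h.lam_inj
    apply σ.injective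
    rw [← hlam, ← hlam, hij]
  · intro i
    conv_lhs => rw [← b.sum_repr (T (b i))]
    rw [Finset.sum_eq_single (s i)]
    · intro k _ hk
      by_contra hcon
      have h4 : b.repr (T (b i)) k ≠ 0 := fun h5 => hcon (by rw [h5, zero_smul])
      apply hk
      apply h.lam_inj
      rw [h3 i k h4, hlam]
    · simp

end OSetup

/-- reachability is invariant under semilinear symmetries -/
lemma Rch_gal {σ : K ≃+* K} {T : V ≃+ V}
    (hT : ∀ (c : K) v, T (c • v) = σ c • T v)
    (hTΓ : ∀ γ ∈ Γ, ∀ v, T ((γ : V ≃ₗ[K] V) v) = (γ : V ≃ₗ[K] V) (T v))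
    {s : ι → ι} {a : ι → K} (ha : ∀ i, a i ≠ 0)
    (hb : ∀ i, T (b i) = a i • b (s i)) {i j : ι} (hij : Rch Γ b i j) :
    Rch Γ b (s i) (s j) := by
  intro W hW hj
  let W' : Submodule K V :=
    { carrier := {v | T v ∈ W}
      add_mem' := by
        intro u v hu hv
        show T (u + v) ∈ W
        rw [map_add]
        exact W.add_mem hu hv
      zero_mem' := by
        show T 0 ∈ W
        rw [map_zero]
        exact W.zero_mem
      smul_mem' := by
        intro c v hv
        show T (c • v) ∈ W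
        rw [hT]
        exact W.smul_mem _ hv }
  have hW' : Stab Γ W' := by
    intro x hx w hw
    show T (x w) ∈ W
    have h1 := hW _ (lie_sconj σ T hT hTΓ hx) _ hw
    rw [sconj_apply, T.symm_apply_apply] at h1
    exact h1
  have h1 : b j ∈ W' := by
    show T (b j) ∈ W
    rw [hb]
    exact W.smul_mem _ hj
  have h2 : T (b i) ∈ W := hij W' hW' h1
  rw [hb] at h2
  have h3 := W.smul_mem (a i)⁻¹ h2
  rwa [smul_smul, inv_mul_cancel₀ (ha i), one_smul] at h3

lemma OSetup.perm_R (h : OSetup ψ Γ b bar lam F) {σ : K ≃+* K} (hσ : SemiSym Γ σ) :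
    ∃ s : ι → ι, Function.Bijective s ∧ (∀ i, lam (s i) = σ (lam i)) ∧
      ∀ i j, Rch Γ b (s i) (s j) ↔ Rch Γ b i j := by
  obtain ⟨T, hT, hΓ⟩ := hσ
  obtain ⟨s, a, hs, ha, hb, hl⟩ := h.exists_perm σ T hT hΓ
  obtain ⟨T', hT', hΓ'⟩ := SemiSym.symm ⟨T, hT, hΓ⟩
  obtain ⟨s', a', hs', ha', hb', hl'⟩ := h.exists_perm σ.symm T' hT' hΓ'
  have hss : ∀ i, s' (s i) = i := by
    intro i
    apply h.lam_inj
    rw [hl', hl, σ.symm_apply_apply]
  refine ⟨s, Finite.injective_iff_bijective.1 hs, hl, ?_⟩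
  intro i j
  constructor
  · intro h1
    have h2 := Rch_gal hT' hΓ' ha' hb' h1
    rwa [hss, hss] at h2
  · intro h1
    exact Rch_gal hT hΓ ha hb h1

/-- symmetry from conjugacy of the eigenvalues with their partners -/
lemma OSetup.all_mn_gal (h : OSetup ψ Γ b bar lam F)
    (hq : ∀ i, ∃ σ : K ≃+* K, SemiSym Γ σ ∧ σ (lam i) = lam (bar i)) (i : ι) :
    OMn Γ b i := by
  have hbar : ∀ l, OMn Γ b l → OMn Γ b (bar l) := by
    intro l hl
    obtain ⟨σ, hσ, hσl⟩ := hq l
    obtain ⟨s, hs, hsl, hsR⟩ := h.perm_R hσ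
    have h1 : s l = bar l := by
      apply h.lam_inj
      rw [hsl, hσl]
    rw [← h1]
    intro k hk
    obtain ⟨k', rfl⟩ := hs.2 k
    exact (hsR _ _).2 (hl k' ((hsR _ _).1 hk))
  have hdual : ∀ i j, Rch Γ b (bar j) (bar i) → Rch Γ b i j := by
    intro i j hij
    have := h.Rch_dual hij
    rwa [h.inv, h.inv] at this
  obtain ⟨l, hl, hmn⟩ := exists_omn (Γ := Γ) (b := b) i
  have h1 : Rch Γ b (bar i) (bar l) := h.Rch_dual hl
  have h2 := hbar l hmn _ h1
  have h3 : Rch Γ b i l := hdual _ _ h2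
  intro k hk
  have h4 := hmn k (Rch_trans hk h3)
  exact Rch_trans h3 h4

lemma OSetup.fixSub_finite (h : OSetup ψ Γ b bar lam F) : (fixSub Γ).FiniteIndex := by
  have hfin : Finite (SS Γ) := by
    let f : SS Γ → Set ι := fun W => {i | b i ∈ W.1}
    apply Finite.of_injective f
    have hle : ∀ W W' : SS Γ, f W = f W' → W.1 ≤ W'.1 := by
      intro W W' hWW w hw
      rw [← b.sum_repr w]
      apply W'.1.sum_mem
      intro i _
      by_cases h1 : b.repr w i = 0
      · rw [h1, zero_smul]; exact W'.1.zero_mem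
      · have h2 : i ∈ f W := h.stab_coord W.2 hw h1
        rw [hWW] at h2
        exact W'.1.smul_mem _ h2
    intro W W' hWW
    exact Subtype.ext (le_antisymm (hle _ _ hWW) (hle _ _ hWW.symm))
  unfold fixSub
  infer_instance

/-- projections commute with `fixSub` -/
lemma OSetup.proj_fix (h : OSetup ψ Γ b bar lam F) (hmn : ∀ i, OMn Γ b i) (l : ι)
    (e : ι → K) (he1 : ∀ k, Rch Γ b k l → e k = 1) (he0 : ∀ k, ¬ Rch Γ b k l → e k = 0)
    (γ : Γ) (hγ : γ ∈ fixSub Γ) (v : V) :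
    dg b e ((γ : V ≃ₗ[K] V) v) = (γ : V ≃ₗ[K] V) (dg b e v) := by
  let W : Submodule K V := co b (fun k => Rch Γ b k l)
  let W' : Submodule K V := co b (fun k => ¬ Rch Γ b k l)
  have hW : Stab Γ W := h.stab_co (fun k m h1 h2 => Rch_trans h1 h2)
  have hW' : Stab Γ W' := h.stab_co (fun k m h1 h2 h3 => h2 (Rch_trans (hmn _ _ h1) h3))
  have h1 : ∀ w ∈ W, (γ : V ≃ₗ[K] V) w ∈ W := by
    intro w hw
    have := mem_fixSub hγ hW
    rw [← this]
    exact Submodule.mem_map_of_mem hw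
  have h2 : ∀ w ∈ W', (γ : V ≃ₗ[K] V) w ∈ W' := by
    intro w hw
    have := mem_fixSub hγ hW'
    rw [← this]
    exact Submodule.mem_map_of_mem hw
  have e1 : ∀ w ∈ W, dg b e w = w := by
    intro w hw
    apply b.repr.injective
    ext k
    rw [dg_repr]
    by_cases h3 : b.repr w k = 0
    · rw [h3, mul_zero]
    · rw [he1 k (hw k h3), one_mul]
  have e2 : ∀ w ∈ W', dg b e w = 0 := by
    intro w hw
    apply b.repr.injective
    ext k
    rw [dg_repr, map_zero, Finsupp.zero_apply]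
    by_cases h3 : b.repr w k = 0
    · rw [h3, mul_zero]
    · rw [he0 k (hw k h3), zero_mul]
  have hw : dg b e v ∈ W := by
    intro k hk
    rw [dg_repr] at hk
    by_contra h3
    rw [he0 k h3, zero_mul] at hk
    exact hk rfl
  have hw' : v - dg b e v ∈ W' := by
    intro k hk h3
    rw [map_sub, Finsupp.sub_apply, dg_repr, he1 k h3, one_mul, sub_self] at hk
    exact hk rfl
  have h4 : v = dg b e v + (v - dg b e v) := by abel
  have h5 : (γ : V ≃ₗ[K] V) v = (γ : V ≃ₗ[K] V) (dg b e v) + (γ : V ≃ₗ[K] V) (v - dg b e v) := by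
    rw [← map_add, ← h4]
  rw [h5, map_add, e1 _ (h1 _ hw), e2 _ (h2 _ hw'), add_zero]

/-- a nondegenerate eigenvector lies in one block -/
lemma OSetup.eig_class (h : OSetup ψ Γ b bar lam F) (hmn : ∀ i, OMn Γ b i)
    {F' : V ≃ₗ[K] V} (hF' : F' ∈ Γ) {α : K} {v : V} (hv : Nondeg F' α v) :
    ∃ i₀, v ∈ co b (fun k => Rch Γ b k i₀) := by
  classical
  obtain ⟨hv0, hFv, hN⟩ := hv
  have hfi := h.fixSub_finite
  obtain ⟨N, hN0, -, hmem⟩ := Subgroup.exists_pow_mem_of_index_ne_zero hfi.index_ne_zero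
    (⟨F', hF'⟩ : Γ)
  have hpow : ∀ n : ℕ, (F' ^ n) v = α ^ n • v := by
    intro n
    induction n with
    | zero => rw [pow_zero, pow_zero, one_smul]; rfl
    | succ n ih => rw [pow_succ', LinearEquiv.mul_apply, ih, map_smul, hFv, smul_smul, pow_succ]
  have h5 : b.repr v ≠ 0 := by
    intro h6
    exact hv0 (b.repr.map_eq_zero_iff.1 h6)
  obtain ⟨i₀, hi₀⟩ := Finsupp.ne_iff.1 h5
  refine ⟨i₀, ?_⟩
  let e : ι → K := fun m => if Rch Γ b m i₀ then 1 else 0
  have h6 := h.proj_fix hmn i₀ e (fun k hk => if_pos hk) (fun k hk => if_neg hk) _ hmem v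
  have h7 : (((⟨F', hF'⟩ : Γ) ^ N : Γ) : V ≃ₗ[K] V) = F' ^ N := by simp
  rw [h7, hpow, map_smul] at h6
  obtain ⟨c, hc⟩ := hN N hN0 _ h6.symm
  have h8 : b.repr (dg b e v) i₀ = b.repr v i₀ := by
    rw [dg_repr]
    have : e i₀ = 1 := if_pos (Rch_refl i₀)
    rw [this, one_mul]
  have hc0 : c ≠ 0 := by
    rintro rfl
    rw [hc, zero_smul, map_zero, Finsupp.zero_apply] at h8
    exact hi₀ h8.symm
  intro k hk
  by_contra hcon
  have h9 : b.repr (dg b e v) k = 0 := by
    rw [dg_repr]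
    have : e k = 0 := if_neg hcon
    rw [this, zero_mul]
  rw [hc, map_smul, Finsupp.smul_apply, smul_eq_mul] at h9
  rcases mul_eq_zero.1 h9 with h10 | h10
  · exact hc0 h10
  · exact hk h10

/-- symmetries fixing the eigenvalue fix the block -/
lemma OSetup.class_fixed (h : OSetup ψ Γ b bar lam F) (hmn : ∀ i, OMn Γ b i)
    {F' : V ≃ₗ[K] V} (hF' : F' ∈ Γ) {α : K} {v : V} (hv : Nondeg F' α v) {i₀ : ι}
    (hi₀ : v ∈ co b (fun k => Rch Γ b k i₀)) {σ : K ≃+* K} (hσ : SemiSym Γ σ)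
    (hσα : σ α = α) (i₁ : ι) (hi₁ : lam i₁ = σ (lam i₀)) : Rch Γ b i₁ i₀ := by
  obtain ⟨hv0, hFv, hN⟩ := hv
  obtain ⟨T, hT, hΓ⟩ := hσ
  obtain ⟨s, a, hs, ha, hb, hl⟩ := h.exists_perm σ T hT hΓ
  have h1 : i₁ = s i₀ := by
    apply h.lam_inj
    rw [hi₁, hl]
  rw [h1]
  have h2 : (F' ^ 1) (T v) = α ^ 1 • T v := by
    rw [pow_one, pow_one, ← hΓ F' hF', hFv, hT, hσα]
  obtain ⟨c, hc⟩ := hN 1 one_pos _ h2
  have h5 : b.repr v ≠ 0 := by
    intro h6
    exact hv0 (b.repr.map_eq_zero_iff.1 h6)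
  obtain ⟨k, hk⟩ := Finsupp.ne_iff.1 h5
  have hk' : b.repr v k ≠ 0 := hk
  have h6 : Rch Γ b k i₀ := hi₀ k hk'
  have h7 : b.repr (T v) (s k) ≠ 0 := by
    rw [repr_T hT hs hb]
    exact mul_ne_zero (fun h8 => hk' ((map_eq_zero_iff σ σ.injective).1 h8)) (ha k)
  have h8 : b.repr v (s k) ≠ 0 := by
    intro h9
    apply h7
    rw [hc, map_smul, Finsupp.smul_apply, h9, smul_zero]
  have h9 : Rch Γ b (s k) i₀ := hi₀ _ h8
  have h10 := Rch_gal hT hΓ ha hb h6
  exact Rch_trans (hmn _ _ h10) h9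

end Pool.Agent.H91.Mono
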