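import Pool.Agent.H91.Mono.Ort2
import Pool.Agent.H91.Mono.Ort3
import Pool.Agent.H91.Mono.Gal4

/-! Monodromy groups of orthogonal type over a field `E` from Frobenius elements. -/

set_option linter.unusedSectionVars false

namespace Pool.Agent.H91.Mono

open Polynomial TensorProduct Pool.Agent.H93Tate

section Coord

variable {K : Type*} [Field K] [CharZero K] {V : Type*} [AddCommGroup V] [Module K V]
variable {ι : Type*} [Fintype ι] [DecidableEq ι]
variable {ψ : V →ₗ[K] V →ₗ[K] K} {Γ : Subgroup (V ≃ₗ[K] V)} {b : Module.Basis ι K V}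
    {bar : ι → ι} {lam : ι → K} {F : V ≃ₗ[K] V}

/-- all elements of `ON` are in the closure -/
lemma ON_cl [IsAlgClosed K] (h : OSetup ψ Γ b bar lam F) (hall : ∀ i j, Rch Γ b i j)
    {g : Matrix ι ι K} (hg : g ∈ ON bar (cc ψ b bar) ∅) : InCl Γ (Matrix.toLin b b g) := by
  have hfr : OFrame bar (cc ψ b bar) := ⟨h.inv, h.nofix, h.ne, h.cc_pos⟩
  induction hg using Submonoid.closure_induction with
  | mem g hg =>
    cases hg with
    | unip i j s hij hibj hi hj =>
      have h1 := h.edge_of_rch (hall i j) hij hibj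
      have hsq : Matrix.toLin b b (root bar (cc ψ b bar) i j) *
          Matrix.toLin b b (root bar (cc ψ b bar) i j) = 0 := by
        have h2 := Matrix.toLin_mul b b b (root bar (cc ψ b bar) i j)
          (root bar (cc ψ b bar) i j)
        rw [hfr.root_sq hij, map_zero] at h2
        exact h2.symm
      have h3 := inCl_exp (x := Matrix.toLin b b (root bar (cc ψ b bar) i j)) h1
        (by rw [hsq, zero_mul]) s
      rw [hsq, smul_zero, add_zero] at h3
      have h4 : Matrix.toLin b b (1 + s • root bar (cc ψ b bar) i j) =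
          1 + s • Matrix.toLin b b (root bar (cc ψ b bar) i j) := by
        rw [map_add, map_smul, Matrix.toLin_one]
        rfl
      rw [h4]
      exact h3
    | tor t ht hA => exact h.cl_tor t 1 one_ne_zero ht
  | one =>
    rw [Matrix.toLin_one]
    exact inCl_one
  | mul x y _ _ hx hy =>
    rw [Matrix.toLin_mul b b b]
    exact inCl_mul hx hy

/-- **Main theorem in coordinates, orthogonal case.** -/
theorem odense [IsAlgClosed K] [Nontrivial V] [FiniteDimensional K V]
    (h : OSetup ψ Γ b bar lam F) (hall : ∀ i j, Rch Γ b i j) (g : V ≃ₗ[K] V) (m : ℕ)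
    (hm : Module.finrank K V = 2 * m) (μ : K)
    (hμ : ∀ u v, ψ (g u) (g v) = μ * ψ u v)
    (hdet : LinearMap.det (g : V →ₗ[K] V) = μ ^ m) :
    InCl Γ (g : Module.End K V) := by
  have hμ0 : μ ≠ 0 := by
    rintro rfl
    obtain ⟨i⟩ : Nonempty ι := b.index_nonempty
    apply h.ne i
    have h1 := hμ (g.symm (b i)) (g.symm (b (bar i)))
    rw [g.apply_symm_apply, g.apply_symm_apply, zero_mul] at h1
    exact h1
  obtain ⟨ν, hν⟩ := IsAlgClosed.exists_pow_nat_eq μ (n := 2) (by norm_num)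
  have hν0 : ν ≠ 0 := by
    rintro rfl
    apply hμ0
    rw [← hν]
    norm_num
  let g' : Module.End K V := ν⁻¹ • (g : Module.End K V)
  have hfr : OFrame bar (cc ψ b bar) := ⟨h.inv, h.nofix, h.ne, h.cc_pos⟩
  have hp : Pres bar (cc ψ b bar) (LinearMap.toMatrix b b g') := by
    have hrep : ∀ w : V, (b.repr (g' w) : ι → K) =
        (LinearMap.toMatrix b b g').mulVec (b.repr w) := by
      intro w
      rw [LinearMap.toMatrix_mulVec_repr]
    intro u v
    obtain ⟨u', hu⟩ : ∃ u' : V, (b.repr u' : ι → K) = u :=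
      ⟨b.equivFun.symm u, b.equivFun.apply_symm_apply u⟩
    obtain ⟨v', hv⟩ : ∃ v' : V, (b.repr v' : ι → K) = v :=
      ⟨b.equivFun.symm v, b.equivFun.apply_symm_apply v⟩
    rw [← hu, ← hv, ← hrep, ← hrep, ← h.psi_bil, ← h.psi_bil]
    show ψ (ν⁻¹ • g u') (ν⁻¹ • g v') = _
    rw [map_smul, map_smul, LinearMap.smul_apply, hμ, ← hν]
    simp only [smul_eq_mul]
    field_simp
  have hd : (LinearMap.toMatrix b b g').det = 1 := by
    rw [LinearMap.det_toMatrix]
    show LinearMap.det (ν⁻¹ • (g : V →ₗ[K] V)) = 1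
    rw [LinearMap.det_smul, hdet, hm, pow_mul, inv_pow, hν, ← mul_pow, inv_mul_cancel₀ hμ0,
      one_pow]
  have h1 := ogen hfr _ hp hd
  have h2 := ON_cl h hall h1
  rw [Matrix.toLin_toMatrix] at h2
  have h3 : InCl Γ (dg b (fun _ => ν)) := h.cl_tor _ (ν * ν) (mul_ne_zero hν0 hν0) (fun _ => rfl)
  have h4 := inCl_mul h3 h2
  have h5 : dg b (fun _ => ν) * g' = (g : Module.End K V) := by
    have h6 : dg b (fun _ : ι => ν) = ν • (1 : Module.End K V) := by
      apply b.ext
      intro i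
      rw [dg_apply]
      rfl
    rw [h6]
    ext v
    show ν • (ν⁻¹ • g v) = g v
    rw [smul_smul, mul_inv_cancel₀ hν0, one_smul]
  rwa [h5] at h4

end Coord

section

variable {p n : ℕ} [hp : Fact p.Prime] {P : ℚ[X]}

/-- the standing hypotheses hold -/
theorem osetup_of (hn : 0 < n) (hP : Irreducible P) (hdeg : 2 < P.natDegree)
    (hweil : ∀ z : ℂ, aeval z P = 0 → ‖z‖ ^ 2 = (p : ℝ) ^ n) (hmr : MaxRank ((p : ℂ) ^ n) P)
    {K : Type*} [Field K] [CharZero K] {V : Type*}
    [AddCommGroup V] [Module K V] [FiniteDimensional K V] (ψ : V →ₗ[K] V →ₗ[K] K)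
    (hsym : ∀ u v, ψ u v = ψ v u) (hnd : ∀ v, (∀ w, ψ v w = 0) → v = 0)
    (Γ : Subgroup (V ≃ₗ[K] V))
    (hsim : ∀ γ ∈ Γ, ∃ μ : K, ∀ u v, ψ ((γ : V ≃ₗ[K] V) u) ((γ : V ≃ₗ[K] V) v) = μ * ψ u v)
    (F : V ≃ₗ[K] V) (hF : F ∈ Γ)
    (hchar : LinearMap.charpoly (F : V →ₗ[K] V) = P.map (algebraMap ℚ K))
    (hmult : ∀ u v, ψ (F u) (F v) = (p : K) ^ n * ψ u v)
    (jE : P.SplittingField →ₐ[ℚ] K) :
    ∃ b : Module.Basis (Rt P) K V, OSetup ψ Γ b (inv hweil) (fun x : Rt P => jE x.1) F := by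
  classical
  obtain ⟨b, hb⟩ := exists_eigenbasis hP (F : V →ₗ[K] V) hchar jE
  have hne : ∀ x : Rt P, x.1 ≠ 0 := fun x => root_ne_zero hweil x.2
  have hlne : ∀ x : Rt P, jE x.1 ≠ 0 := fun x => by
    rw [Ne, map_eq_zero]; exact hne x
  have hzero : ∀ i j : Rt P, j ≠ inv hweil i → ψ (b i) (b j) = 0 := by
    intro i j hij
    have h1 := hmult (b i) (b j)
    have e1 : F (b i) = jE i.1 • b i := hb i
    have e2 : F (b j) = jE j.1 • b j := hb j
    rw [e1, e2, map_smul, map_smul, LinearMap.smul_apply, smul_eq_mul, smul_eq_mul] at h1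
    have h2 : (jE i.1 * jE j.1 - (p : K) ^ n) * ψ (b i) (b j) = 0 := by linear_combination h1
    rcases mul_eq_zero.1 h2 with h3 | h3
    · exfalso
      apply hij
      apply Subtype.ext
      apply jE.toRingHom.injective
      show jE j.1 = jE ((p : P.SplittingField) ^ n / i.1)
      rw [map_div₀, map_pow, map_natCast, eq_div_iff (hlne i)]
      linear_combination h3
    · exact h3
  have hne' : ∀ i : Rt P, ψ (b i) (b (inv hweil i)) ≠ 0 := by
    intro i h0
    apply b.ne_zero i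
    apply hnd
    intro w
    rw [← b.sum_repr w, map_sum]
    apply Finset.sum_eq_zero
    intro j _
    rw [map_smul]
    by_cases hj : j = inv hweil i
    · rw [hj, h0, smul_zero]
    · rw [hzero i j hj, smul_zero]
  exact ⟨b,
    { inv := inv_inv' hweil
      nofix := fun x hx => inv_ne hP hdeg hweil x.2 (congrArg Subtype.val hx)
      sym := hsym
      zero := hzero
      ne := hne'
      sim := hsim
      mem := hF
      eig := hb
      triv := trivRel_of hn hP hweil hmr jE }⟩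

section BC

variable {E : Type*} [Field E] {K : Type*} [Field K] [Algebra E K] {V : Type*} [AddCommGroup V]
  [Module E V] {ψ : V →ₗ[E] V →ₗ[E] E}

lemma fK_sym (h : ∀ u v, ψ u v = ψ v u) (x y : K ⊗[E] V) : fK K ψ x y = fK K ψ y x := by
  induction x using TensorProduct.induction_on with
  | zero => simp
  | add x x' hx hx' =>
    rw [map_add, map_add, LinearMap.add_apply, hx, hx']
  | tmul a u =>
    induction y using TensorProduct.induction_on with
    | zero => simp
    | add y y' hy hy' =>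
      rw [map_add, map_add, LinearMap.add_apply, hy, hy']
    | tmul a' v =>
      rw [fK_tmul, fK_tmul, h u v]
      ring

lemma fK_nondeg_sym [FiniteDimensional E V] (h : ∀ u v, ψ u v = ψ v u)
    (hnd : ∀ v, (∀ w, ψ v w = 0) → v = 0) (x : K ⊗[E] V) (hx : ∀ y, fK K ψ x y = 0) :
    x = 0 := by
  let e := Module.finBasis E V
  have hinj : Function.Injective ψ := by
    rw [injective_iff_map_eq_zero]
    intro v hv
    apply hnd
    intro w
    rw [hv]
    rfl
  have hsurj : Function.Surjective ψ :=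
    (LinearMap.injective_iff_surjective_of_finrank_eq_finrank
      (by rw [Subspace.dual_finrank_eq])).1 hinj
  have hcoord : ∀ j, ∃ w : V, ∀ u, ψ w u = e.coord j u := by
    intro j
    obtain ⟨w, hw⟩ := hsurj (e.coord j)
    exact ⟨w, fun u => by rw [hw]⟩
  choose w hw using hcoord
  let eK := Algebra.TensorProduct.basis K e
  have key : ∀ j (y : K ⊗[E] V), fK K ψ (1 ⊗ₜ[E] w j) y = eK.repr y j := by
    intro j y
    induction y using TensorProduct.induction_on with
    | zero => simp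
    | add y y' hy hy' => rw [map_add, map_add, hy, hy', Finsupp.add_apply]
    | tmul a u =>
      rw [fK_tmul, hw, Algebra.TensorProduct.basis_repr_tmul]
      simp [mul_comm]
  apply eK.repr.injective
  ext j
  rw [← key, map_zero, Finsupp.zero_apply, fK_sym h, hx]

end BC

/-- **Several Frobenius elements, orthogonal case of even rank.** -/
theorem twoFrobO (hn : 0 < n) (hP : Irreducible P) (hdeg : 2 < P.natDegree)
    (hweil : ∀ z : ℂ, aeval z P = 0 → ‖z‖ ^ 2 = (p : ℝ) ^ n) (hmr : MaxRank ((p : ℂ) ^ n) P)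
    {E : Type*} [Field E] [CharZero E] (K : Type*) [Field K] [Algebra E K] [IsAlgClosure E K]
    {V : Type*} [AddCommGroup V] [Module E V] [FiniteDimensional E V] (ψ : V →ₗ[E] V →ₗ[E] E)
    (hsym : ∀ u v, ψ u v = ψ v u) (hnd : ∀ v, (∀ w, ψ v w = 0) → v = 0)
    (Γ : Subgroup (V ≃ₗ[E] V))
    (hsim : ∀ γ ∈ Γ, ∃ μ : E, ∀ u v, ψ ((γ : V ≃ₗ[E] V) u) ((γ : V ≃ₗ[E] V) v) = μ * ψ u v)
    (F : V ≃ₗ[E] V) (hF : F ∈ Γ)
    (hchar : LinearMap.charpoly (F : V →ₗ[E] V) = P.map (algebraMap ℚ E))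
    (hirr : Irreducible (P.map (algebraMap ℚ E)))
    (hmult : ∀ u v, ψ (F u) (F v) = (p : E) ^ n * ψ u v)
    (hprime : ∀ r : ℕ, r.Prime → r ∣ P.natDegree → ∃ G ∈ Γ, ∃ α : K,
      NondegRoot G α ∧ ¬ r ∣ (minpoly E α).natDegree)
    (g : V ≃ₗ[E] V) (m : ℕ) (hm : Module.finrank E V = 2 * m) (μ : E)
    (hμ : ∀ u v, ψ (g u) (g v) = μ * ψ u v)
    (hdet : LinearMap.det (g : V →ₗ[E] V) = μ ^ m) :
    InCl Γ (g : Module.End E V) := by
  classical
  have hac : IsAlgClosed K := IsAlgClosure.isAlgClosed E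
  have halg : Algebra.IsAlgebraic E K := IsAlgClosure.isAlgebraic
  have hcz : CharZero K := charZero_of_injective_algebraMap (algebraMap E K).injective
  apply inCl_descend K
  let jE : P.SplittingField →ₐ[ℚ] K := IsAlgClosed.lift
  have hmapP : (P.map (algebraMap ℚ E)).map (algebraMap E K) = P.map (algebraMap ℚ K) := by
    rw [Polynomial.map_map]
    congr 1
    exact Subsingleton.elim _ _
  obtain ⟨b, hset⟩ := osetup_of hn hP hdeg hweil hmr (fK K ψ) (fK_sym hsym)
    (fK_nondeg_sym hsym hnd) (Γ.map (bcE K)) (by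
      rintro _ ⟨γ, hγ, rfl⟩
      obtain ⟨μ, hμ⟩ := hsim γ hγ
      exact ⟨algebraMap E K μ, fK_sim γ μ hμ⟩) (bcE K F) ⟨F, hF, rfl⟩
    (by rw [bcE_coe, LinearMap.charpoly_baseChange, hchar, hmapP])
    (by
      intro u v
      rw [fK_sim F _ hmult, map_pow, map_natCast]) jE
  -- the Galois group acts transitively on the roots
  have hconj : ∀ x y : Rt P, ∃ σ : K ≃ₐ[E] K, σ (jE x.1) = jE y.1 := by
    intro x y
    have hroot : ∀ z : Rt P, aeval (jE z.1) (P.map (algebraMap ℚ E)) = 0 := by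
      intro z
      rw [← eval_map_algebraMap, hmapP, eval_map_algebraMap, aeval_algHom_apply, rt_root, map_zero]
    have hmin : ∀ z : Rt P, minpoly E (jE z.1) = P.map (algebraMap ℚ E) * C
        (P.map (algebraMap ℚ E)).leadingCoeff⁻¹ := fun z =>
      (minpoly.eq_of_irreducible hirr (hroot z)).symm
    have h1 : minpoly E (jE y.1) = minpoly E (jE x.1) := by rw [hmin, hmin]
    obtain ⟨σ, hσ⟩ := (Normal.minpoly_eq_iff_mem_orbit K).1 h1
    exact ⟨σ, hσ⟩
  have hmn := hset.all_mn_gal (fun i => by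
    obtain ⟨σ, hσ⟩ := hconj i (inv hweil i)
    exact ⟨σ, semiSym_bc K σ Γ, hσ⟩)
  -- the action on the roots
  have hex : ∀ (σ : K ≃ₐ[E] K) (x : Rt P), ∃ y : Rt P, jE y.1 = σ (jE x.1) := by
    intro σ x
    apply exists_rt hP
    have h1 : aeval (jE x.1) P = 0 := by rw [aeval_algHom_apply, rt_root, map_zero]
    have h2 : aeval ((σ : K →ₐ[E] K).restrictScalars ℚ (jE x.1)) P = 0 := by
      rw [aeval_algHom_apply, h1, map_zero]
    exact h2
  choose act hact using hex
  have hinj : ∀ x y : Rt P, jE x.1 = jE y.1 → x = y := fun x y hxy =>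
    Subtype.ext (jE.toRingHom.injective hxy)
  let A : MulAction (K ≃ₐ[E] K) (Rt P) :=
    { smul := act
      one_smul := fun x => hinj _ _ (hact 1 x)
      mul_smul := fun σ τ x => hinj _ _ (by
        show jE (act (σ * τ) x).1 = jE (act σ (act τ x)).1
        rw [hact, hact, hact]
        rfl) }
  have hsm : ∀ (σ : K ≃ₐ[E] K) (x : Rt P), jE (σ • x).1 = σ (jE x.1) := hact
  have htr : MulAction.IsPretransitive (K ≃ₐ[E] K) (Rt P) := by
    refine ⟨fun x y => ?_⟩
    obtain ⟨σ, hσ⟩ := hconj x y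
    exact ⟨σ, hinj _ _ (by rw [hsm, hσ])⟩
  have hall := single_block (G := K ≃ₐ[E] K) (X := Rt P)
    (Rch (Γ.map (bcE K)) b) Rch_refl (fun x y => hmn y x)
    (fun x y z => Rch_trans)
    (by
      intro σ x y hxy
      obtain ⟨T, hT, hΓ⟩ := semiSym_bc K σ Γ
      obtain ⟨s, a, hs, ha, hb, hl⟩ := hset.exists_perm _ T hT hΓ
      have hsx : ∀ z, s z = σ • z := fun z => hinj _ _ (by rw [hsm]; exact hl z)
      have := Rch_gal hT hΓ ha hb hxy
      rwa [hsx, hsx] at this)
    (by
      intro r hr hrd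
      rw [card_rt hP] at hrd
      obtain ⟨G, hG, α, ⟨hα1, hα2⟩, hα3⟩ := hprime r hr hrd
      have hchG : LinearMap.charpoly ((bcE K G : K ⊗[E] V ≃ₗ[K] K ⊗[E] V) :
          K ⊗[E] V →ₗ[K] K ⊗[E] V) = (LinearMap.charpoly (G : V →ₗ[E] V)).map
          (algebraMap E K) := by
        rw [bcE_coe, LinearMap.charpoly_baseChange]
      obtain ⟨v, hv⟩ := nondeg_of (bcE K G) α (by rw [hchG]; exact hα1) (by
        intro β hβ N hN hβN
        apply hα2 β _ N hN hβN
        rw [hchG, IsRoot.def, eval_map_algebraMap] at hβ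
        exact hβ)
      have hGm : bcE K G ∈ Γ.map (bcE K) := ⟨G, hG, rfl⟩
      obtain ⟨i₀, hi₀⟩ := hset.eig_class hmn hGm hv
      refine ⟨i₀, MulAction.stabilizer (K ≃ₐ[E] K) α, ?_, ?_⟩
      · intro σ hσ
        exact hset.class_fixed hmn hGm hv hi₀ (semiSym_bc K σ Γ)
          (MulAction.mem_stabilizer_iff.1 hσ) _ (hsm σ i₀)
      · rw [index_stab]
        exact hα3)
  have hnt : Nontrivial (K ⊗[E] V) := by
    have hnz : Nonempty (Rt P) := by
      rw [← Fintype.card_pos_iff, card_rt hP]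
      exact hP.natDegree_pos
    obtain ⟨x⟩ := hnz
    exact ⟨⟨b x, 0, b.ne_zero x⟩⟩
  refine odense hset (fun i j => hall i j) (bcE K g) m ?_ (algebraMap E K μ) (fK_sim g μ hμ) ?_
  · rw [Module.finrank_baseChange, hm]
  · rw [bcE_coe, LinearMap.det_baseChange, hdet, map_pow]

end

end Pool.Agent.H91.Mono
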