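import Pool.Agent.H91.Mono.Ort3

/-! Generation of block orthogonal groups by root elements and torus elements. -/

set_option linter.unusedSectionVars false

namespace Pool.Agent.H91.Mono

open Matrix
open scoped Classical

variable {K : Type*} [Field K] [CharZero K] {ι : Type*} [Fintype ι] [DecidableEq ι]

/-- an equivalence relation compatible with the involution -/
structure EqRel (bar : ι → ι) (E : ι → ι → Prop) : Prop where
  refl : ∀ i, E i i
  symm : ∀ i j, E i j → E j i
  trans : ∀ i j k, E i j → E j k → E i k
  dual : ∀ i j, E i j → E (bar i) (bar j)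

variable {bar : ι → ι} {c : ι → K} {E : ι → ι → Prop}

/-- the block of the class of `a` -/
noncomputable def blk (E : ι → ι → Prop) (a : ι) (g : Matrix ι ι K) :
    Matrix {i // E i a} {i // E i a} K := g.submatrix Subtype.val Subtype.val

lemma blk_mul (a : ι) {g g' : Matrix ι ι K} (hg : ∀ i, E i a → ∀ k, g i k ≠ 0 → E k a) :
    blk E a (g * g') = blk E a g * blk E a g' := by
  ext i j
  simp only [blk, Matrix.submatrix_apply, Matrix.mul_apply]
  rw [← Fintype.sum_subtype_add_sum_subtype (fun k => E k a) (fun k => g i.1 k * g' k j.1)]
  have h0 : ∑ k : {x // ¬ E x a}, g i.1 k.1 * g' k.1 j.1 = 0 := by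
    apply Finset.sum_eq_zero
    intro k _
    by_cases h1 : g i.1 k.1 = 0
    · rw [h1, zero_mul]
    · exact absurd (hg i.1 i.2 k.1 h1) k.2
  rw [h0, add_zero]

lemma blk_one (a : ι) : blk E a (1 : Matrix ι ι K) = 1 := by
  ext i j
  simp only [blk, Matrix.submatrix_apply, Matrix.one_apply, Subtype.ext_iff]

lemma supp_rows (hE : EqRel bar E) {g : Matrix ι ι K} (hg : Supp E g) (a : ι) :
    ∀ i, E i a → ∀ k, g i k ≠ 0 → E k a := fun i hi k hk =>
  hE.trans _ _ _ (hE.symm _ _ (hg i k hk)) hi

/-- blocks on self-dual classes have determinant one -/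
def BDet (bar : ι → ι) (E : ι → ι → Prop) (g : Matrix ι ι K) : Prop :=
  ∀ a, E (bar a) a → (blk E a g).det = 1

lemma BDet.mul (hE : EqRel bar E) {g g' : Matrix ι ι K} (hs : Supp E g) (hg : BDet bar E g)
    (hg' : BDet bar E g') : BDet bar E (g * g') := by
  intro a ha
  rw [blk_mul a (supp_rows hE hs a), Matrix.det_mul, hg a ha, hg' a ha, one_mul]

/-- generators fixing the basis vectors in `A` -/
inductive EIsGen (bar : ι → ι) (c : ι → K) (E : ι → ι → Prop) (A : Finset ι) :
    Matrix ι ι K → Prop
  | unip (i j : ι) (s : K) (hij : i ≠ j) (hibj : i ≠ bar j) (hE : E i j) (hi : i ∉ A)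
      (hj : j ∉ A) : EIsGen bar c E A (1 + s • root bar c i j)
  | tor (t : ι → K) (ht : ∀ i, t i * t (bar i) = 1) (hA : ∀ i ∈ A, t i = 1) :
      EIsGen bar c E A (Matrix.diagonal t)

/-- the monoid generated -/
def EN (bar : ι → ι) (c : ι → K) (E : ι → ι → Prop) (A : Finset ι) :
    Submonoid (Matrix ι ι K) :=
  Submonoid.closure {g | EIsGen bar c E A g}

lemma EN_mono {A B : Finset ι} (h : A ⊆ B) : EN bar c E B ≤ EN bar c E A := by
  apply Submonoid.closure_mono
  intro g hg
  cases hg with
  | unip i j s hij hb hE hi hj =>
    exact EIsGen.unip i j s hij hb hE (fun h1 => hi (h h1)) (fun h1 => hj (h h1))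
  | tor t ht hA => exact EIsGen.tor t ht (fun i hi => hA i (h hi))

/-- every element of `EN` has an inverse in `EN` -/
lemma EN_inv (h : OFrame bar c) {A : Finset ι} (hA : ∀ i ∈ A, bar i ∈ A) {g : Matrix ι ι K}
    (hg : g ∈ EN bar c E A) : ∃ g' ∈ EN bar c E A, g' * g = 1 := by
  induction hg using Submonoid.closure_induction with
  | mem g hg =>
    cases hg with
    | unip i j s hij hb hE hi hj =>
      refine ⟨1 + (-s) • root bar c i j, Submonoid.subset_closure
        (EIsGen.unip i j (-s) hij hb hE hi hj), ?_⟩
      have h1 := h.root_sq hij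
      rw [add_mul, mul_add, mul_add, one_mul, one_mul, mul_one, smul_mul_smul_comm, h1]
      simp
    | tor t ht htA =>
      refine ⟨Matrix.diagonal (fun i => t (bar i)), Submonoid.subset_closure
        (EIsGen.tor _ ?_ ?_), ?_⟩
      · intro i
        rw [h.inv, mul_comm]
        exact ht i
      · intro i hi
        exact htA _ (hA i hi)
      · rw [Matrix.diagonal_mul_diagonal, ← Matrix.diagonal_one]
        congr 1
        ext i
        rw [mul_comm]
        exact ht i
  | one => exact ⟨1, Submonoid.one_mem _, by simp⟩
  | mul x y _ _ hx hy =>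
    obtain ⟨x', hx', hxx⟩ := hx
    obtain ⟨y', hy', hyy⟩ := hy
    refine ⟨y' * x', Submonoid.mul_mem _ hy' hx', ?_⟩
    rw [mul_assoc, ← mul_assoc x' x y, hxx, one_mul, hyy]

lemma supp_transvection (hE : EqRel bar E) {i j : ι} (hij : E i j) (t : K) :
    Supp E (Matrix.transvection i j t) := by
  intro k l hkl
  rw [Matrix.transvection, Matrix.add_apply] at hkl
  by_cases h1 : k = l
  · rw [h1]; exact hE.refl l
  rw [Matrix.one_apply_ne h1, zero_add, Matrix.single_apply] at hkl
  by_cases h2 : i = k ∧ j = l
  · rw [← h2.1, ← h2.2]; exact hij
  · rw [if_neg h2] at hkl; exact absurd rfl hkl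

lemma det_blk_transvection (hE : EqRel bar E) {i j : ι} (hne : i ≠ j) (hij : E i j) (t : K)
    (a : ι) : (blk E a (Matrix.transvection i j t)).det = 1 := by
  by_cases hi : E i a
  · have hj : E j a := hE.trans _ _ _ (hE.symm _ _ hij) hi
    have h1 : blk E a (Matrix.transvection i j t) =
        Matrix.transvection (⟨i, hi⟩ : {k // E k a}) ⟨j, hj⟩ t := by
      ext k l
      simp only [blk, Matrix.submatrix_apply, Matrix.transvection, Matrix.add_apply,
        Matrix.one_apply, Matrix.single_apply, Subtype.ext_iff]
    rw [h1]
    exact Matrix.det_transvection_of_ne _ _ (fun h2 => hne (congrArg Subtype.val h2)) t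
  · have h1 : blk E a (Matrix.transvection i j t) = 1 := by
      ext k l
      simp only [blk, Matrix.submatrix_apply, Matrix.transvection, Matrix.add_apply,
        Matrix.one_apply, Matrix.single_apply, Subtype.ext_iff]
      have h2 : ¬ (i = k.1 ∧ j = l.1) := fun h3 => hi (by rw [h3.1]; exact k.2)
      rw [if_neg h2, add_zero]
    rw [h1, Matrix.det_one]

lemma root_eq_transvection (h : OFrame bar c) {i j : ι} (s : K) :
    (1 + s • root bar c i j) = Matrix.transvection i j (s * c j) *
      Matrix.transvection (bar j) (bar i) (-(s * c i)) := by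
  rw [Matrix.transvection, Matrix.transvection, add_mul, mul_add, mul_add, one_mul, one_mul,
    mul_one, Matrix.single_mul_single_of_ne _ _ _ _ (h.nofix j).symm, add_zero, root,
    smul_sub, Matrix.smul_single, Matrix.smul_single, smul_eq_mul, smul_eq_mul,
    ← Matrix.single_neg]
  abel

lemma bdet_unip (h : OFrame bar c) (hE : EqRel bar E) {i j : ι} (hne : i ≠ j) (hij : E i j)
    (s : K) : BDet bar E (1 + s • root bar c i j) := by
  intro a _
  have hbb : bar j ≠ bar i := fun h1 => hne (h.bar_inj h1.symm)
  rw [root_eq_transvection h, blk_mul a (supp_rows hE (supp_transvection hE hij _) a),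
    Matrix.det_mul, det_blk_transvection hE hne hij,
    det_blk_transvection hE hbb (hE.dual _ _ (hE.symm _ _ hij)), one_mul]

lemma supp_unip (h : OFrame bar c) (hE : EqRel bar E) {i j : ι} (hij : E i j) (s : K) :
    Supp E (1 + s • root bar c i j) := by
  rw [root_eq_transvection h]
  intro k l hkl
  rw [Matrix.mul_apply] at hkl
  obtain ⟨m, _, hm⟩ := Finset.exists_ne_zero_of_sum_ne_zero hkl
  exact hE.trans _ _ _ (supp_transvection hE hij _ _ _ (left_ne_zero_of_mul hm))
    (supp_transvection hE (hE.dual _ _ (hE.symm _ _ hij)) _ _ _ (right_ne_zero_of_mul hm))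

lemma bdet_tor (h : OFrame bar c) (hE : EqRel bar E) {t : ι → K}
    (ht : ∀ i, t i * t (bar i) = 1) : BDet bar E (Matrix.diagonal t) := by
  intro a ha
  have h1 : blk E a (Matrix.diagonal t) = Matrix.diagonal (fun i : {i // E i a} => t i.1) := by
    ext k l
    simp only [blk, Matrix.submatrix_apply, Matrix.diagonal_apply, Subtype.ext_iff]
  rw [h1, Matrix.det_diagonal]
  apply Finset.prod_involution (fun (i : {i // E i a}) _ =>
    (⟨bar i.1, hE.trans _ _ _ (hE.dual _ _ i.2) ha⟩ : {i // E i a}))
  · intro i _
    exact ht i.1
  · intro i _ _ h2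
    exact h.nofix i.1 (congrArg Subtype.val h2)
  · intro i _
    exact Finset.mem_univ _
  · intro i _
    exact Subtype.ext (h.inv i.1)

lemma EN_prop (h : OFrame bar c) (hE : EqRel bar E) {A : Finset ι} (hA : ∀ i ∈ A, bar i ∈ A)
    {g : Matrix ι ι K} (hg : g ∈ EN bar c E A) : Pres bar c g ∧ Supp E g ∧ BDet bar E g ∧
      ∀ a ∈ A, g.mulVec (Pi.single a 1) = Pi.single a 1 := by
  induction hg using Submonoid.closure_induction with
  | mem g hg =>
    cases hg with
    | unip i j s hij hb hE' hi hj =>
      refine ⟨h.pres_unip hij hb s, supp_unip h hE hE' s, bdet_unip h hE hij hE' s, ?_⟩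
      intro a ha
      ext l
      rw [unip_mulVec]
      have h1 : j ≠ a := fun h5 => hj (h5 ▸ ha)
      have h2 : bar i ≠ a := fun h5 => hi (by rw [← h.inv i, h5]; exact hA a ha)
      simp [h1, h2]
    | tor t ht htA =>
      refine ⟨h.pres_tor ht, ?_, bdet_tor h hE ht, ?_⟩
      · intro k l hkl
        by_cases h1 : k = l
        · rw [h1]; exact hE.refl l
        · exact absurd (Matrix.diagonal_apply_ne _ h1) hkl
      · intro a ha
        ext l
        rw [Matrix.mulVec_diagonal]
        by_cases h1 : l = a
        · subst h1; rw [htA l ha, one_mul]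
        · simp [h1]
  | one =>
    refine ⟨fun u v => by rw [Matrix.one_mulVec, Matrix.one_mulVec], ?_, ?_,
      fun a _ => by rw [Matrix.one_mulVec]⟩
    · intro k l hkl
      by_cases h1 : k = l
      · rw [h1]; exact hE.refl l
      · exact absurd (Matrix.one_apply_ne h1) hkl
    · intro a _
      rw [blk_one, Matrix.det_one]
  | mul x y _ _ hx hy =>
    refine ⟨hx.1.mul hy.1, ?_, hx.2.2.1.mul hE hx.2.1 hy.2.2.1, fun a ha => ?_⟩
    · intro i j hij
      rw [Matrix.mul_apply] at hij
      obtain ⟨k, _, hk⟩ := Finset.exists_ne_zero_of_sum_ne_zero hij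
      exact hE.trans _ _ _ (hx.2.1 i k (left_ne_zero_of_mul hk))
        (hy.2.1 k j (right_ne_zero_of_mul hk))
    · rw [← Matrix.mulVec_mulVec, hy.2.2.2 a ha, hx.2.2.2 a ha]

/-- clearing a vector -/
lemma eclear_aux (h : OFrame bar c) (hE : EqRel bar E) {A : Finset ι}
    (hA : ∀ i ∈ A, bar i ∈ A) {a : ι}
    (ha : a ∉ A) (n : ℕ) : ∀ v : ι → K, (∀ k, v k ≠ 0 → E k a ∧ k ∉ A) → v a ≠ 0 →
      (Finset.univ.filter (fun k => k ≠ a ∧ k ≠ bar a ∧ v k ≠ 0)).card ≤ n →
      ∃ g ∈ EN bar c E A, (∀ k, k ≠ a → k ≠ bar a → g.mulVec v k = 0) ∧ g.mulVec v a = v a ∧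
        g.mulVec (Pi.single (bar a) 1) = Pi.single (bar a) 1 := by
  have hba : bar a ≠ a := h.nofix a
  induction n with
  | zero =>
    intro v hv hva hcard
    refine ⟨1, Submonoid.one_mem _, ?_, by rw [Matrix.one_mulVec], by rw [Matrix.one_mulVec]⟩
    intro k h1 h2
    rw [Matrix.one_mulVec]
    by_contra h3
    have : k ∈ Finset.univ.filter (fun k => k ≠ a ∧ k ≠ bar a ∧ v k ≠ 0) := by
      simp [h1, h2, h3]
    rw [Finset.card_eq_zero.1 (Nat.le_zero.1 hcard)] at this
    simp at this
  | succ n ih =>
    intro v hv hva hcard
    by_cases hex : ∃ k, k ≠ a ∧ k ≠ bar a ∧ v k ≠ 0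
    · obtain ⟨k, hka, hkb, hvk⟩ := hex
      obtain ⟨hkE, hkA⟩ := hv _ hvk
      have hca := h.c0 a
      have hak : bar a ≠ k := fun h5 => hkb h5.symm
      let g : Matrix ι ι K := 1 + (-(v k) / (c a * v a)) • root bar c k a
      have hg : g ∈ EN bar c E A :=
        Submonoid.subset_closure (EIsGen.unip _ _ _ hka hkb hkE hkA ha)
      have hgv : ∀ l, g.mulVec v l = v l + (-(v k) / (c a * v a)) *
          ((if k = l then c a * v a else 0) - (if bar a = l then c k * v (bar k) else 0)) :=
        fun l => unip_mulVec k a _ v l
      have hgk : g.mulVec v k = 0 := by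
        rw [hgv, if_pos rfl, if_neg hak]
        field_simp
        ring
      have hga : g.mulVec v a = v a := by
        rw [hgv, if_neg hka, if_neg hba]
        ring
      have hgo : ∀ l, l ≠ k → l ≠ bar a → g.mulVec v l = v l := by
        intro l h1 h2
        rw [hgv, if_neg (fun h5 => h1 h5.symm), if_neg (fun h5 => h2 h5.symm)]
        ring
      have hv' : ∀ l, g.mulVec v l ≠ 0 → E l a ∧ l ∉ A := by
        intro l hl
        by_cases h1 : l = k
        · rw [h1]; exact ⟨hkE, hkA⟩
        by_cases h2 : l = bar a
        · subst h2
          have h3 : v (bar a) ≠ 0 ∨ v (bar k) ≠ 0 := by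
            by_contra hcon
            push Not at hcon
            apply hl
            rw [hgv, hcon.1, hcon.2, if_neg (fun h5 => hkb h5)]
            simp
          have hnA : bar a ∉ A := fun h5 => ha (by rw [← h.inv a]; exact hA _ h5)
          refine ⟨?_, hnA⟩
          rcases h3 with h3 | h3
          · exact (hv _ h3).1
          · have h4 := (hv _ h3).1
            have h5 := hE.dual _ _ h4
            rw [h.inv] at h5
            exact hE.trans _ _ _ (hE.symm _ _ h5) hkE
        · rw [hgo l h1 h2] at hl
          exact hv l hl
      have hcard' : (Finset.univ.filter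
          (fun l => l ≠ a ∧ l ≠ bar a ∧ g.mulVec v l ≠ 0)).card ≤ n := by
        have hsub : Finset.univ.filter (fun l => l ≠ a ∧ l ≠ bar a ∧ g.mulVec v l ≠ 0) ⊆
            (Finset.univ.filter (fun l => l ≠ a ∧ l ≠ bar a ∧ v l ≠ 0)).erase k := by
          intro l hl
          simp only [Finset.mem_filter, Finset.mem_univ, true_and, Finset.mem_erase] at hl ⊢
          have h1 : l ≠ k := by
            rintro rfl
            exact hl.2.2 hgk
          refine ⟨h1, hl.1, hl.2.1, ?_⟩
          rw [← hgo l h1 hl.2.1]
          exact hl.2.2
        have h1 := Finset.card_le_card hsub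
        have hmem : k ∈ Finset.univ.filter (fun l => l ≠ a ∧ l ≠ bar a ∧ v l ≠ 0) := by
          simp [hka, hkb, hvk]
        rw [Finset.card_erase_of_mem hmem] at h1
        omega
      obtain ⟨g', hg', h1, h2, h3⟩ := ih (g.mulVec v) hv' (by rw [hga]; exact hva) hcard'
      refine ⟨g' * g, Submonoid.mul_mem _ hg' hg, ?_, ?_, ?_⟩
      · intro l hl1 hl2
        rw [← Matrix.mulVec_mulVec]
        exact h1 l hl1 hl2
      · rw [← Matrix.mulVec_mulVec, h2, hga]
      · rw [← Matrix.mulVec_mulVec]
        have h3' : g.mulVec (Pi.single (bar a) 1) = Pi.single (bar a) 1 := by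
          ext l
          have h4 : ((1 + (-(v k) / (c a * v a)) • root bar c k a).mulVec
            (Pi.single (bar a) (1 : K))) l = _ := unip_mulVec k a _ _ l
          show ((1 + (-(v k) / (c a * v a)) • root bar c k a).mulVec
            (Pi.single (bar a) (1 : K))) l = _
          rw [h4]
          have h5 : ¬ (bar k = bar a) := fun h6 => hka (h.bar_inj h6)
          simp [Pi.single_apply, hba.symm, h5]
        rw [h3', h3]
    · apply ih v hv hva
      push Not at hex
      rw [Finset.card_eq_zero.2]
      · exact Nat.zero_le _
      · ext k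
        simp only [Finset.mem_filter, Finset.mem_univ, true_and, Finset.notMem_empty, iff_false]
        intro h5
        exact h5.2.2 (hex k h5.1 h5.2.1)

/-- clearing an isotropic vector -/
lemma eclear (h : OFrame bar c) (hE : EqRel bar E) {A : Finset ι} (hA : ∀ i ∈ A, bar i ∈ A)
    {a : ι} (ha : a ∉ A) (v : ι → K) (hv : ∀ k, v k ≠ 0 → E k a ∧ k ∉ A) (hva : v a ≠ 0)
    (hiso : bil bar c v v = 0) :
      ∃ g ∈ EN bar c E A, g.mulVec v = Pi.single a (v a) ∧
        g.mulVec (Pi.single (bar a) 1) = Pi.single (bar a) 1 := by
  obtain ⟨g, hg, h1, h2, h3⟩ := eclear_aux h hE hA ha _ v hv hva le_rfl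
  refine ⟨g, hg, ?_, h3⟩
  have hp := (EN_prop h hE hA hg).1 v v
  rw [hiso, bil, Finset.sum_eq_add_of_mem a (bar a) (Finset.mem_univ _) (Finset.mem_univ _)
    (h.nofix a).symm] at hp
  · rw [h.inv, h.cpos, h2] at hp
    have h4 : (2 : K) * (c a * (v a * g.mulVec v (bar a))) = 0 := by linear_combination hp
    have h5 : g.mulVec v (bar a) = 0 := by
      rcases mul_eq_zero.1 h4 with h6 | h6
      · exact absurd h6 two_ne_zero
      · rcases mul_eq_zero.1 h6 with h7 | h7
        · exact absurd h7 (h.c0 a)
        · rcases mul_eq_zero.1 h7 with h8 | h8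
          · exact absurd h8 hva
          · exact h8
    ext k
    by_cases hk1 : k = a
    · subst hk1; rw [h2, Pi.single_eq_same]
    · rw [Pi.single_eq_of_ne hk1]
      by_cases hk2 : k = bar a
      · rw [hk2]; exact h5
      · exact h1 k hk1 hk2
  · intro k _ hk
    rw [h1 k hk.1 hk.2]
    ring

/-- **Generation, block orthogonal case.** -/
theorem egen_aux (h : OFrame bar c) (hE : EqRel bar E) (n : ℕ) :
    ∀ (A : Finset ι), (∀ i ∈ A, bar i ∈ A) →
    (Finset.univ \ A).card ≤ n → ∀ g : Matrix ι ι K, Pres bar c g → Supp E g → BDet bar E g →
    (∀ a ∈ A, g.mulVec (Pi.single a 1) = Pi.single a 1) → g ∈ EN bar c E A := by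
  induction n with
  | zero =>
    intro A hA hcard g hg hs hd hfix
    have hall : ∀ a, a ∈ A := by
      intro a
      by_contra h1
      have : a ∈ Finset.univ \ A := by simp [h1]
      rw [Finset.card_eq_zero.1 (Nat.le_zero.1 hcard)] at this
      simp at this
    have : g = 1 := by
      ext k l
      have h1 := congrFun (hfix l (hall l)) k
      rw [Matrix.mulVec_single_one] at h1
      rw [Matrix.col_apply] at h1
      rw [h1, Matrix.one_apply, Pi.single_apply]
    rw [this]
    exact Submonoid.one_mem _
  | succ n ih =>
    intro A hA hcard g hg hs hd hfix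
    by_cases hall : ∀ a, a ∈ A
    · apply ih A hA _ g hg hs hd hfix
      rw [Finset.card_eq_zero.2]
      · exact Nat.zero_le _
      · ext a; simp [hall a]
    · push Not at hall
      obtain ⟨a, ha⟩ := hall
      have hba := h.nofix a
      have hbaA : bar a ∉ A := fun h5 => ha (by rw [← h.inv a]; exact hA _ h5)
      have colv : ∀ (g : Matrix ι ι K) (a k : ι), g.mulVec (Pi.single a 1) k = g k a := by
        intro g a k
        rw [Matrix.mulVec_single_one, Matrix.col_apply]
      have cond : ∀ g : Matrix ι ι K, Pres bar c g → Supp E g →
          (∀ a ∈ A, g.mulVec (Pi.single a 1) = Pi.single a 1) → ∀ b, b ∉ A → ∀ k,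
          g.mulVec (Pi.single b 1) k ≠ 0 → E k b ∧ k ∉ A := by
        intro g hg hs hfix b hb k hk
        refine ⟨hs k b (by rwa [colv] at hk), ?_⟩
        intro hkA
        apply hk
        have h1 := hg (Pi.single b 1) (Pi.single (bar k) 1)
        rw [hfix (bar k) (hA k hkA), h.bil_single_right, h.bil_single_right, h.inv] at h1
        have h2 : (Pi.single b 1 : ι → K) k = 0 := by
          have : k ≠ b := fun h5 => hb (h5 ▸ hkA)
          simp [this]
        rw [h2, mul_one, mul_zero, mul_one] at h1
        rcases mul_eq_zero.1 h1 with h3 | h3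
        · exact absurd h3 (h.c0 k)
        · exact h3
      have isoc : ∀ g : Matrix ι ι K, Pres bar c g → ∀ b, bil bar c
          (g.mulVec (Pi.single b 1)) (g.mulVec (Pi.single b 1)) = 0 := by
        intro g hg b
        rw [hg, bil_single_left, Pi.single_eq_of_ne (h.nofix b), mul_zero]
      -- step 0 : make the (a,a) entry nonzero
      obtain ⟨g0, hg0, hg0a⟩ : ∃ g0 ∈ EN bar c E A,
          (g0 * g).mulVec (Pi.single a 1) a ≠ 0 := by
        by_cases h1 : g.mulVec (Pi.single a 1) a = 0
        · by_cases hk : ∃ k, k ≠ bar a ∧ g.mulVec (Pi.single a 1) k ≠ 0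
          · obtain ⟨k, hkb, hk⟩ := hk
            have hka : k ≠ a := by
              rintro rfl
              exact hk h1
            obtain ⟨hkE, hkA⟩ := cond g hg hs hfix a ha k hk
            have hakb : a ≠ bar k := fun h5 => hkb (by rw [h5, h.inv])
            refine ⟨1 + (1 : K) • root bar c a k, Submonoid.subset_closure
              (EIsGen.unip _ _ _ hka.symm hakb (hE.symm _ _ hkE) ha hkA), ?_⟩
            rw [← Matrix.mulVec_mulVec, unip_mulVec, h1, if_pos rfl, zero_add, one_mul,
              if_neg (fun h5 => hakb h5.symm), sub_zero]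
            exact mul_ne_zero (h.c0 k) hk
          · push Not at hk
            have hvb : g.mulVec (Pi.single a 1) (bar a) ≠ 0 := by
              intro h2
              have h3 : g.mulVec (Pi.single a 1) = 0 := by
                ext k
                by_cases h4 : k = bar a
                · rw [h4]; exact h2
                · exact hk k h4
              have h4 := hg (Pi.single a 1) (Pi.single (bar a) 1)
              rw [h3, h.bil_single_right] at h4
              simp only [bil, Pi.zero_apply, mul_zero, zero_mul, Finset.sum_const_zero, h.inv,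
                Pi.single_eq_same, mul_one] at h4
              exact h.c0 a h4.symm
            have hself : E (bar a) a := (cond g hg hs hfix a ha _ hvb).1
            by_cases hex : ∃ e, e ∉ A ∧ e ≠ a ∧ e ≠ bar a ∧ E e a
            · obtain ⟨e, heA, hea, heb, heE⟩ := hex
              have hebb : e ≠ bar (bar a) := by rw [h.inv]; exact hea
              have haeb : a ≠ bar e := fun h5 => heb (by rw [h5, h.inv])
              let u1 : Matrix ι ι K := 1 + (1 : K) • root bar c e (bar a)
              let u2 : Matrix ι ι K := 1 + (1 : K) • root bar c a e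
              have hu1 : u1 ∈ EN bar c E A := Submonoid.subset_closure
                (EIsGen.unip _ _ _ heb hebb (hE.trans _ _ _ heE (hE.symm _ _ hself)) heA hbaA)
              have hu2 : u2 ∈ EN bar c E A := Submonoid.subset_closure
                (EIsGen.unip _ _ _ hea.symm haeb (hE.symm _ _ heE) ha heA)
              refine ⟨u2 * u1, Submonoid.mul_mem _ hu2 hu1, ?_⟩
              set v := g.mulVec (Pi.single a 1) with hv
              have hve : v (bar e) = 0 := hk _ (fun h5 => hea (h.bar_inj h5))
              have hve' : v e = 0 := hk _ heb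
              have e1 : ∀ l, u1.mulVec v l = v l + 1 * ((if e = l then c (bar a) * v (bar a)
                  else 0) - (if bar (bar a) = l then c e * v (bar e) else 0)) :=
                fun l => unip_mulVec e (bar a) 1 v l
              have e2 : ∀ w l, u2.mulVec w l = w l + 1 * ((if a = l then c e * w e
                  else 0) - (if bar e = l then c a * w (bar a) else 0)) :=
                fun w l => unip_mulVec a e 1 w l
              rw [← Matrix.mulVec_mulVec, ← Matrix.mulVec_mulVec, ← hv, e2, if_pos rfl,
                if_neg (fun h5 => haeb h5.symm), sub_zero, e1, e1, if_neg hea, if_pos rfl, h1,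
                hve, hve']
              simp only [mul_zero, ite_self, sub_zero, zero_add, one_mul, h.cpos]
              exact mul_ne_zero (h.c0 e) (mul_ne_zero (h.c0 a) hvb)
            · -- improper block: contradiction with the determinant
              exfalso
              push Not at hex
              have hcompl : ∀ k, k ≠ a → k ≠ bar a → E k a → k ∈ A := by
                intro k h2 h3 h4
                by_contra h5
                exact hex k h5 h2 h3 h4
              set β := g.mulVec (Pi.single a 1) (bar a) with hβ
              have hga : ∀ k, g k a = if k = bar a then β else 0 := by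
                intro k
                rw [← colv g a k]
                by_cases h2 : k = bar a
                · rw [if_pos h2, h2]
                · rw [if_neg h2]; exact hk k h2
              -- the column of `bar a`
              set x := g a (bar a) with hx
              have hform : c a * β * x = c a := by
                have h2 := hg (Pi.single a 1) (Pi.single (bar a) 1)
                rw [bil_single_left, Pi.single_eq_same, mul_one] at h2
                rw [bil, Finset.sum_eq_single (bar a)] at h2
                · rw [h.inv, h.cpos, colv, colv, hga, if_pos rfl, ← hx] at h2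
                  rw [h2, mul_one]
                · intro k _ hkb
                  rw [colv, hga, if_neg hkb]
                  ring
                · simp
              have hx0 : x ≠ 0 := by
                intro h2
                rw [h2, mul_zero] at hform
                exact h.c0 a hform.symm
              have hβx : β * x = 1 := by
                apply mul_left_cancel₀ (h.c0 a)
                rw [mul_one, ← mul_assoc]
                exact hform
              have hzero : ∀ k, k ≠ a → k ≠ bar a → g k (bar a) = 0 := by
                intro k h2 h3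
                by_contra h4
                rw [← colv g (bar a) k] at h4
                obtain ⟨h5, h6⟩ := cond g hg hs hfix (bar a) hbaA k h4
                exact h6 (hcompl k h2 h3 (hE.trans _ _ _ h5 hself))
              have hgb : ∀ k, g k (bar a) = if k = a then x else 0 := by
                intro k
                by_cases h2 : k = a
                · rw [if_pos h2, h2]
                rw [if_neg h2]
                by_cases h3 : k = bar a
                · have h4 := isoc g hg (bar a)
                  rw [bil, Finset.sum_eq_add_of_mem a (bar a) (Finset.mem_univ _)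
                    (Finset.mem_univ _) hba.symm] at h4
                  · have ea : g.mulVec (Pi.single (bar a) 1) a = x := colv g (bar a) a
                    have eb : g.mulVec (Pi.single (bar a) 1) (bar a) = g (bar a) (bar a) :=
                      colv g (bar a) (bar a)
                    rw [h.inv, h.cpos, ea, eb] at h4
                    have h5 : (2 : K) * (c a * (x * g (bar a) (bar a))) = 0 := by
                      linear_combination h4
                    rcases mul_eq_zero.1 h5 with h6 | h6
                    · exact absurd h6 two_ne_zero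
                    · rcases mul_eq_zero.1 h6 with h7 | h7
                      · exact absurd h7 (h.c0 a)
                      · rcases mul_eq_zero.1 h7 with h8 | h8
                        · exact absurd h8 hx0
                        · rw [h3]; exact h8
                  · intro l _ hl
                    have h5 : g.mulVec (Pi.single (bar a) 1) l = 0 := by
                      rw [colv]
                      exact hzero l hl.1 hl.2
                    rw [h5]
                    ring
                · exact hzero k h2 h3
              have hgo : ∀ k l, l ∈ A → g k l = if k = l then 1 else 0 := by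
                intro k l hl
                rw [← colv g l k, hfix l hl, Pi.single_apply]
              -- swap the two rows of the block
              let a' : {i // E i a} := ⟨a, hE.refl a⟩
              let b' : {i // E i a} := ⟨bar a, hself⟩
              have hab' : a' ≠ b' := fun h5 => hba.symm (congrArg Subtype.val h5)
              have hsw : (blk E a g).submatrix (Equiv.swap a' b') id = Matrix.diagonal
                  (fun k => if k = a' then β else if k = b' then x else 1) := by
                ext k l
                rw [Matrix.submatrix_apply, id, Matrix.diagonal_apply]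
                show g (Equiv.swap a' b' k).1 l.1 = _
                by_cases hl1 : l = a'
                · subst hl1
                  show g _ a = _
                  rw [hga]
                  by_cases hk1 : k = a'
                  · rw [hk1, Equiv.swap_apply_left]
                    simp [b']
                  · rw [if_neg hk1]
                    by_cases hk2 : k = b'
                    · rw [hk2, Equiv.swap_apply_right]
                      exact if_neg hba.symm
                    · rw [Equiv.swap_apply_of_ne_of_ne hk1 hk2]
                      exact if_neg (fun h5 => hk2 (Subtype.ext h5))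
                · by_cases hl2 : l = b'
                  · subst hl2
                    show g _ (bar a) = _
                    rw [hgb]
                    by_cases hk1 : k = a'
                    · rw [hk1, Equiv.swap_apply_left, if_neg hab']
                      exact if_neg hba
                    · by_cases hk2 : k = b'
                      · rw [hk2, Equiv.swap_apply_right, if_pos rfl, if_pos rfl,
                          if_neg hab'.symm, if_pos rfl]
                      · rw [Equiv.swap_apply_of_ne_of_ne hk1 hk2, if_neg hk2]
                        exact if_neg (fun h5 => hk1 (Subtype.ext h5))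
                  · have hlA := hcompl l.1 (fun h5 => hl1 (Subtype.ext h5))
                      (fun h5 => hl2 (Subtype.ext h5)) l.2
                    rw [hgo _ l.1 hlA]
                    have na : ¬ (a' = l) := fun h5 => hl1 h5.symm
                    have nb : ¬ (b' = l) := fun h5 => hl2 h5.symm
                    have na' : ¬ (a'.1 = l.1) := fun h5 => na (Subtype.ext h5)
                    have nb' : ¬ (b'.1 = l.1) := fun h5 => nb (Subtype.ext h5)
                    by_cases hk1 : k = a'
                    · rw [hk1, Equiv.swap_apply_left, if_neg nb', if_neg na]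
                    · by_cases hk2 : k = b'
                      · rw [hk2, Equiv.swap_apply_right, if_neg na', if_neg nb]
                      · rw [Equiv.swap_apply_of_ne_of_ne hk1 hk2]
                        by_cases hkl : k = l
                        · rw [if_pos hkl, if_pos (congrArg Subtype.val hkl), if_neg hk1,
                            if_neg hk2]
                        · rw [if_neg hkl, if_neg (fun h5 => hkl (Subtype.ext h5))]
              have hdet := Matrix.det_permute (Equiv.swap a' b') (blk E a g)
              rw [hsw, Equiv.Perm.sign_swap hab', hd a hself, Matrix.det_diagonal] at hdet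
              have hprod : ∏ k, (if k = a' then β else if k = b' then x else 1) = β * x := by
                rw [← Finset.mul_prod_erase Finset.univ _ (Finset.mem_univ a'), if_pos rfl,
                  ← Finset.mul_prod_erase (Finset.univ.erase a') _
                    (Finset.mem_erase.2 ⟨hab'.symm, Finset.mem_univ _⟩), if_neg hab'.symm,
                  if_pos rfl]
                rw [Finset.prod_eq_one, mul_one]
                intro k hk5
                simp only [Finset.mem_erase, Finset.mem_univ, and_true] at hk5
                rw [if_neg hk5.2, if_neg hk5.1]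
              rw [hprod, hβx] at hdet
              have h9 : (2 : K) = 0 := by
                have h10 : (((-1 : ℤˣ) : ℤ) : K) = -1 := by norm_num
                rw [h10, mul_one] at hdet
                linear_combination hdet
              exact two_ne_zero h9
        · refine ⟨1, Submonoid.one_mem _, ?_⟩
          rwa [one_mul]
      obtain ⟨p01, p02, p03, p04⟩ := EN_prop h hE hA hg0
      have suppm : ∀ {g g' : Matrix ι ι K}, Supp E g → Supp E g' → Supp E (g * g') := by
        intro g g' hg hg' i j hij
        rw [Matrix.mul_apply] at hij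
        obtain ⟨k, _, hk⟩ := Finset.exists_ne_zero_of_sum_ne_zero hij
        exact hE.trans _ _ _ (hg i k (left_ne_zero_of_mul hk)) (hg' k j (right_ne_zero_of_mul hk))
      let g1 := g0 * g
      have hg1 : Pres bar c g1 := p01.mul hg
      have hs1 : Supp E g1 := suppm p02 hs
      have hd1 : BDet bar E g1 := p03.mul hE p02 hd
      have hf1 : ∀ b ∈ A, g1.mulVec (Pi.single b 1) = Pi.single b 1 := by
        intro b hb
        rw [← Matrix.mulVec_mulVec, hfix b hb, p04 b hb]
      -- step 1
      obtain ⟨g2', hg2', h21, h22⟩ := eclear h hE hA ha (g1.mulVec (Pi.single a 1))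
        (cond g1 hg1 hs1 hf1 a ha) hg0a (isoc g1 hg1 a)
      obtain ⟨q1, q2, q3, q4⟩ := EN_prop h hE hA hg2'
      let g2 := g2' * g1
      have hg2 : Pres bar c g2 := q1.mul hg1
      have hs2 : Supp E g2 := suppm q2 hs1
      have hd2 : BDet bar E g2 := q3.mul hE q2 hd1
      have hf2 : ∀ b ∈ A, g2.mulVec (Pi.single b 1) = Pi.single b 1 := by
        intro b hb
        rw [← Matrix.mulVec_mulVec, hf1 b hb, q4 b hb]
      let α := g1.mulVec (Pi.single a 1) a
      have h2a : g2.mulVec (Pi.single a 1) = Pi.single a α := by
        rw [← Matrix.mulVec_mulVec, h21]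
      -- step 2
      have hβ : c a * α * g2.mulVec (Pi.single (bar a) 1) (bar a) = c a := by
        have h5 := hg2 (Pi.single a 1) (Pi.single (bar a) 1)
        rw [h2a, bil_single_left, bil_single_left] at h5
        rw [h5]
        simp
      have hb0 : g2.mulVec (Pi.single (bar a) 1) (bar a) ≠ 0 := by
        intro h5
        rw [h5, mul_zero] at hβ
        exact h.c0 a hβ.symm
      obtain ⟨g3', hg3', h31, h32⟩ := eclear h hE hA hbaA (g2.mulVec (Pi.single (bar a) 1))
        (cond g2 hg2 hs2 hf2 (bar a) hbaA) hb0 (isoc g2 hg2 (bar a))
      rw [h.inv] at h32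
      obtain ⟨r1, r2, r3, r4⟩ := EN_prop h hE hA hg3'
      let g3 := g3' * g2
      have hg3 : Pres bar c g3 := r1.mul hg2
      have hs3 : Supp E g3 := suppm r2 hs2
      have hd3 : BDet bar E g3 := r3.mul hE r2 hd2
      have hf3 : ∀ b ∈ A, g3.mulVec (Pi.single b 1) = Pi.single b 1 := by
        intro b hb
        rw [← Matrix.mulVec_mulVec, hf2 b hb, r4 b hb]
      let β := g2.mulVec (Pi.single (bar a) 1) (bar a)
      have hαβ : α * β = 1 := by
        have := h.c0 a
        apply mul_left_cancel₀ this
        rw [mul_one, ← mul_assoc]
        exact hβ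
      have h3b : g3.mulVec (Pi.single (bar a) 1) = Pi.single (bar a) β := by
        rw [← Matrix.mulVec_mulVec, h31]
      have h3a : g3.mulVec (Pi.single a 1) = Pi.single a α := by
        rw [← Matrix.mulVec_mulVec, h2a]
        have h5 : (Pi.single a α : ι → K) = α • Pi.single a 1 := by
          ext k; simp [Pi.single_apply]
        rw [h5, Matrix.mulVec_smul, h32]
      -- step 3 : torus
      let t : ι → K := fun k => if k = a then β else if k = bar a then α else 1
      have hta : t a = β := by simp [t]
      have htb : t (bar a) = α := by simp [t, hba]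
      have hto : ∀ k, k ≠ a → k ≠ bar a → t k = 1 := by intro k h1 h2; simp [t, h1, h2]
      have htt : ∀ i, t i * t (bar i) = 1 := by
        intro i
        by_cases h1 : i = a
        · rw [h1, hta, htb, mul_comm]; exact hαβ
        by_cases h2 : i = bar a
        · rw [h2, h.inv, hta, htb]; exact hαβ
        rw [hto i h1 h2, hto (bar i) (fun h5 => h2 (by rw [← h5, h.inv]))
          (fun h5 => h1 (h.bar_inj h5)), mul_one]
      have htA : ∀ i ∈ A, t i = 1 := by
        intro i hi
        exact hto i (fun h5 => ha (h5 ▸ hi)) (fun h5 => hbaA (h5 ▸ hi))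
      have hT : Matrix.diagonal t ∈ EN bar c E A :=
        Submonoid.subset_closure (EIsGen.tor t htt htA)
      obtain ⟨s1, s2, s3, s4⟩ := EN_prop h hE hA hT
      let g4 := Matrix.diagonal t * g3
      have hg4 : Pres bar c g4 := s1.mul hg3
      have hs4 : Supp E g4 := suppm s2 hs3
      have hd4 : BDet bar E g4 := s3.mul hE s2 hd3
      have hf4 : ∀ b ∈ insert a (insert (bar a) A),
          g4.mulVec (Pi.single b 1) = Pi.single b 1 := by
        intro b hb
        rw [Finset.mem_insert, Finset.mem_insert] at hb
        rcases hb with rfl | rfl | hb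
        · rw [← Matrix.mulVec_mulVec, h3a]
          ext k
          rw [Matrix.mulVec_diagonal]
          by_cases h1 : k = b
          · subst h1; rw [hta, Pi.single_eq_same, Pi.single_eq_same, mul_comm]; exact hαβ
          · simp [h1]
        · rw [← Matrix.mulVec_mulVec, h3b]
          ext k
          rw [Matrix.mulVec_diagonal]
          by_cases h1 : k = bar a
          · subst h1; rw [htb, Pi.single_eq_same, Pi.single_eq_same]; exact hαβ
          · simp [h1]
        · rw [← Matrix.mulVec_mulVec, hf3 b hb, s4 b hb]
      have hA' : ∀ i ∈ insert a (insert (bar a) A), bar i ∈ insert a (insert (bar a) A) := by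
        intro i hi
        simp only [Finset.mem_insert] at hi ⊢
        rcases hi with rfl | rfl | hi
        · right; left; rfl
        · left; rw [h.inv]
        · right; right; exact hA i hi
      have hcard' : (Finset.univ \ insert a (insert (bar a) A)).card ≤ n := by
        have hsub : Finset.univ \ insert a (insert (bar a) A) ⊆ (Finset.univ \ A).erase a := by
          intro k hk
          simp only [Finset.mem_sdiff, Finset.mem_univ, true_and, Finset.mem_insert, not_or,
            Finset.mem_erase] at hk ⊢
          exact ⟨hk.1, hk.2.2⟩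
        have h1 := Finset.card_le_card hsub
        rw [Finset.card_erase_of_mem (by simp [ha])] at h1
        omega
      have hmem := ih _ hA' hcard' g4 hg4 hs4 hd4 hf4
      have hsubA : A ⊆ insert a (insert (bar a) A) := fun k hk =>
        Finset.mem_insert_of_mem (Finset.mem_insert_of_mem hk)
      have hmem' := EN_mono hsubA hmem
      -- undo
      obtain ⟨i1, hi1, e1⟩ := EN_inv h hA hT
      obtain ⟨i2, hi2, e2⟩ := EN_inv h hA hg3'
      obtain ⟨i3, hi3, e3⟩ := EN_inv h hA hg2'
      obtain ⟨i4, hi4, e4⟩ := EN_inv h hA hg0
      have hfin : g = i4 * (i3 * (i2 * (i1 * g4))) := by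
        show g = i4 * (i3 * (i2 * (i1 * (Matrix.diagonal t * (g3' * (g2' * (g0 * g)))))))
        rw [← mul_assoc i1, e1, one_mul, ← mul_assoc i2, e2, one_mul, ← mul_assoc i3, e3, one_mul,
          ← mul_assoc i4, e4, one_mul]
      rw [hfin]
      exact Submonoid.mul_mem _ hi4 (Submonoid.mul_mem _ hi3 (Submonoid.mul_mem _ hi2
        (Submonoid.mul_mem _ hi1 hmem')))

theorem egen (h : OFrame bar c) (hE : EqRel bar E) (g : Matrix ι ι K) (hg : Pres bar c g)
    (hs : Supp E g) (hd : BDet bar E g) : g ∈ EN bar c E ∅ :=
  egen_aux h hE _ ∅ (by simp) le_rfl g hg hs hd (by simp)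

/-- the Gram matrix -/
def gram (bar : ι → ι) (c : ι → K) : Matrix ι ι K := fun i j => if j = bar i then c i else 0

lemma pres_gram (h : OFrame bar c) {g : Matrix ι ι K} (hg : Pres bar c g) :
    gᵀ * gram bar c * g = gram bar c := by
  have colv : ∀ (g : Matrix ι ι K) (a k : ι), g.mulVec (Pi.single a 1) k = g k a := by
    intro g a k
    rw [Matrix.mulVec_single_one, Matrix.col_apply]
  ext i j
  have h1 := hg (Pi.single i 1) (Pi.single j 1)
  rw [bil_single_left (Pi.single j (1 : K)) i 1] at h1
  have h2 : (gᵀ * gram bar c * g) i j =
      bil bar c (g.mulVec (Pi.single i 1)) (g.mulVec (Pi.single j 1)) := by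
    rw [Matrix.mul_assoc, Matrix.mul_apply, bil]
    apply Finset.sum_congr rfl
    intro k _
    rw [Matrix.mul_apply, Finset.sum_eq_single (bar k), colv, colv, Matrix.transpose_apply]
    · simp only [gram, if_true]
      ring
    · intro l _ hl
      simp only [gram, if_neg hl, zero_mul]
    · simp
  rw [h2, h1]
  simp only [gram, mul_one]
  by_cases h3 : j = bar i
  · rw [if_pos h3, h3, Pi.single_eq_same, mul_one]
  · rw [if_neg h3, Pi.single_eq_of_ne (fun h5 => h3 h5.symm), mul_zero]

/-- the square of an isometry has blocks of determinant one -/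
lemma bdet_sq (h : OFrame bar c) (hE : EqRel bar E) {g : Matrix ι ι K} (hg : Pres bar c g)
    (hs : Supp E g) : BDet bar E (g * g) := by
  intro a ha
  rw [blk_mul a (supp_rows hE hs a), Matrix.det_mul]
  -- the Gram matrix of the block
  have hJrow : ∀ i, E i a → ∀ k, gram bar c i k ≠ 0 → E k a := by
    intro i hi k hk
    simp only [gram] at hk
    by_cases h1 : k = bar i
    · rw [h1]
      exact hE.trans _ _ _ (hE.dual _ _ hi) ha
    · rw [if_neg h1] at hk; exact absurd rfl hk
  have hTrow : ∀ i, E i a → ∀ k, gᵀ i k ≠ 0 → E k a := by
    intro i hi k hk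
    exact hE.trans _ _ _ (hs k i hk) hi
  have hTJrow : ∀ i, E i a → ∀ k, (gᵀ * gram bar c) i k ≠ 0 → E k a := by
    intro i hi k hk
    rw [Matrix.mul_apply] at hk
    obtain ⟨l, _, hl⟩ := Finset.exists_ne_zero_of_sum_ne_zero hk
    exact hJrow l (hTrow i hi l (left_ne_zero_of_mul hl)) k (right_ne_zero_of_mul hl)
  have h1 := congrArg (blk E a) (pres_gram h hg)
  rw [blk_mul a hTJrow, blk_mul a hTrow] at h1
  have h2 : blk E a gᵀ = (blk E a g)ᵀ := rfl
  rw [h2] at h1
  have h3 := congrArg Matrix.det h1
  rw [Matrix.det_mul, Matrix.det_mul, Matrix.det_transpose] at h3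
  -- the Gram matrix is invertible
  have hJ : (blk E a (gram bar c)).det ≠ 0 := by
    let J' : Matrix ι ι K := fun i j => if j = bar i then (c j)⁻¹ else 0
    have h4 : gram bar c * J' = 1 := by
      ext i j
      rw [Matrix.mul_apply, Finset.sum_eq_single (bar i)]
      · simp only [gram, J', if_true, h.inv]
        by_cases h5 : j = i
        · rw [if_pos h5, h5, mul_inv_cancel₀ (h.c0 i), Matrix.one_apply_eq]
        · rw [if_neg h5, mul_zero, Matrix.one_apply_ne (fun h6 => h5 h6.symm)]
      · intro k _ hk
        simp only [gram, if_neg hk, zero_mul]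
      · simp
    have h5 := congrArg (blk E a) h4
    rw [blk_mul a hJrow, blk_one] at h5
    have h6 := congrArg Matrix.det h5
    rw [Matrix.det_mul, Matrix.det_one] at h6
    intro h7
    rw [h7, zero_mul] at h6
    exact zero_ne_one h6
  apply mul_right_cancel₀ hJ
  rw [one_mul]
  linear_combination h3

end Pool.Agent.H91.Mono
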