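import Pool.Agent.H91.Mono.Ort4
import Pool.Agent.H91.Mono.Ort5

/-! Centralizers in both parities over a field `E`, without semisimplicity. -/

set_option linter.unusedSectionVars false

namespace Pool.Agent.H91.Mono

open Polynomial TensorProduct Pool.Agent.H93Tate

section Coord

variable {K : Type*} [Field K] [CharZero K] {V : Type*} [AddCommGroup V] [Module K V]
variable {ι : Type*} [Fintype ι] [DecidableEq ι]
variable {ψ : V →ₗ[K] V →ₗ[K] K} {Γ : Subgroup (V ≃ₗ[K] V)} {b : Module.Basis ι K V}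
    {bar : ι → ι} {lam : ι → K} {F : V ≃ₗ[K] V}

lemma OSetup.eqRel (h : OSetup ψ Γ b bar lam F) (hmn : ∀ i, OMn Γ b i) :
    EqRel bar (Rch Γ b) where
  refl := Rch_refl
  symm := fun i j h1 => hmn j i h1
  trans := fun _ _ _ h1 h2 => Rch_trans h1 h2
  dual := fun i j h1 => hmn _ _ (h.Rch_dual h1)

/-- all elements of `EN` are in the closure -/
lemma EN_cl [IsAlgClosed K] (h : OSetup ψ Γ b bar lam F)
    {g : Matrix ι ι K} (hg : g ∈ EN bar (cc ψ b bar) (Rch Γ b) ∅) :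
    InCl Γ (Matrix.toLin b b g) := by
  have hfr : OFrame bar (cc ψ b bar) := ⟨h.inv, h.nofix, h.ne, h.cc_pos⟩
  induction hg using Submonoid.closure_induction with
  | mem g hg =>
    cases hg with
    | unip i j s hij hibj hE hi hj =>
      have h1 := h.edge_of_rch hE hij hibj
      have hsq : Matrix.toLin b b (root bar (cc ψ b bar) i j) *
          Matrix.toLin b b (root bar (cc ψ b bar) i j) = 0 := by
        have h2 := Matrix.toLin_mul b b b (root bar (cc ψ b bar) i j)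
          (root bar (cc ψ b bar) i j)
        rw [hfr.root_sq hij, map_zero] at h2
        exact h2.symm
      have h3 := inCl_exp (x := Matrix.toLin b b (root bar (cc ψ b bar) i j)) h1
        (by rw [hsq, zero_mul]) s
      rw [hsq, smul_zero, add_zero] at h3
      have h4 : Matrix.toLin b b (1 + s • root bar (cc ψ b bar) i j) =
          1 + s • Matrix.toLin b b (root bar (cc ψ b bar) i j) := by
        rw [map_add, map_smul, Matrix.toLin_one]
        rfl
      rw [h4]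
      exact h3
    | tor t ht hA => exact h.cl_tor t 1 one_ne_zero ht
  | one =>
    rw [Matrix.toLin_one]
    exact inCl_one
  | mul x y _ _ hx hy =>
    rw [Matrix.toLin_mul b b b]
    exact inCl_mul hx hy

lemma OSetup.comm_proj (h : OSetup ψ Γ b bar lam F) (hmn : ∀ i, OMn Γ b i) (l : ι)
    (e : ι → K) (he1 : ∀ k, Rch Γ b k l → e k = 1) (he0 : ∀ k, ¬ Rch Γ b k l → e k = 0) :
    Comm Γ (dg b e) :=
  ⟨fixSub Γ, h.fixSub_finite, fun γ hγ v => h.proj_fix hmn l e he1 he0 γ hγ v⟩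

lemma OSetup.supp_of_comm (h : OSetup ψ Γ b bar lam F) (hmn : ∀ i, OMn Γ b i)
    (g : Module.End K V)
    (hg : ∀ c : Module.End K V, Comm Γ c → c * g = g * c) :
    Supp (Rch Γ b) (LinearMap.toMatrix b b g) := by
  classical
  intro k l hkl
  rw [LinearMap.toMatrix_apply] at hkl
  by_contra hcon
  let e : ι → K := fun m => if Rch Γ b m l then 1 else 0
  have h1 := hg (dg b e) (h.comm_proj hmn l e (fun k hk => if_pos hk) (fun k hk => if_neg hk))
  have h2 := congrArg (fun c : Module.End K V => b.repr (c (b l)) k) h1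
  simp only [Module.End.mul_apply] at h2
  rw [dg_repr, dg_apply] at h2
  have e1 : e k = 0 := if_neg hcon
  have e2 : e l = 1 := if_pos (Rch_refl l)
  rw [e1, e2, one_smul, zero_mul] at h2
  exact hkl h2.symm

/-- **Main theorem in coordinates, block orthogonal case.** -/
theorem edense [IsAlgClosed K] [Nontrivial V]
    (h : OSetup ψ Γ b bar lam F) (hmn : ∀ i, OMn Γ b i) (g : V ≃ₗ[K] V)
    (hsim : ∃ μ : K, ∀ u v, ψ (g u) (g v) = μ * ψ u v)
    (hg : Supp (Rch Γ b) (LinearMap.toMatrix b b (g : Module.End K V))) :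
    InCl Γ ((g : Module.End K V) * (g : Module.End K V)) := by
  obtain ⟨μ, hμ⟩ := hsim
  have hμ0 : μ ≠ 0 := by
    rintro rfl
    obtain ⟨i⟩ : Nonempty ι := b.index_nonempty
    apply h.ne i
    have h1 := hμ (g.symm (b i)) (g.symm (b (bar i)))
    rw [g.apply_symm_apply, g.apply_symm_apply, zero_mul] at h1
    exact h1
  obtain ⟨ν, hν⟩ := IsAlgClosed.exists_pow_nat_eq μ (n := 2) (by norm_num)
  have hν0 : ν ≠ 0 := by
    rintro rfl
    apply hμ0
    rw [← hν]
    norm_num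
  let g' : Module.End K V := ν⁻¹ • (g : Module.End K V)
  have hfr : OFrame bar (cc ψ b bar) := ⟨h.inv, h.nofix, h.ne, h.cc_pos⟩
  have hE := h.eqRel hmn
  have hs : Supp (Rch Γ b) (LinearMap.toMatrix b b g') := by
    intro k l hkl
    apply hg k l
    rw [LinearMap.toMatrix_apply] at hkl ⊢
    intro h0
    apply hkl
    show b.repr (ν⁻¹ • g (b l)) k = 0
    have h1 : b.repr (g (b l)) k = 0 := h0
    rw [map_smul, Finsupp.smul_apply, h1, smul_zero]
  have hp : Pres bar (cc ψ b bar) (LinearMap.toMatrix b b g') := by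
    have hrep : ∀ w : V, (b.repr (g' w) : ι → K) =
        (LinearMap.toMatrix b b g').mulVec (b.repr w) := by
      intro w
      rw [LinearMap.toMatrix_mulVec_repr]
    intro u v
    obtain ⟨u', hu⟩ : ∃ u' : V, (b.repr u' : ι → K) = u :=
      ⟨b.equivFun.symm u, b.equivFun.apply_symm_apply u⟩
    obtain ⟨v', hv⟩ : ∃ v' : V, (b.repr v' : ι → K) = v :=
      ⟨b.equivFun.symm v, b.equivFun.apply_symm_apply v⟩
    rw [← hu, ← hv, ← hrep, ← hrep, ← h.psi_bil, ← h.psi_bil]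
    show ψ (ν⁻¹ • g u') (ν⁻¹ • g v') = _
    rw [map_smul, map_smul, LinearMap.smul_apply, hμ, ← hν]
    simp only [smul_eq_mul]
    field_simp
  have hsq : Supp (Rch Γ b) (LinearMap.toMatrix b b g' * LinearMap.toMatrix b b g') := by
    intro i j hij
    rw [Matrix.mul_apply] at hij
    obtain ⟨k, _, hk⟩ := Finset.exists_ne_zero_of_sum_ne_zero hij
    exact Rch_trans (hs i k (left_ne_zero_of_mul hk)) (hs k j (right_ne_zero_of_mul hk))
  have h1 := egen hfr hE _ (hp.mul hp) hsq (bdet_sq hfr hE hp hs)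
  have h2 := EN_cl h h1
  rw [Matrix.toLin_mul b b b, Matrix.toLin_toMatrix] at h2
  have h3 : InCl Γ (dg b (fun _ => μ)) := h.cl_tor _ (μ * μ) (mul_ne_zero hμ0 hμ0) (fun _ => rfl)
  have h4 := inCl_mul h3 h2
  have h5 : dg b (fun _ => μ) * (g' ∘ₗ g') = (g : Module.End K V) * (g : Module.End K V) := by
    have h6 : dg b (fun _ : ι => μ) = μ • (1 : Module.End K V) := by
      apply b.ext
      intro i
      rw [dg_apply]
      rfl
    rw [h6]
    ext v
    show μ • (ν⁻¹ • g (ν⁻¹ • g v)) = g (g v)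
    rw [map_smul, smul_smul, smul_smul, ← hν]
    have : ν ^ 2 * ν⁻¹ * ν⁻¹ = 1 := by field_simp
    rw [this, one_smul]
  rwa [h5] at h4

end Coord

/-! ### Descent of the commutant -/

section DescComm

variable {E : Type*} [Field E] (K : Type*) [Field K] [Algebra E K] {V : Type*} [AddCommGroup V]
  [Module E V]

/-- contraction with a functional on `K` -/
noncomputable def ctr (κ : Module.Dual E K) : K ⊗[E] V →ₗ[E] V :=
  (TensorProduct.lid E V).toLinearMap ∘ₗ LinearMap.rTensor V κ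

lemma ctr_tmul (κ : Module.Dual E K) (a : K) (v : V) : ctr K κ (a ⊗ₜ[E] v) = κ a • v := by
  simp [ctr]

lemma ctr_bcE (κ : Module.Dual E K) (γ : V ≃ₗ[E] V) (x : K ⊗[E] V) :
    ctr K κ (bcE K γ x) = γ (ctr K κ x) := by
  induction x using TensorProduct.induction_on with
  | zero => simp
  | add x y hx hy => rw [map_add, map_add, map_add, map_add, hx, hy]
  | tmul a v => rw [bcE_tmul, ctr_tmul, ctr_tmul, map_smul]

lemma ctr_separates [FiniteDimensional E V] (x : K ⊗[E] V)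
    (h : ∀ κ : Module.Dual E K, ctr K κ x = 0) : x = 0 := by
  let e := Module.finBasis E V
  let eK := Algebra.TensorProduct.basis K e
  have key : ∀ (κ : Module.Dual E K) (y : K ⊗[E] V) (i), e.repr (ctr K κ y) i =
      κ (eK.repr y i) := by
    intro κ y i
    induction y using TensorProduct.induction_on with
    | zero => simp
    | add y z hy hz => rw [map_add, map_add, map_add, Finsupp.add_apply, Finsupp.add_apply,
        map_add, hy, hz]
    | tmul a v =>
      rw [ctr_tmul, map_smul, Finsupp.smul_apply, Algebra.TensorProduct.basis_repr_tmul,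
        Finsupp.smul_apply, Finsupp.mapRange_apply, smul_eq_mul, smul_eq_mul, mul_comm a,
        ← Algebra.smul_def, map_smul, smul_eq_mul, mul_comm]
  apply eK.repr.injective
  ext i
  rw [map_zero, Finsupp.zero_apply]
  apply (Module.forall_dual_apply_eq_zero_iff E _).1
  intro κ
  rw [← key, h κ, map_zero, Finsupp.zero_apply]

lemma comm_descend [FiniteDimensional E V] (Γ : Subgroup (V ≃ₗ[E] V)) (g : V ≃ₗ[E] V)
    (hg : ∀ c : Module.End E V, Comm Γ c → ∀ v, c (g v) = g (c v))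
    (c : Module.End K (K ⊗[E] V)) (hc : Comm (Γ.map (bcE K)) c) :
    c * ((bcE K g : K ⊗[E] V ≃ₗ[K] K ⊗[E] V) : Module.End K (K ⊗[E] V)) =
      ((bcE K g : K ⊗[E] V ≃ₗ[K] K ⊗[E] V) : Module.End K (K ⊗[E] V)) * c := by
  obtain ⟨Δ, hΔ, hcomm⟩ := hc
  let Δ' : Subgroup Γ := Δ.comap ((bcE K).subgroupMap Γ)
  have hΔ' : Δ'.FiniteIndex := by
    refine ⟨?_⟩
    rw [Subgroup.index_comap_of_surjective _ ((bcE K).subgroupMap_surjective Γ)]
    exact hΔ.index_ne_zero
  -- the contracted endomorphisms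
  let cκ : Module.Dual E K → Module.End E V := fun κ =>
    ctr K κ ∘ₗ (c.restrictScalars E) ∘ₗ (TensorProduct.mk E K V 1)
  have hcκ : ∀ κ v, cκ κ v = ctr K κ (c (1 ⊗ₜ[E] v)) := fun κ v => rfl
  have h1 : ∀ κ, Comm Γ (cκ κ) := by
    intro κ
    refine ⟨Δ', hΔ', ?_⟩
    intro γ hγ v
    have h2 := hcomm ((bcE K).subgroupMap Γ γ) hγ (1 ⊗ₜ[E] v)
    have h3 : (((bcE K).subgroupMap Γ γ : Γ.map (bcE K)) : K ⊗[E] V ≃ₗ[K] K ⊗[E] V) =
        bcE K (γ : V ≃ₗ[E] V) := rfl
    rw [h3, bcE_tmul] at h2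
    rw [hcκ, hcκ, h2, ctr_bcE]
  have h2 : ∀ v, c (bcE K g (1 ⊗ₜ[E] v)) = bcE K g (c (1 ⊗ₜ[E] v)) := by
    intro v
    rw [← sub_eq_zero]
    apply ctr_separates
    intro κ
    have h3 := hg (cκ κ) (h1 κ) v
    rw [hcκ, hcκ] at h3
    rw [map_sub, ctr_bcE, bcE_tmul, h3, sub_self]
  apply LinearMap.ext
  intro x
  show c (bcE K g x) = bcE K g (c x)
  induction x using TensorProduct.induction_on with
  | zero => simp
  | add x y hx hy => rw [map_add, map_add, hx, hy, map_add, map_add]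
  | tmul a v =>
    have h3 : (a ⊗ₜ[E] v : K ⊗[E] V) = a • (1 ⊗ₜ[E] v) := by
      rw [TensorProduct.smul_tmul', smul_eq_mul, mul_one]
    rw [h3, map_smul, map_smul, h2, map_smul, map_smul]

end DescComm

section

variable {p n : ℕ} [hp : Fact p.Prime] {P : ℚ[X]}

/-- **Self-conjugate case, both parities.** -/
theorem selfConj (hn : 0 < n) (hP : Irreducible P) (hdeg : 2 < P.natDegree)
    (hweil : ∀ z : ℂ, aeval z P = 0 → ‖z‖ ^ 2 = (p : ℝ) ^ n) (hmr : MaxRank ((p : ℂ) ^ n) P)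
    {E : Type*} [Field E] [CharZero E] (K : Type*) [Field K] [Algebra E K] [IsAlgClosure E K]
    {V : Type*} [AddCommGroup V] [Module E V] [FiniteDimensional E V] (ψ : V →ₗ[E] V →ₗ[E] E)
    (hψ : (∀ v, ψ v v = 0) ∨ (∀ u v, ψ u v = ψ v u)) (hnd : ∀ v, (∀ w, ψ v w = 0) → v = 0)
    (Γ : Subgroup (V ≃ₗ[E] V))
    (hsim : ∀ γ ∈ Γ, ∃ μ : E, ∀ u v, ψ ((γ : V ≃ₗ[E] V) u) ((γ : V ≃ₗ[E] V) v) = μ * ψ u v)
    (F : V ≃ₗ[E] V) (hF : F ∈ Γ)
    (hchar : LinearMap.charpoly (F : V →ₗ[E] V) = P.map (algebraMap ℚ E))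
    (hmult : ∀ u v, ψ (F u) (F v) = (p : E) ^ n * ψ u v)
    (hconj : ∀ x : K, aeval x (P.map (algebraMap ℚ E)) = 0 →
      minpoly E ((p : K) ^ n / x) = minpoly E x)
    (g : V ≃ₗ[E] V) (hg : ∃ μ : E, ∀ u v, ψ (g u) (g v) = μ * ψ u v)
    (hcomm : ∀ c : Module.End E V, Comm Γ c → ∀ v, c (g v) = g (c v)) :
    InCl Γ (((g * g : V ≃ₗ[E] V)) : Module.End E V) ∧
      ((∀ v, ψ v v = 0) → InCl Γ (g : Module.End E V)) := by
  classical
  have hac : IsAlgClosed K := IsAlgClosure.isAlgClosed E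
  have halg : Algebra.IsAlgebraic E K := IsAlgClosure.isAlgebraic
  have hcz : CharZero K := charZero_of_injective_algebraMap (algebraMap E K).injective
  let jE : P.SplittingField →ₐ[ℚ] K := IsAlgClosed.lift
  have hmapP : (P.map (algebraMap ℚ E)).map (algebraMap E K) = P.map (algebraMap ℚ K) := by
    rw [Polynomial.map_map]
    congr 1
    exact Subsingleton.elim _ _
  have hsimK : ∀ γ ∈ Γ.map (bcE K), ∃ μ : K, ∀ u v, fK K ψ ((γ : K ⊗[E] V ≃ₗ[K] K ⊗[E] V) u)
      ((γ : K ⊗[E] V ≃ₗ[K] K ⊗[E] V) v) = μ * fK K ψ u v := by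
    rintro _ ⟨γ, hγ, rfl⟩
    obtain ⟨μ, hμ⟩ := hsim γ hγ
    exact ⟨algebraMap E K μ, fK_sim γ μ hμ⟩
  have hcharK : LinearMap.charpoly ((bcE K F : K ⊗[E] V ≃ₗ[K] K ⊗[E] V) :
      K ⊗[E] V →ₗ[K] K ⊗[E] V) = P.map (algebraMap ℚ K) := by
    rw [bcE_coe, LinearMap.charpoly_baseChange, hchar, hmapP]
  have hmultK : ∀ u v, fK K ψ (bcE K F u) (bcE K F v) = (p : K) ^ n * fK K ψ u v := by
    intro u v
    rw [fK_sim F _ hmult, map_pow, map_natCast]
  have hqK : ∀ i : Rt P, ∃ σ : K ≃+* K, SemiSym (Γ.map (bcE K)) σ ∧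
      σ (jE i.1) = jE (inv hweil i).1 := by
    intro i
    have h0 : aeval (jE i.1) P = 0 := by rw [aeval_algHom_apply, rt_root, map_zero]
    have h1 : aeval (jE i.1) (P.map (algebraMap ℚ E)) = 0 := by
      rw [aeval_def, ← eval_map, hmapP, eval_map, ← aeval_def, h0]
    obtain ⟨σ, hσ⟩ := (Normal.minpoly_eq_iff_mem_orbit K).1 (hconj _ h1)
    refine ⟨σ, semiSym_bc K σ Γ, ?_⟩
    show σ (jE i.1) = jE ((p : P.SplittingField) ^ n / i.1)
    rw [map_div₀, map_pow, map_natCast]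
    exact hσ
  obtain ⟨μ, hμ⟩ := hg
  have hgg : ((bcE K (g * g) : K ⊗[E] V ≃ₗ[K] K ⊗[E] V) : Module.End K (K ⊗[E] V)) =
      ((bcE K g : K ⊗[E] V ≃ₗ[K] K ⊗[E] V) : Module.End K (K ⊗[E] V)) *
      ((bcE K g : K ⊗[E] V ≃ₗ[K] K ⊗[E] V) : Module.End K (K ⊗[E] V)) := by
    rw [map_mul]
    rfl
  have hnz : Nonempty (Rt P) := by
    rw [← Fintype.card_pos_iff, card_rt hP]
    exact hP.natDegree_pos
  have haltK : (∀ v, ψ v v = 0) →
      InCl (Γ.map (bcE K)) ((bcE K g : K ⊗[E] V ≃ₗ[K] K ⊗[E] V) : Module.End K (K ⊗[E] V)) := by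
    intro halt
    have hsw : ∀ u v, ψ v u = - ψ u v := fun u v => psi_swap halt u v
    obtain ⟨b, hset⟩ := setup_of hn hP hdeg hweil hmr (fK K ψ) (fK_alt halt)
      (fK_nondeg hsw hnd) (Γ.map (bcE K)) hsimK (bcE K F) ⟨F, hF, rfl⟩ hcharK hmultK jE
    have hmn := all_mn_gal hset hqK
    obtain ⟨x⟩ := hnz
    have hnt : Nontrivial (K ⊗[E] V) := ⟨⟨b x, 0, b.ne_zero x⟩⟩
    exact dense hset hmn (bcE K g) ⟨algebraMap E K μ, fK_sim g μ hμ⟩
      (supp_of_comm hset hmn _ (fun c hc => comm_descend K Γ g hcomm c hc))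
  refine ⟨?_, fun halt => inCl_descend K Γ g (haltK halt)⟩
  apply inCl_descend K
  rw [hgg]
  rcases hψ with halt | hsym
  · exact inCl_mul (haltK halt) (haltK halt)
  · obtain ⟨b, hset⟩ := osetup_of hn hP hdeg hweil hmr (fK K ψ) (fK_sym hsym)
      (fK_nondeg_sym hsym hnd) (Γ.map (bcE K)) hsimK (bcE K F) ⟨F, hF, rfl⟩ hcharK hmultK jE
    have hmn := hset.all_mn_gal hqK
    obtain ⟨x⟩ := hnz
    have hnt : Nontrivial (K ⊗[E] V) := ⟨⟨b x, 0, b.ne_zero x⟩⟩
    exact edense hset hmn (bcE K g) ⟨algebraMap E K μ, fK_sim g μ hμ⟩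
      (hset.supp_of_comm hmn _ (fun c hc => comm_descend K Γ g hcomm c hc))

end

end Pool.Agent.H91.Mono
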