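import Mathlib

/-! Root analysis of Lie subalgebras of `gsp` containing the diagonal torus. -/

set_option linter.unusedSectionVars false

namespace Pool.Agent.H91.Mono

open Matrix

variable {K : Type*} [Field K] [CharZero K] {ι : Type*} [Fintype ι] [DecidableEq ι]

/-- root matrix -/
noncomputable def root (bar : ι → ι) (c : ι → K) (i j : ι) : Matrix ι ι K :=
  Matrix.single i j (c j) - Matrix.single (bar j) (bar i) (c i)

lemma root_apply (bar : ι → ι) (c : ι → K) (i j k l : ι) :
    root bar c i j k l = (if i = k ∧ j = l then c j else 0) -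
      (if bar j = k ∧ bar i = l then c i else 0) := by
  simp [root, Matrix.single_apply]

/-- Conditions on a space of matrices. -/
structure Good (bar : ι → ι) (c : ι → K) (L : Submodule K (Matrix ι ι K)) : Prop where
  inv : ∀ i, bar (bar i) = i
  nofix : ∀ i, bar i ≠ i
  c0 : ∀ i, c i ≠ 0
  cneg : ∀ i, c (bar i) = - c i
  br : ∀ X ∈ L, ∀ Y ∈ L, X * Y - Y * X ∈ L
  tor : ∀ x : ι → K, (∀ i, x i + x (bar i) = 0) → Matrix.diagonal x ∈ L
  skew : ∀ X ∈ L, ∀ i j, i ≠ j → X i j * c i + X (bar j) (bar i) * c j = 0

variable {bar : ι → ι} {c : ι → K} {L : Submodule K (Matrix ι ι K)}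

lemma diag_filter (hL : Good bar c L) (x : ι → K) (hx : ∀ i, x i + x (bar i) = 0)
    {X : Matrix ι ι K} (hX : X ∈ L) (p : Polynomial K) :
    Matrix.of (fun k l => p.eval (x k - x l) * X k l) ∈ L := by
  induction p using Polynomial.induction_on' with
  | add p q hp hq =>
    have : Matrix.of (fun k l => (p + q).eval (x k - x l) * X k l) =
        Matrix.of (fun k l => p.eval (x k - x l) * X k l) +
        Matrix.of (fun k l => q.eval (x k - x l) * X k l) := by
      ext k l
      simp [add_mul]
    rw [this]
    exact L.add_mem hp hq
  | monomial n a =>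
    have h1 : ∀ n : ℕ, Matrix.of (fun k l => (x k - x l) ^ n * X k l) ∈ L := by
      intro n
      induction n with
      | zero =>
        have : Matrix.of (fun k l => (x k - x l) ^ 0 * X k l) = X := by
          ext k l; simp
        rw [this]; exact hX
      | succ n ih =>
        have h2 := hL.br _ (hL.tor x hx) _ ih
        have : Matrix.of (fun k l => (x k - x l) ^ (n + 1) * X k l) =
            Matrix.diagonal x * Matrix.of (fun k l => (x k - x l) ^ n * X k l) -
            Matrix.of (fun k l => (x k - x l) ^ n * X k l) * Matrix.diagonal x := by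
          ext k l
          simp only [Matrix.of_apply, Matrix.sub_apply, Matrix.diagonal_mul, Matrix.mul_diagonal]
          ring
        rw [this]
        exact h2
    have : Matrix.of (fun k l => (Polynomial.monomial n a).eval (x k - x l) * X k l) =
        a • Matrix.of (fun k l => (x k - x l) ^ n * X k l) := by
      ext k l
      simp [mul_assoc]
    rw [this]
    exact L.smul_mem _ (h1 n)

lemma filt [DecidableEq K] (hL : Good bar c L) (x : ι → K) (hx : ∀ i, x i + x (bar i) = 0) (d : K)
    {X : Matrix ι ι K} (hX : X ∈ L) :
    Matrix.of (fun k l => if x k - x l = d then X k l else 0) ∈ L := by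
  let s : Finset K := insert d (Finset.univ.image fun q : ι × ι => x q.1 - x q.2)
  let g : K → K := fun e => if e = d then 1 else 0
  let p : Polynomial K := Lagrange.interpolate s id g
  have hp : ∀ e ∈ s, p.eval e = g e := by
    intro e he
    have h1 := Lagrange.eval_interpolate_at_node g (s := s) (v := id) (Set.injOn_id _) he
    exact h1
  have h2 := diag_filter hL x hx hX p
  have : Matrix.of (fun k l => p.eval (x k - x l) * X k l) =
      Matrix.of (fun k l => if x k - x l = d then X k l else 0) := by
    ext k l
    simp only [Matrix.of_apply]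
    rw [hp _ (Finset.mem_insert_of_mem (Finset.mem_image_of_mem
      (fun q : ι × ι => x q.1 - x q.2) (Finset.mem_univ (k, l))))]
    simp [g]
  rwa [this] at h2

/-- projection to a root space -/
lemma proj (hL : Good bar c L) {X : Matrix ι ι K} (hX : X ∈ L) {i j : ι} (hij : i ≠ j)
    (h : X i j ≠ 0) : root bar c i j ∈ L := by
  classical
  have hci := hL.c0 i
  have hcj := hL.c0 j
  have hinj : ∀ a b, bar a = bar b → a = b := fun a b hab => by
    rw [← hL.inv a, ← hL.inv b, hab]
  by_cases hb : j = bar i
  · -- long root
    let x : ι → K := fun k => if k = i then 1 else if k = bar i then -1 else 0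
    have hx : ∀ k, x k + x (bar k) = 0 := by
      intro k
      have hn := hL.nofix i
      by_cases h1 : k = i
      · subst h1
        simp [x, hn]
      · by_cases h2 : k = bar i
        · subst h2
          simp [x, hn, hL.inv]
        · have h3 : bar k ≠ i := fun h => h2 (by rw [← h, hL.inv])
          have h4 : bar k ≠ bar i := fun h => h1 (hinj _ _ h)
          simp [x, h1, h2, h3, h4]
    have h1 := filt hL x hx 2 hX
    have h2 : Matrix.of (fun k l => if x k - x l = 2 then X k l else 0) =
        (X i j / (c j - c i)) • root bar c i j := by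
      have hd : c j - c i ≠ 0 := by
        rw [hb, hL.cneg]
        intro h0
        apply hci
        have : (2 : K) * c i = 0 := by linear_combination -h0
        rcases mul_eq_zero.1 this with h5 | h5
        · exact absurd h5 two_ne_zero
        · exact h5
      ext k l
      simp only [Matrix.of_apply, Matrix.smul_apply, root_apply, smul_eq_mul]
      have hbj : bar j = i := by rw [hb, hL.inv]
      rw [hbj, ← hb]
      have hji : j ≠ i := fun h => hij h.symm
      by_cases hk : k = i
      · subst hk
        by_cases hl : l = j
        · subst hl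
          have e1 : x k = 1 := by simp [x]
          have e2 : x l = -1 := by simp only [x]; rw [if_neg hji, if_pos hb]
          rw [e1, e2]
          simp only [and_self, if_true]
          rw [if_pos (by norm_num)]
          field_simp
        · have e1 : x k = 1 := by simp [x]
          have e2 : x l = 1 ∨ x l = 0 := by
            by_cases h5 : l = k
            · left; simp [x, h5]
            · right; simp only [x]; rw [if_neg h5, if_neg (fun h => hl (h.trans hb.symm))]
          have hl' : ¬ (j = l) := fun h => hl h.symm
          simp only [hl', and_false, if_false, sub_zero, mul_zero]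
          rcases e2 with e2 | e2 <;> rw [e1, e2] <;> norm_num
      · have hk' : ¬ (i = k) := fun h => hk h.symm
        simp only [hk', false_and, if_false, sub_zero, mul_zero]
        have e1 : x k = -1 ∨ x k = 0 := by
          by_cases h5 : k = bar i
          · left; simp only [x]; rw [if_neg hk, if_pos h5]
          · right; simp only [x]; rw [if_neg hk, if_neg h5]
        have e2 : x l = 1 ∨ x l = -1 ∨ x l = 0 := by
          by_cases h5 : l = i
          · left; simp [x, h5]
          · by_cases h6 : l = bar i
            · right; left; simp only [x]; rw [if_neg h5, if_pos h6]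
            · right; right; simp only [x]; rw [if_neg h5, if_neg h6]
        rcases e1 with e1 | e1 <;> rcases e2 with e2 | e2 | e2 <;> rw [e1, e2] <;> norm_num
    rw [h2] at h1
    have hne : X i j / (c j - c i) ≠ 0 := by
      apply div_ne_zero h
      rw [hb, hL.cneg]
      intro h0
      apply hci
      have : (2 : K) * c i = 0 := by linear_combination -h0
      rcases mul_eq_zero.1 this with h5 | h5
      · exact absurd h5 two_ne_zero
      · exact h5
    have h3 := L.smul_mem (X i j / (c j - c i))⁻¹ h1
    rwa [smul_smul, inv_mul_cancel₀ hne, one_smul] at h3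
  · -- short root
    have hji : j ≠ i := fun h => hij h.symm
    have hib : i ≠ bar i := fun h => hL.nofix i h.symm
    have hjb : j ≠ bar j := fun h => hL.nofix j h.symm
    have hibj : i ≠ bar j := fun h => hb (by rw [h, hL.inv])
    have hbb : bar i ≠ bar j := fun h => hij (hinj _ _ h)
    let x : ι → K := fun k => if k = i then 1 else if k = bar i then -1 else
      if k = j then 4 else if k = bar j then -4 else 0
    have xi : x i = 1 := by simp [x]
    have xbi : x (bar i) = -1 := by simp [x, hL.nofix i]
    have xj : x j = 4 := by simp [x, hji, hb]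
    have xbj : x (bar j) = -4 := by
      simp [x, hibj.symm, hbb.symm, hL.nofix j]
    have xo : ∀ k, k ≠ i → k ≠ bar i → k ≠ j → k ≠ bar j → x k = 0 := by
      intro k h1 h2 h3 h4
      simp [x, h1, h2, h3, h4]
    have hx : ∀ k, x k + x (bar k) = 0 := by
      intro k
      by_cases h1 : k = i
      · rw [h1, xi, xbi]; norm_num
      by_cases h2 : k = bar i
      · rw [h2, hL.inv, xi, xbi]; norm_num
      by_cases h3 : k = j
      · rw [h3, xj, xbj]; norm_num
      by_cases h4 : k = bar j
      · rw [h4, hL.inv, xj, xbj]; norm_num
      rw [xo k h1 h2 h3 h4, xo (bar k), add_zero]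
      · exact fun h => h2 (by rw [← h, hL.inv])
      · exact fun h => h1 (hinj _ _ h)
      · exact fun h => h4 (by rw [← h, hL.inv])
      · exact fun h => h3 (hinj _ _ h)
    have h1 := filt hL x hx (-3) hX
    have h2 : Matrix.of (fun k l => if x k - x l = -3 then X k l else 0) =
        (X i j / c j) • root bar c i j := by
      have hsk := hL.skew X hX i j hij
      have hval : ∀ k, (k = i ∧ x k = 1) ∨ (k = bar i ∧ x k = -1) ∨ (k = j ∧ x k = 4) ∨
          (k = bar j ∧ x k = -4) ∨ (k ≠ i ∧ k ≠ bar i ∧ k ≠ j ∧ k ≠ bar j ∧ x k = 0) := by
        intro k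
        by_cases h1 : k = i
        · left; exact ⟨h1, by rw [h1, xi]⟩
        by_cases h2 : k = bar i
        · right; left; exact ⟨h2, by rw [h2, xbi]⟩
        by_cases h3 : k = j
        · right; right; left; exact ⟨h3, by rw [h3, xj]⟩
        by_cases h4 : k = bar j
        · right; right; right; left; exact ⟨h4, by rw [h4, xbj]⟩
        right; right; right; right
        exact ⟨h1, h2, h3, h4, xo k h1 h2 h3 h4⟩
      have hiff : ∀ k l, x k - x l = -3 ↔ (k = i ∧ l = j) ∨ (k = bar j ∧ l = bar i) := by
        intro k l
        constructor
        · intro h0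
          rcases hval k with ⟨e1, v1⟩ | ⟨e1, v1⟩ | ⟨e1, v1⟩ | ⟨e1, v1⟩ | ⟨_, _, _, _, v1⟩ <;>
          rcases hval l with ⟨e2, v2⟩ | ⟨e2, v2⟩ | ⟨e2, v2⟩ | ⟨e2, v2⟩ | ⟨_, _, _, _, v2⟩ <;>
          rw [v1, v2] at h0 <;> first
            | exact Or.inl ⟨e1, e2⟩
            | exact Or.inr ⟨e1, e2⟩
            | (exfalso; norm_num at h0)
        · rintro (⟨rfl, rfl⟩ | ⟨rfl, rfl⟩)
          · rw [xi, xj]; norm_num
          · rw [xbi, xbj]; norm_num
      ext k l
      simp only [Matrix.of_apply, Matrix.smul_apply, root_apply, smul_eq_mul]
      by_cases h5 : k = i ∧ l = j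
      · obtain ⟨rfl, rfl⟩ := h5
        rw [if_pos ((hiff _ _).2 (Or.inl ⟨rfl, rfl⟩))]
        simp only [and_self, if_true]
        rw [if_neg (fun h => hibj h.1.symm)]
        field_simp
        ring
      · by_cases h6 : k = bar j ∧ l = bar i
        · obtain ⟨rfl, rfl⟩ := h6
          rw [if_pos ((hiff _ _).2 (Or.inr ⟨rfl, rfl⟩))]
          simp only [and_self, if_true]
          rw [if_neg (fun h => hibj h.1)]
          field_simp
          linear_combination hsk
        · rw [if_neg (fun h => by rcases (hiff _ _).1 h with h7 | h7 <;> [exact h5 h7; exact h6 h7])]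
          rw [if_neg (fun h => h5 ⟨h.1.symm, h.2.symm⟩), if_neg (fun h => h6 ⟨h.1.symm, h.2.symm⟩)]
          ring
    rw [h2] at h1
    have hne : X i j / c j ≠ 0 := div_ne_zero h hcj
    have h3 := L.smul_mem (X i j / c j)⁻¹ h1
    rwa [smul_smul, inv_mul_cancel₀ hne, one_smul] at h3

/-- transitivity -/
lemma root_trans (hL : Good bar c L) {h i j : ι} (h1 : root bar c h i ∈ L)
    (h2 : root bar c i j ∈ L) (hhi : h ≠ i) (hij : i ≠ j) (hhj : h ≠ j) :
    root bar c h j ∈ L := by
  have hinj : ∀ a b, bar a = bar b → a = b := fun a b hab => by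
    rw [← hL.inv a, ← hL.inv b, hab]
  have hci := hL.c0 i
  have hcj := hL.c0 j
  have hch := hL.c0 h
  have h3 := hL.br _ h1 _ h2
  apply proj hL h3 hhj
  rw [Matrix.sub_apply, Matrix.mul_apply, Matrix.mul_apply]
  have e1 : ∑ k, root bar c h i h k * root bar c i j k j =
      c i * (c j - if bar j = i ∧ bar i = j then c i else 0) -
      (if bar i = h then c h else 0) * (if bar h = i then c j else 0) := by
    have : ∀ k, root bar c h i h k * root bar c i j k j =
        (if i = k then c i * (c j - if bar j = i ∧ bar i = j then c i else 0) else 0) -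
        (if bar h = k then (if bar i = h then c h else 0) * (if bar h = i then c j else 0)
          else 0) := by
      intro k
      rw [root_apply, root_apply]
      by_cases hik : i = k
      · subst hik
        by_cases hhk : bar h = i
        · have hih : bar i = h := by rw [← hhk, hL.inv]
          simp [hhk, hih, hhj, sub_mul]
        · have hih : ¬ (bar i = h) := fun h5 => hhk (by rw [← h5, hL.inv])
          simp [hhk, hih]
      · by_cases hhk : bar h = k
        · subst hhk
          have h6 : ¬ (bar h = i) := fun h5 => hik h5.symm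
          have h7 : ¬ (bar i = h) := fun h5 => h6 (by rw [← h5, hL.inv])
          simp [hik, h7]
        · simp [hik, hhk]
    simp only [this, Finset.sum_sub_distrib, Finset.sum_ite_eq, Finset.mem_univ, if_true]
  have e2 : ∑ k, root bar c i j h k * root bar c h i k j =
      if bar j = h then c i * c h else 0 := by
    have : ∀ k, root bar c i j h k * root bar c h i k j =
        if bar i = k then (if bar j = h then c i * c h else 0) else 0 := by
      intro k
      rw [root_apply, root_apply]
      have n1 : ¬ (i = h ∧ j = k) := fun h5 => hhi h5.1.symm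
      have n2 : ¬ (h = k ∧ i = j) := fun h5 => hij h5.2
      rw [if_neg n1, if_neg n2]
      by_cases hik : bar i = k
      · subst hik
        by_cases hjh : bar j = h
        · have : bar h = j := by rw [← hjh, hL.inv]
          simp [hjh, this]
        · have : ¬ (bar h = j) := fun h5 => hjh (by rw [← h5, hL.inv])
          simp [hjh]
      · simp [hik]
    simp only [this, Finset.sum_ite_eq, Finset.mem_univ, if_true]
  rw [e1, e2]
  have two_ne : ∀ x : K, x ≠ 0 → (2 : K) * x ≠ 0 := fun x hx => mul_ne_zero two_ne_zero hx
  by_cases c1 : bar j = i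
  · have c1' : bar i = j := by rw [← c1, hL.inv]
    have c2 : ¬ (bar i = h) := fun h5 => hhj (by rw [← h5, c1'])
    have c3 : ¬ (bar j = h) := fun h5 => hhi (by rw [← h5, c1])
    rw [if_pos ⟨c1, c1'⟩, if_neg c2, if_neg c3]
    have h5 : c j = - c i := by rw [← c1', hL.cneg]
    rw [h5]
    intro h6
    apply two_ne _ (mul_ne_zero hci hci)
    linear_combination -h6
  · have c1' : ¬ (bar j = i ∧ bar i = j) := fun h5 => c1 h5.1
    rw [if_neg c1']
    by_cases c2 : bar i = h
    · have c2' : bar h = i := by rw [← c2, hL.inv]
      have c3 : ¬ (bar j = h) := fun h5 => hij (hinj _ _ (by rw [c2, h5]))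
      rw [if_pos c2, if_pos c2', if_neg c3]
      have h5 : c h = - c i := by rw [← c2, hL.cneg]
      rw [h5]
      intro h6
      apply two_ne _ (mul_ne_zero hci hcj)
      linear_combination h6
    · rw [if_neg c2]
      by_cases c3 : bar j = h
      · rw [if_pos c3]
        have h5 : c h = - c j := by rw [← c3, hL.cneg]
        rw [h5]
        intro h6
        apply two_ne _ (mul_ne_zero hci hcj)
        linear_combination h6
      · rw [if_neg c3]
        intro h6
        apply mul_ne_zero hci hcj
        linear_combination h6

end Pool.Agent.H91.Mono
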