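import Pool.Agent.H91.Mono.Ort6

/-! Symmetry of the reachability relation from semisimplicity over a subfield. -/

set_option linter.unusedSectionVars false

namespace Pool.Agent.H91.Mono

open Polynomial TensorProduct Pool.Agent.H93Tate

section Soc

variable {K : Type*} [Field K] [CharZero K] {V : Type*} [AddCommGroup V] [Module K V]
variable {ι : Type*} [Fintype ι] [DecidableEq ι]
variable {Γ : Subgroup (V ≃ₗ[K] V)} {b : Module.Basis ι K V}

/-- the coordinate property of stable subspaces -/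
def CoordP (Γ : Subgroup (V ≃ₗ[K] V)) (b : Module.Basis ι K V) : Prop :=
  ∀ W : Submodule K V, Stab Γ W → ∀ w ∈ W, ∀ k, b.repr w k ≠ 0 → b k ∈ W

lemma stab_co' (hco : CoordP Γ b) {p : ι → Prop} (hp : ∀ i j, Rch Γ b i j → p j → p i) :
    Stab Γ (co b p) := by
  intro x hx w hw k hk
  rw [← b.sum_repr w, map_sum, map_sum, Finsupp.finsetSum_apply] at hk
  obtain ⟨j, _, hj⟩ := Finset.exists_ne_zero_of_sum_ne_zero hk
  rw [map_smul, map_smul, Finsupp.smul_apply, smul_eq_mul] at hj
  have h1 := hw j (left_ne_zero_of_mul hj)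
  apply hp k j _ h1
  intro W hW hjW
  exact hco W hW _ (hW x hx _ hjW) k (right_ne_zero_of_mul hj)

/-- the socle is stable under the group -/
lemma socle_stable' (hco : CoordP Γ b) (γ : V ≃ₗ[K] V) (hγ : γ ∈ Γ) :
    ∀ w ∈ co b (OMn Γ b), γ w ∈ co b (OMn Γ b) := by
  have key : ∀ i, OMn Γ b i → γ (b i) ∈ co b (OMn Γ b) := by
    intro i hi
    have hW : ∀ j, Stab Γ (co b (fun k => Rch Γ b k j)) := fun j =>
      stab_co' hco (fun k l h1 h2 => Rch_trans h1 h2)
    have hγW := stab_map (hW i) hγ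
    have hle : ∀ (j : ι) (W : Submodule K V), Stab Γ W → b j ∈ W →
        co b (fun k => Rch Γ b k j) ≤ W := by
      intro j W hW hj
      exact co_le fun k hk => hk W hW hj
    intro k hk l hlk
    have hmem : γ (b i) ∈ (co b (fun k => Rch Γ b k i)).map (γ : V →ₗ[K] V) :=
      Submodule.mem_map_of_mem (basis_mem_co.2 (Rch_refl i))
    have hbk : b k ∈ (co b (fun k => Rch Γ b k i)).map (γ : V →ₗ[K] V) :=
      hco _ hγW _ hmem k hk
    have hbl := hlk _ hγW hbk
    -- pull back
    have hpull := stab_map (hW l) (Γ.inv_mem hγ)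
    have h1 := hle l _ hγW hbl
    have h2 : (co b (fun k => Rch Γ b k l)).map ((γ⁻¹ : V ≃ₗ[K] V) : V →ₗ[K] V) ≤
        co b (fun k => Rch Γ b k i) := by
      intro v hv
      obtain ⟨u, hu, rfl⟩ := Submodule.mem_map.1 hv
      obtain ⟨u', hu', hu2⟩ := Submodule.mem_map.1 (h1 hu)
      have : ((γ⁻¹ : V ≃ₗ[K] V) : V →ₗ[K] V) u = u' := by
        rw [← hu2]
        exact γ.symm_apply_apply u'
      rw [this]
      exact hu'
    -- a coordinate vector in the pulled back subspace
    obtain ⟨m, hm⟩ : ∃ m, b m ∈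
        (co b (fun k => Rch Γ b k l)).map ((γ⁻¹ : V ≃ₗ[K] V) : V →ₗ[K] V) := by
      have h3 : γ⁻¹ (b l) ∈
          (co b (fun k => Rch Γ b k l)).map ((γ⁻¹ : V ≃ₗ[K] V) : V →ₗ[K] V) :=
        Submodule.mem_map_of_mem (basis_mem_co.2 (Rch_refl l))
      have h4 : γ⁻¹ (b l) ≠ 0 := by
        intro h5
        have h6 : b l = γ (γ⁻¹ (b l)) := (γ.apply_symm_apply _).symm
        rw [h5, map_zero] at h6
        exact b.ne_zero l h6
      have h5 : b.repr (γ⁻¹ (b l)) ≠ 0 := by
        intro h6
        exact h4 (b.repr.map_eq_zero_iff.1 h6)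
      obtain ⟨m, hm⟩ := Finsupp.ne_iff.1 h5
      exact ⟨m, hco _ hpull _ h3 m hm⟩
    have hmi : Rch Γ b m i :=
      (basis_mem_co (b := b) (p := fun k => Rch Γ b k i)).1 (h2 hm)
    have him := hi m hmi
    have hbi := him _ hpull hm
    have h3 := hle i _ hpull hbi
    -- push forward
    obtain ⟨v, hv, hvk⟩ := Submodule.mem_map.1 hbk
    obtain ⟨u, hu, huv⟩ := Submodule.mem_map.1 (h3 hv)
    have : u = b k := by
      rw [← hvk, ← huv]
      exact (γ.apply_symm_apply u).symm
    rw [this] at hu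
    exact (basis_mem_co (b := b) (p := fun k => Rch Γ b k l)).1 hu
  intro w hw
  rw [← b.sum_repr w, map_sum]
  apply Submodule.sum_mem
  intro i _
  rw [map_smul]
  by_cases h1 : b.repr w i = 0
  · rw [h1, zero_smul]; exact Submodule.zero_mem _
  · exact Submodule.smul_mem _ _ (key i (hw i h1))

/-- if the complement of the socle is stable, everything is in the socle -/
lemma all_mn_of_compl [FiniteDimensional K V]
    (hst : ∀ γ ∈ Γ, ∀ w ∈ co b (fun i => ¬ OMn Γ b i), (γ : V ≃ₗ[K] V) w ∈
      co b (fun i => ¬ OMn Γ b i)) (i : ι) : OMn Γ b i := by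
  by_contra hi
  have h1 : Stab Γ (co b (fun i => ¬ OMn Γ b i)) := fun x hx => lie_stab _ hst hx
  obtain ⟨l, hl, hmn⟩ := exists_omn (Γ := Γ) (b := b) i
  have h2 : b l ∈ co b (fun i => ¬ OMn Γ b i) := hl _ h1 (basis_mem_co.2 hi)
  exact (basis_mem_co.1 h2) hmn

end Soc

section Desc

variable {E : Type*} [Field E] [CharZero E] {K : Type*} [Field K] [Algebra E K]
  [IsAlgClosure E K] {V : Type*} [AddCommGroup V] [Module E V] [FiniteDimensional E V]
  {ι : Type*} [Fintype ι] [DecidableEq ι]

/-- polynomial with the roots in a Galois stable set -/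
lemma exists_descended (lam : ι → K) (hlam : Function.Injective lam) (B : ι → Prop)
    (hB : ∀ σ : K ≃ₐ[E] K, ∀ i, ∃ j, lam j = σ (lam i) ∧ (B i → B j)) :
    ∃ Q : E[X], ∀ i, (aeval (lam i) Q = 0 ↔ B i) := by
  classical
  have hgal : IsGalois E K := by
    have := IsAlgClosure.isAlgebraic (R := E) (K := K)
    have := IsAlgClosure.isAlgClosed E (K := K)
    have : Normal E K := IsAlgClosure.normal E K
    have : Algebra.IsSeparable E K := inferInstance
    exact ⟨⟩
  let PB : K[X] := ∏ i ∈ Finset.univ.filter B, (X - C (lam i))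
  have hinv : ∀ σ : K ≃ₐ[E] K, PB.map (σ : K →+* K) = PB := by
    intro σ
    choose s hs1 hs2 using hB σ
    have hsinj : Function.Injective s := by
      intro i j hij
      apply hlam
      apply σ.injective
      rw [← hs1, ← hs1, hij]
    show (∏ i ∈ Finset.univ.filter B, (X - C (lam i))).map (σ : K →+* K) = _
    rw [Polynomial.map_prod]
    have himg : (Finset.univ.filter B).image s = Finset.univ.filter B := by
      apply Finset.eq_of_subset_of_card_le
      · intro j hj
        obtain ⟨i, hi, rfl⟩ := Finset.mem_image.1 hj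
        simp only [Finset.mem_filter, Finset.mem_univ, true_and] at hi ⊢
        exact hs2 i hi
      · rw [Finset.card_image_of_injective _ hsinj]
    show _ = ∏ i ∈ Finset.univ.filter B, (X - C (lam i))
    conv_rhs => rw [← himg, Finset.prod_image (fun x _ y _ h => hsinj h)]
    apply Finset.prod_congr rfl
    intro i _
    rw [Polynomial.map_sub, map_X, map_C, hs1]
    rfl
  have hlift : PB ∈ lifts (algebraMap E K) := by
    rw [lifts_iff_coeff_lifts]
    intro k
    rw [InfiniteGalois.mem_range_algebraMap_iff_fixed]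
    intro σ
    have h2 := congrArg (fun R : K[X] => R.coeff k) (hinv σ)
    simp only [coeff_map] at h2
    exact h2
  obtain ⟨Q, hQ⟩ := (mem_lifts _).1 hlift
  refine ⟨Q, ?_⟩
  intro i
  rw [aeval_def, ← eval_map, hQ]
  show eval (lam i) (∏ i ∈ Finset.univ.filter B, (X - C (lam i))) = 0 ↔ _
  rw [eval_prod, Finset.prod_eq_zero_iff]
  constructor
  · rintro ⟨j, hj, h0⟩
    rw [eval_sub, eval_X, eval_C, sub_eq_zero] at h0
    rw [hlam h0]
    exact (Finset.mem_filter.1 hj).2
  · intro hi
    exact ⟨i, Finset.mem_filter.2 ⟨Finset.mem_univ _, hi⟩, by simp⟩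

lemma aeval_bc (F : V ≃ₗ[E] V) (Q : E[X]) (b : Module.Basis ι K (K ⊗[E] V)) (lam : ι → K)
    (hF : ∀ i, bcE K F (b i) = lam i • b i) (i : ι) :
    (aeval (F : Module.End E V) Q).baseChange K (b i) = aeval (lam i) Q • b i := by
  induction Q using Polynomial.induction_on' with
  | add p q hp hq =>
    rw [map_add, map_add, add_smul, ← hp, ← hq, LinearMap.baseChange_add, LinearMap.add_apply]
  | monomial m a =>
    rw [aeval_monomial, aeval_monomial, Algebra.algebraMap_eq_smul_one, smul_mul_assoc, one_mul,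
      LinearMap.baseChange_smul, LinearMap.smul_apply]
    have h1 : ∀ m : ℕ, ((F : Module.End E V) ^ m).baseChange K (b i) = lam i ^ m • b i := by
      intro m
      induction m with
      | zero =>
        rw [pow_zero, pow_zero, one_smul]
        have : (1 : Module.End E V).baseChange K = 1 := by
          ext; simp
        rw [this]
        rfl
      | succ m ih =>
        rw [pow_succ', pow_succ', Module.End.mul_eq_comp, LinearMap.baseChange_comp,
          LinearMap.comp_apply, ih, map_smul]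
        have h2 : (F : Module.End E V).baseChange K (b i) = lam i • b i := hF i
        rw [h2, smul_smul, mul_comm]
    rw [h1, ← algebraMap_smul K a (lam i ^ m • b i), smul_smul]

/-- A semisimple module over a subfield: a Galois stable and `Γ`-stable set of eigenlines has a
`Γ`-stable complement. -/
lemma ss_desc {Γ : Subgroup (V ≃ₗ[E] V)} {F : V ≃ₗ[E] V} (hFΓ : F ∈ Γ)
    (b : Module.Basis ι K (K ⊗[E] V)) (lam : ι → K) (hlam : Function.Injective lam)
    (hF : ∀ i, bcE K F (b i) = lam i • b i)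
    (hss : ∀ W : Submodule E V, (∀ γ ∈ Γ, ∀ w ∈ W, (γ : V ≃ₗ[E] V) w ∈ W) →
      ∃ W' : Submodule E V, (∀ γ ∈ Γ, ∀ w ∈ W', (γ : V ≃ₗ[E] V) w ∈ W') ∧ IsCompl W W')
    (B : ι → Prop)
    (hB : ∀ σ : K ≃ₐ[E] K, ∀ i, ∃ j, lam j = σ (lam i) ∧ (B i → B j))
    (hst : ∀ γ ∈ Γ.map (bcE K), ∀ w ∈ co b B, (γ : K ⊗[E] V ≃ₗ[K] K ⊗[E] V) w ∈ co b B) :
    ∀ γ ∈ Γ.map (bcE K), ∀ w ∈ co b (fun i => ¬ B i),
      (γ : K ⊗[E] V ≃ₗ[K] K ⊗[E] V) w ∈ co b (fun i => ¬ B i) := by
  classical
  have hB' : ∀ σ : K ≃ₐ[E] K, ∀ i, ∃ j, lam j = σ (lam i) ∧ (¬ B i → ¬ B j) := by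
    intro σ i
    obtain ⟨j, hj, -⟩ := hB σ i
    obtain ⟨i', hi', h2⟩ := hB σ.symm j
    refine ⟨j, hj, ?_⟩
    have : i' = i := by
      apply hlam
      rw [hi', hj, σ.symm_apply_apply]
    rw [this] at h2
    exact fun h3 h4 => h3 (h2 h4)
  obtain ⟨Q, hQ⟩ := exists_descended lam hlam B hB
  obtain ⟨Q', hQ'⟩ := exists_descended lam hlam (fun i => ¬ B i) hB'
  have hcz : CharZero K := charZero_of_injective_algebraMap (algebraMap E K).injective
  let f : Module.End E V := (F : Module.End E V)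
  have htinj : ∀ u v : V, (1 : K) ⊗ₜ[E] u = 1 ⊗ₜ[E] v → u = v := by
    intro u v huv
    exact Module.FaithfullyFlat.tensorProduct_mk_injective (A := E) (B := K) V huv
  have hbc : ∀ (R : E[X]) (w : K ⊗[E] V) (k : ι), b.repr ((aeval f R).baseChange K w) k =
      aeval (lam k) R * b.repr w k := by
    intro R w k
    conv_lhs => rw [← b.sum_repr w]
    rw [map_sum, map_sum, Finsupp.finsetSum_apply, Finset.sum_eq_single k]
    · rw [map_smul, aeval_bc F R b lam hF, map_smul, map_smul, Finsupp.smul_apply,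
        Finsupp.smul_apply, b.repr_self, Finsupp.single_eq_same, smul_eq_mul, smul_eq_mul, mul_one,
        mul_comm]
    · intro j _ hj
      rw [map_smul, aeval_bc F R b lam hF, map_smul, map_smul, Finsupp.smul_apply,
        Finsupp.smul_apply, b.repr_self, Finsupp.single_eq_of_ne (Ne.symm hj), smul_zero,
        smul_zero]
    · simp
  -- the product of the two polynomials kills everything
  have hQQ : ∀ v, aeval f Q (aeval f Q' v) = 0 := by
    intro v
    apply htinj
    have h1 : (1 : K) ⊗ₜ[E] (aeval f Q (aeval f Q' v)) =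
        (aeval f Q).baseChange K ((aeval f Q').baseChange K (1 ⊗ₜ[E] v)) := by
      rw [LinearMap.baseChange_tmul, LinearMap.baseChange_tmul]
    rw [h1, TensorProduct.tmul_zero]
    apply b.repr.injective
    ext k
    rw [hbc, hbc, map_zero, Finsupp.zero_apply]
    by_cases hk : B k
    · rw [(hQ k).2 hk, zero_mul]
    · rw [(hQ' k).2 hk, zero_mul, mul_zero]
  -- the stable subspace
  let W : Submodule E V := LinearMap.ker (aeval f Q)
  have hWst : ∀ γ ∈ Γ, ∀ w ∈ W, (γ : V ≃ₗ[E] V) w ∈ W := by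
    intro γ hγ w hw
    have h0 : (aeval f Q).baseChange K (1 ⊗ₜ[E] w) = 0 := by
      rw [LinearMap.baseChange_tmul, LinearMap.mem_ker.1 hw, TensorProduct.tmul_zero]
    have h1 : (1 ⊗ₜ[E] w : K ⊗[E] V) ∈ co b B := by
      intro k hk
      by_contra hB3
      have h2 := hbc Q (1 ⊗ₜ[E] w) k
      rw [h0, map_zero, Finsupp.zero_apply] at h2
      rcases mul_eq_zero.1 h2.symm with h3 | h3
      · exact hB3 ((hQ k).1 h3)
      · exact hk h3
    have h2 := hst _ ⟨γ, hγ, rfl⟩ _ h1
    rw [bcE_tmul] at h2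
    rw [LinearMap.mem_ker]
    apply htinj
    rw [TensorProduct.tmul_zero, ← LinearMap.baseChange_tmul]
    apply b.repr.injective
    ext k
    rw [hbc, map_zero, Finsupp.zero_apply]
    by_cases hk : b.repr (1 ⊗ₜ[E] γ w) k = 0
    · rw [hk, mul_zero]
    · rw [(hQ k).2 (h2 k hk), zero_mul]
  obtain ⟨W', hW', hc⟩ := hss W hWst
  have hpoly : ∀ (R : E[X]) (w : V), w ∈ W' → aeval f R w ∈ W' := by
    intro R w hw
    induction R using Polynomial.induction_on' with
    | add p q hp hq => rw [map_add, LinearMap.add_apply]; exact W'.add_mem hp hq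
    | monomial m a =>
      rw [aeval_monomial, Algebra.algebraMap_eq_smul_one, smul_mul_assoc, one_mul,
        LinearMap.smul_apply]
      apply W'.smul_mem
      induction m with
      | zero => exact hw
      | succ m ih => rw [pow_succ', Module.End.mul_apply]; exact hW' F hFΓ _ ih
  have hkill : ∀ w ∈ W', aeval f Q' w = 0 := by
    intro w hw
    exact Submodule.disjoint_def.1 hc.disjoint _ (LinearMap.mem_ker.2 (hQQ w)) (hpoly _ _ hw)
  have hop : ∀ γ ∈ Γ, ∀ v, aeval f Q' ((γ : V ≃ₗ[E] V) (aeval f Q v)) = 0 := by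
    intro γ hγ v
    have hv : v ∈ W ⊔ W' := by rw [hc.sup_eq_top]; trivial
    obtain ⟨w, hw, w', hw', rfl⟩ := Submodule.mem_sup.1 hv
    rw [map_add, LinearMap.mem_ker.1 hw, zero_add]
    exact hkill _ (hW' γ hγ _ (hpoly _ _ hw'))
  rintro _ ⟨γ, hγ, rfl⟩ w hw
  have hopK : ∀ x : K ⊗[E] V, (aeval f Q').baseChange K (bcE K γ ((aeval f Q).baseChange K x)) =
      0 := by
    intro x
    induction x using TensorProduct.induction_on with
    | zero => simp
    | add x y hx hy => rw [map_add, map_add, map_add, hx, hy, add_zero]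
    | tmul a v =>
      rw [LinearMap.baseChange_tmul, bcE_tmul, LinearMap.baseChange_tmul, hop γ hγ,
        TensorProduct.tmul_zero]
  have key : ∀ i, ¬ B i → bcE K γ (b i) ∈ co b (fun i => ¬ B i) := by
    intro i hi k hk hBk
    have h1 := hopK (b i)
    rw [aeval_bc F Q b lam hF, map_smul, map_smul] at h1
    rcases smul_eq_zero.1 h1 with h2 | h2
    · exact hi ((hQ i).1 h2)
    · have h3 := hbc Q' (bcE K γ (b i)) k
      rw [h2, map_zero, Finsupp.zero_apply] at h3
      rcases mul_eq_zero.1 h3.symm with h4 | h4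
      · exact (hQ' k).1 h4 hBk
      · exact hk h4
  rw [← b.sum_repr w, map_sum]
  apply Submodule.sum_mem
  intro i _
  rw [map_smul]
  by_cases h1 : b.repr w i = 0
  · rw [h1, zero_smul]; exact Submodule.zero_mem _
  · exact Submodule.smul_mem _ _ (key i (hw i h1))

end Desc

end Pool.Agent.H91.Mono
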