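import Pool.Agent.H91.Mono.Ss1

/-! One Frobenius of maximal angle rank in a semisimple representation over any field. -/

set_option linter.unusedSectionVars false

namespace Pool.Agent.H91.Mono

open Polynomial TensorProduct Pool.Agent.H93Tate

section Mn

variable {K : Type*} [Field K] [CharZero K] {V : Type*} [AddCommGroup V] [Module K V]
variable {ι : Type*} [Fintype ι] [DecidableEq ι]
variable {ψ : V →ₗ[K] V →ₗ[K] K} {Γ : Subgroup (V ≃ₗ[K] V)} {b : Module.Basis ι K V}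
    {bar : ι → ι} {lam : ι → K} {F : V ≃ₗ[K] V}

lemma rr_iff_rch (h : Setup ψ Γ b bar lam F) (i j : ι) : Rr ψ Γ b bar i j ↔ Rch Γ b i j := by
  constructor
  · intro h1 W hW hj
    exact stab_Rr h hW h1 hj
  · intro h1
    have h2 : Stab Γ (co b (fun k => Rr ψ Γ b bar k j)) :=
      stab_co h (fun k l h1 h2 => Rr_trans h h1 h2)
    exact (basis_mem_co (b := b) (p := fun k => Rr ψ Γ b bar k j)).1
      (h1 _ h2 (basis_mem_co.2 (Rr_refl j)))

lemma mn_of_omn (h : Setup ψ Γ b bar lam F) {i : ι} (hi : OMn Γ b i) : Mn ψ Γ b bar i := by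
  intro k hk
  exact (rr_iff_rch h i k).2 (hi k ((rr_iff_rch h k i).1 hk))

end Mn

section

variable {E : Type*} [Field E] [CharZero E] {K : Type*} [Field K] [Algebra E K]
  [IsAlgClosure E K] {V : Type*} [AddCommGroup V] [Module E V] [FiniteDimensional E V]
  {ι : Type*} [Fintype ι] [DecidableEq ι]

/-- all indices are minimal for a semisimple module over the subfield -/
lemma omn_of_ss [CharZero K] {Γ : Subgroup (V ≃ₗ[E] V)} {F : V ≃ₗ[E] V} (hFΓ : F ∈ Γ)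
    (b : Module.Basis ι K (K ⊗[E] V)) (lam : ι → K) (hlam : Function.Injective lam)
    (hF : ∀ i, bcE K F (b i) = lam i • b i)
    (hss : ∀ W : Submodule E V, (∀ γ ∈ Γ, ∀ w ∈ W, (γ : V ≃ₗ[E] V) w ∈ W) →
      ∃ W' : Submodule E V, (∀ γ ∈ Γ, ∀ w ∈ W', (γ : V ≃ₗ[E] V) w ∈ W') ∧ IsCompl W W')
    (hco : CoordP (Γ.map (bcE K)) b)
    (hperm : ∀ σ : K ≃ₐ[E] K, ∃ s : ι → ι, Function.Bijective s ∧
      (∀ i, lam (s i) = σ (lam i)) ∧
      ∀ i j, Rch (Γ.map (bcE K)) b (s i) (s j) ↔ Rch (Γ.map (bcE K)) b i j) (i : ι) :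
    OMn (Γ.map (bcE K)) b i := by
  apply all_mn_of_compl
  refine ss_desc hFΓ b lam hlam hF hss (OMn (Γ.map (bcE K)) b) ?_ (socle_stable' hco)
  intro σ i
  obtain ⟨s, hs, hl, hR⟩ := hperm σ
  refine ⟨s i, hl i, ?_⟩
  intro hi k hk
  obtain ⟨k', rfl⟩ := hs.2 k
  exact (hR _ _).2 (hi k' ((hR _ _).1 hk))

end

section

variable {p n : ℕ} [hp : Fact p.Prime] {P : ℚ[X]}

/-- **Semisimple case, both parities.** -/
theorem ssFrob (hn : 0 < n) (hP : Irreducible P) (hdeg : 2 < P.natDegree)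
    (hweil : ∀ z : ℂ, aeval z P = 0 → ‖z‖ ^ 2 = (p : ℝ) ^ n) (hmr : MaxRank ((p : ℂ) ^ n) P)
    {E : Type*} [Field E] [CharZero E] (K : Type*) [Field K] [Algebra E K] [IsAlgClosure E K]
    {V : Type*} [AddCommGroup V] [Module E V] [FiniteDimensional E V] (ψ : V →ₗ[E] V →ₗ[E] E)
    (hψ : (∀ v, ψ v v = 0) ∨ (∀ u v, ψ u v = ψ v u)) (hnd : ∀ v, (∀ w, ψ v w = 0) → v = 0)
    (Γ : Subgroup (V ≃ₗ[E] V))
    (hsim : ∀ γ ∈ Γ, ∃ μ : E, ∀ u v, ψ ((γ : V ≃ₗ[E] V) u) ((γ : V ≃ₗ[E] V) v) = μ * ψ u v)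
    (hss : ∀ W : Submodule E V, (∀ γ ∈ Γ, ∀ w ∈ W, (γ : V ≃ₗ[E] V) w ∈ W) →
      ∃ W' : Submodule E V, (∀ γ ∈ Γ, ∀ w ∈ W', (γ : V ≃ₗ[E] V) w ∈ W') ∧ IsCompl W W')
    (F : V ≃ₗ[E] V) (hF : F ∈ Γ)
    (hchar : LinearMap.charpoly (F : V →ₗ[E] V) = P.map (algebraMap ℚ E))
    (hmult : ∀ u v, ψ (F u) (F v) = (p : E) ^ n * ψ u v)
    (g : V ≃ₗ[E] V) (hg : ∃ μ : E, ∀ u v, ψ (g u) (g v) = μ * ψ u v)
    (hcomm : ∀ c : Module.End E V, Comm Γ c → ∀ v, c (g v) = g (c v)) :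
    InCl Γ (((g * g : V ≃ₗ[E] V)) : Module.End E V) ∧
      ((∀ v, ψ v v = 0) → InCl Γ (g : Module.End E V)) := by
  classical
  have hac : IsAlgClosed K := IsAlgClosure.isAlgClosed E
  have halg : Algebra.IsAlgebraic E K := IsAlgClosure.isAlgebraic
  have hcz : CharZero K := charZero_of_injective_algebraMap (algebraMap E K).injective
  let jE : P.SplittingField →ₐ[ℚ] K := IsAlgClosed.lift
  have hmapP : (P.map (algebraMap ℚ E)).map (algebraMap E K) = P.map (algebraMap ℚ K) := by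
    rw [Polynomial.map_map]
    congr 1
    exact Subsingleton.elim _ _
  have hsimK : ∀ γ ∈ Γ.map (bcE K), ∃ μ : K, ∀ u v, fK K ψ ((γ : K ⊗[E] V ≃ₗ[K] K ⊗[E] V) u)
      ((γ : K ⊗[E] V ≃ₗ[K] K ⊗[E] V) v) = μ * fK K ψ u v := by
    rintro _ ⟨γ, hγ, rfl⟩
    obtain ⟨μ, hμ⟩ := hsim γ hγ
    exact ⟨algebraMap E K μ, fK_sim γ μ hμ⟩
  have hcharK : LinearMap.charpoly ((bcE K F : K ⊗[E] V ≃ₗ[K] K ⊗[E] V) :
      K ⊗[E] V →ₗ[K] K ⊗[E] V) = P.map (algebraMap ℚ K) := by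
    rw [bcE_coe, LinearMap.charpoly_baseChange, hchar, hmapP]
  have hmultK : ∀ u v, fK K ψ (bcE K F u) (bcE K F v) = (p : K) ^ n * fK K ψ u v := by
    intro u v
    rw [fK_sim F _ hmult, map_pow, map_natCast]
  obtain ⟨μ, hμ⟩ := hg
  have hgg : ((bcE K (g * g) : K ⊗[E] V ≃ₗ[K] K ⊗[E] V) : Module.End K (K ⊗[E] V)) =
      ((bcE K g : K ⊗[E] V ≃ₗ[K] K ⊗[E] V) : Module.End K (K ⊗[E] V)) *
      ((bcE K g : K ⊗[E] V ≃ₗ[K] K ⊗[E] V) : Module.End K (K ⊗[E] V)) := by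
    rw [map_mul]
    rfl
  have hnz : Nonempty (Rt P) := by
    rw [← Fintype.card_pos_iff, card_rt hP]
    exact hP.natDegree_pos
  have haltK : (∀ v, ψ v v = 0) →
      InCl (Γ.map (bcE K)) ((bcE K g : K ⊗[E] V ≃ₗ[K] K ⊗[E] V) : Module.End K (K ⊗[E] V)) := by
    intro halt
    have hsw : ∀ u v, ψ v u = - ψ u v := fun u v => psi_swap halt u v
    obtain ⟨b, hset⟩ := setup_of hn hP hdeg hweil hmr (fK K ψ) (fK_alt halt)
      (fK_nondeg hsw hnd) (Γ.map (bcE K)) hsimK (bcE K F) ⟨F, hF, rfl⟩ hcharK hmultK jE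
    have hmn : ∀ i, Mn (fK K ψ) (Γ.map (bcE K)) b (inv hweil) i := by
      intro i
      apply mn_of_omn hset
      refine omn_of_ss hF b _ (lam_inj hset) hset.eig hss
        (fun W hW w hw k hk => stab_coord hset hW hw hk) ?_ i
      intro σ
      obtain ⟨s, hs, hl, hR⟩ := perm_R hset (semiSym_bc K σ Γ)
      refine ⟨s, hs, hl, ?_⟩
      intro i j
      rw [← rr_iff_rch hset, ← rr_iff_rch hset]
      exact hR i j
    obtain ⟨x⟩ := hnz
    have hnt : Nontrivial (K ⊗[E] V) := ⟨⟨b x, 0, b.ne_zero x⟩⟩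
    exact dense hset hmn (bcE K g) ⟨algebraMap E K μ, fK_sim g μ hμ⟩
      (supp_of_comm hset hmn _ (fun c hc => comm_descend K Γ g hcomm c hc))
  refine ⟨?_, fun halt => inCl_descend K Γ g (haltK halt)⟩
  apply inCl_descend K
  rw [hgg]
  rcases hψ with halt | hsym
  · exact inCl_mul (haltK halt) (haltK halt)
  · obtain ⟨b, hset⟩ := osetup_of hn hP hdeg hweil hmr (fK K ψ) (fK_sym hsym)
      (fK_nondeg_sym hsym hnd) (Γ.map (bcE K)) hsimK (bcE K F) ⟨F, hF, rfl⟩ hcharK hmultK jE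
    have hmn : ∀ i, OMn (Γ.map (bcE K)) b i := by
      intro i
      refine omn_of_ss hF b _ hset.lam_inj hset.eig hss
        (fun W hW w hw k hk => hset.stab_coord hW hw hk) ?_ i
      intro σ
      exact hset.perm_R (semiSym_bc K σ Γ)
    obtain ⟨x⟩ := hnz
    have hnt : Nontrivial (K ⊗[E] V) := ⟨⟨b x, 0, b.ne_zero x⟩⟩
    exact edense hset hmn (bcE K g) ⟨algebraMap E K μ, fK_sim g μ hμ⟩
      (hset.supp_of_comm hmn _ (fun c hc => comm_descend K Γ g hcomm c hc))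

end

end Pool.Agent.H91.Mono
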