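import Pool.Agent.H91.Mono.Zar2
import Pool.Agent.H91.Mono.Gen

/-! Similitude groups containing an element with only trivial multiplicative relations:
the Lie algebra of the Zariski closure in an eigenbasis. -/

set_option linter.unusedSectionVars false

namespace Pool.Agent.H91.Mono

open MvPolynomial

variable {K : Type*} [Field K] [CharZero K] {V : Type*} [AddCommGroup V] [Module K V]
variable {ι : Type*} [Fintype ι] [DecidableEq ι]

/-- the exponents admit only trivial relations -/
def TrivRel (bar : ι → ι) (lam : ι → K) : Prop :=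
  ∀ m m' : ι → ℕ, ∏ i, lam i ^ m i = ∏ i, lam i ^ m' i →
    (∀ i, m i + m' (bar i) = m (bar i) + m' i) ∧ ∑ i, m i = ∑ i, m' i

/-- The standing hypotheses. -/
structure Setup (ψ : V →ₗ[K] V →ₗ[K] K) (Γ : Subgroup (V ≃ₗ[K] V)) (b : Module.Basis ι K V)
    (bar : ι → ι) (lam : ι → K) (F : V ≃ₗ[K] V) : Prop where
  inv : ∀ i, bar (bar i) = i
  nofix : ∀ i, bar i ≠ i
  alt : ∀ v, ψ v v = 0
  zero : ∀ i j, j ≠ bar i → ψ (b i) (b j) = 0
  ne : ∀ i, ψ (b i) (b (bar i)) ≠ 0
  sim : ∀ γ ∈ Γ, ∃ μ : K, ∀ u v, ψ ((γ : V ≃ₗ[K] V) u) ((γ : V ≃ₗ[K] V) v) = μ * ψ u v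
  mem : F ∈ Γ
  eig : ∀ i, F (b i) = lam i • b i
  triv : TrivRel bar lam

variable {ψ : V →ₗ[K] V →ₗ[K] K} {Γ : Subgroup (V ≃ₗ[K] V)} {b : Module.Basis ι K V}
    {bar : ι → ι} {lam : ι → K} {F : V ≃ₗ[K] V}

/-- the constants of the form -/
noncomputable def cc (ψ : V →ₗ[K] V →ₗ[K] K) (b : Module.Basis ι K V) (bar : ι → ι) (i : ι) : K :=
  ψ (b i) (b (bar i))

lemma psi_swap (h : ∀ v, ψ v v = 0) (u v : V) : ψ v u = - ψ u v := by
  have h1 := h (u + v)
  simp only [map_add, LinearMap.add_apply, h u, h v, zero_add, add_zero] at h1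
  linear_combination h1

lemma cc_neg (h : Setup ψ Γ b bar lam F) (i : ι) : cc ψ b bar (bar i) = - cc ψ b bar i := by
  unfold cc
  rw [h.inv, psi_swap h.alt]

lemma psi_bil (h : Setup ψ Γ b bar lam F) (u v : V) :
    ψ u v = bil bar (cc ψ b bar) (b.repr u) (b.repr v) := by
  conv_lhs => rw [← b.sum_repr u, ← b.sum_repr v]
  rw [map_sum ψ, LinearMap.sum_apply, bil]
  apply Finset.sum_congr rfl
  intro i _
  rw [map_sum, Finset.sum_eq_single (bar i)]
  · simp only [map_smul, LinearMap.smul_apply, smul_eq_mul, cc]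
    ring
  · intro j _ hj
    simp only [map_smul, LinearMap.smul_apply, smul_eq_mul, h.zero i j hj, mul_zero]
  · simp

/-- Lie algebra in coordinates -/
noncomputable def LM (Γ : Subgroup (V ≃ₗ[K] V)) (b : Module.Basis ι K V) :
    Submodule K (Matrix ι ι K) := (lie Γ).comap (Matrix.toLin b b).toLinearMap

lemma mem_LM {X : Matrix ι ι K} : X ∈ LM Γ b ↔ Matrix.toLin b b X ∈ lie Γ := Iff.rfl

lemma lie_tor (h : Setup ψ Γ b bar lam F) (x : ι → K) (hx : ∀ i, x i + x (bar i) = 0) :
    dg b x ∈ lie Γ := by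
  apply lie_torus h.mem h.eig
  intro m m' hm
  obtain ⟨h1, -⟩ := h.triv m m' hm
  have h2 : ∑ i, ((m i : K) - m' i) * x i = 0 := by
    apply Finset.sum_involution (fun i _ => bar i)
    · intro i _
      have h3 : (m i : K) + m' (bar i) = m (bar i) + m' i := by exact_mod_cast h1 i
      have h4 := hx i
      linear_combination ((m i : K) - m' i) * h4 - x (bar i) * h3
    · intro i _ _
      exact h.nofix i
    · intro i _
      exact Finset.mem_univ _
    · intro i _
      exact h.inv i
  simp only [sub_mul, Finset.sum_sub_distrib] at h2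
  exact sub_eq_zero.1 h2

lemma cl_tor [IsAlgClosed K] (h : Setup ψ Γ b bar lam F) (t : ι → K) (κ : K) (hκ : κ ≠ 0)
    (ht : ∀ i, t i * t (bar i) = κ) : InCl Γ (dg b t) := by
  apply inCl_torus h.mem h.eig
  intro m m' hm
  obtain ⟨h1, h0⟩ := h.triv m m' hm
  obtain ⟨ν, hν⟩ := IsAlgClosed.exists_pow_nat_eq κ (n := 2) (by norm_num)
  have hν0 : ν ≠ 0 := by
    rintro rfl
    apply hκ
    rw [← hν]
    norm_num
  have ht0 : ∀ i, t i ≠ 0 := by
    intro i hi
    have := ht i
    rw [hi, zero_mul] at this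
    exact hκ this.symm
  let s : ι → K := fun i => t i / ν
  have hs : ∀ i, s i * s (bar i) = 1 := by
    intro i
    have := ht i
    simp only [s]
    field_simp
    rw [this, hν]
  have hs0 : ∀ i, s i ≠ 0 := fun i => div_ne_zero (ht0 i) hν0
  have hts : ∀ i, t i = ν * s i := by
    intro i
    simp only [s]
    field_simp
  have h2 : ∏ i, s i ^ ((m i : ℤ) - m' i) = 1 := by
    apply Finset.prod_involution (fun i _ => bar i)
    · intro i _
      have h3 : (m (bar i) : ℤ) - m' (bar i) = (m i : ℤ) - m' i := by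
        have := h1 i
        omega
      rw [h3, ← mul_zpow, hs, one_zpow]
    · intro i _ _
      exact h.nofix i
    · intro i _
      exact Finset.mem_univ _
    · intro i _
      exact h.inv i
  have h3 : ∏ i, s i ^ m i = ∏ i, s i ^ m' i := by
    have h4 : ∀ i, s i ^ ((m i : ℤ) - m' i) = s i ^ m i / s i ^ m' i := by
      intro i
      rw [zpow_sub₀ (hs0 i), zpow_natCast, zpow_natCast]
    simp only [h4, Finset.prod_div_distrib] at h2
    rw [div_eq_one_iff_eq] at h2
    · exact h2
    · exact Finset.prod_ne_zero_iff.2 fun i _ => pow_ne_zero _ (hs0 i)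
  simp only [hts, mul_pow, Finset.prod_mul_distrib]
  rw [h3, Finset.prod_pow_eq_pow_sum, Finset.prod_pow_eq_pow_sum]
  congr 2

/-- the polynomial `g ↦ ψ (g u) (g v)` -/
noncomputable def qq (c : ι → K) (bar : ι → ι) (b : Module.Basis ι K V) (u v : V) :
    MvPolynomial (Module.Dual K (Module.End K V)) K :=
  ∑ k, C (c k) * X (coefF (b.coord k) u) * X (coefF (b.coord (bar k)) v)

lemma ev_qq (h : Setup ψ Γ b bar lam F) (u v : V) (g : Module.End K V) :
    ev g (qq (cc ψ b bar) bar b u v) = ψ (g u) (g v) := by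
  rw [psi_bil h, bil, qq, map_sum]
  apply Finset.sum_congr rfl
  intro k _
  rw [map_mul, map_mul, ev_X, ev_X]
  simp [ev, coefF]

lemma pd_qq (u v : V) (c : ι → K) (x : Module.End K V) :
    pd x (qq c bar b u v) = ∑ k, c k * (b.repr (x u) k * b.repr v (bar k) +
      b.repr u k * b.repr (x v) (bar k)) := by
  have hadd : ∀ (s : Finset ι) (f : ι → MvPolynomial (Module.Dual K (Module.End K V)) K),
      pd x (∑ k ∈ s, f k) = ∑ k ∈ s, pd x (f k) := by
    intro s f
    simp [pd]
  rw [qq, hadd]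
  apply Finset.sum_congr rfl
  intro k _
  rw [pd_mul, pd_mul, pd_C, pd_X, pd_X, ev_X, map_mul, ev_X]
  have h1 : ev (1 : Module.End K V) (C (c k)) = c k := by simp [ev]
  rw [h1]
  simp only [coefF_apply, Module.Basis.coord_apply, Module.End.one_apply]
  ring

lemma lie_skew (h : Setup ψ Γ b bar lam F) {x : Module.End K V} (hx : x ∈ lie Γ) {i j : ι}
    (hij : i ≠ j) : b.repr (x (b j)) i * cc ψ b bar i +
      b.repr (x (b (bar i))) (bar j) * cc ψ b bar j = 0 := by
  have h1 := hx (qq (cc ψ b bar) bar b (b j) (b (bar i))) (by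
    intro γ hγ
    rw [ev_qq h]
    obtain ⟨μ, hμ⟩ := h.sim γ hγ
    have := hμ (b j) (b (bar i))
    show ψ (γ (b j)) (γ (b (bar i))) = 0
    rw [this, h.zero, mul_zero]
    intro h5
    apply hij
    rw [← h.inv i, h5, h.inv])
  rw [pd_qq] at h1
  have h2 : ∀ k, cc ψ b bar k * (b.repr (x (b j)) k * b.repr (b (bar i)) (bar k) +
      b.repr (b j) k * b.repr (x (b (bar i))) (bar k)) =
      (if k = i then cc ψ b bar k * b.repr (x (b j)) k else 0) +
      (if k = j then cc ψ b bar k * b.repr (x (b (bar i))) (bar k) else 0) := by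
    intro k
    rw [b.repr_self, b.repr_self, Finsupp.single_apply, Finsupp.single_apply]
    have e1 : (bar i = bar k) ↔ k = i :=
      ⟨fun h5 => by rw [← h.inv k, ← h5, h.inv], fun h5 => by rw [h5]⟩
    have e2 : (j = k) ↔ k = j := eq_comm
    simp only [e1, e2]
    split_ifs <;> ring
  rw [Finset.sum_congr rfl (fun k _ => h2 k), Finset.sum_add_distrib, Finset.sum_ite_eq',
    Finset.sum_ite_eq'] at h1
  simp only [Finset.mem_univ, if_true] at h1
  linear_combination h1

theorem good (h : Setup ψ Γ b bar lam F) : Good bar (cc ψ b bar) (LM Γ b) where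
  inv := h.inv
  nofix := h.nofix
  c0 := h.ne
  cneg := cc_neg h
  br := by
    intro X hX Y hY
    rw [mem_LM, map_sub, Matrix.toLin_mul b b b, Matrix.toLin_mul b b b]
    exact lie_bracket hX hY
  tor := by
    intro x hx
    exact lie_tor h x hx
  skew := by
    intro X hX i j hij
    have h1 := lie_skew h (x := Matrix.toLin b b X) hX hij
    have h2 : ∀ k l, b.repr (Matrix.toLin b b X (b l)) k = X k l := by
      intro k l
      rw [← LinearMap.toMatrix_apply, LinearMap.toMatrix_toLin]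
    rw [h2, h2] at h1
    exact h1

end Pool.Agent.H91.Mono
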