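import Pool.Agent.H91.Mono.Sym1

/-! Stable subspaces, the root relation and its symmetry. -/

set_option linter.unusedSectionVars false

namespace Pool.Agent.H91.Mono

open MvPolynomial

variable {K : Type*} [Field K] [CharZero K] {V : Type*} [AddCommGroup V] [Module K V]
variable {ι : Type*} [Fintype ι] [DecidableEq ι]
variable {ψ : V →ₗ[K] V →ₗ[K] K} {Γ : Subgroup (V ≃ₗ[K] V)} {b : Module.Basis ι K V}
    {bar : ι → ι} {lam : ι → K} {F : V ≃ₗ[K] V}

/-- stable under the Lie algebra -/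
def Stab (Γ : Subgroup (V ≃ₗ[K] V)) (W : Submodule K V) : Prop :=
  ∀ x ∈ lie Γ, ∀ w ∈ W, x w ∈ W

/-- stable subspaces are coordinate subspaces -/
lemma stab_coord (h : Setup ψ Γ b bar lam F) {W : Submodule K V} (hW : Stab Γ W) {w : V}
    (hw : w ∈ W) {i : ι} (hi : b.repr w i ≠ 0) : b i ∈ W := by
  let x : ι → K := fun k => if k = i then 1 else if k = bar i then -1 else 0
  have hx : ∀ k, x k + x (bar k) = 0 := by
    intro k
    have hn := h.nofix i
    by_cases h1 : k = i
    · subst h1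
      simp [x, hn]
    · by_cases h2 : k = bar i
      · subst h2
        simp [x, hn, h.inv]
      · have h3 : bar k ≠ i := fun h5 => h2 (by rw [← h5, h.inv])
        have h4 : bar k ≠ bar i := fun h5 => h1 (by rw [← h.inv k, h5, h.inv])
        simp [x, h1, h2, h3, h4]
  have hL := lie_tor h x hx
  have h1 := hW _ hL _ hw
  have h2 := hW _ hL _ h1
  have hre : ∀ (y : ι → K) (v : V), dg b y v = ∑ k, (y k * b.repr v k) • b k := by
    intro y v
    conv_lhs => rw [← b.sum_repr v]
    rw [map_sum]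
    apply Finset.sum_congr rfl
    intro k _
    rw [map_smul, dg_apply, smul_smul, mul_comm]
  have h3 : dg b x w + dg b x (dg b x w) = (2 * b.repr w i) • b i := by
    rw [← Module.End.mul_apply (dg b x), ← dg_mul, hre, hre, ← Finset.sum_add_distrib,
      Finset.sum_eq_single i]
    · rw [← add_smul]
      congr 1
      simp only [Pi.mul_apply]
      have : x i = 1 := by simp [x]
      rw [this]
      ring
    · intro k _ hk
      rw [← add_smul]
      have : x k + x k * x k = 0 := by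
        by_cases h5 : k = bar i
        · simp only [x]; rw [if_neg hk, if_pos h5]; ring
        · simp only [x]; rw [if_neg hk, if_neg h5]; ring
      have h6 : x k * b.repr w k + (x * x) k * b.repr w k = 0 := by
        rw [Pi.mul_apply]
        linear_combination (b.repr w k) * this
      rw [h6, zero_smul]
    · simp
  have h4 := W.add_mem h1 h2
  rw [h3] at h4
  have h5 : (2 * b.repr w i) ≠ 0 := mul_ne_zero two_ne_zero hi
  have h6 := W.smul_mem (2 * b.repr w i)⁻¹ h4
  rwa [smul_smul, inv_mul_cancel₀ h5, one_smul] at h6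

/-- image of a stable subspace under the group -/
lemma stab_map {W : Submodule K V} (hW : Stab Γ W) {γ : V ≃ₗ[K] V} (hγ : γ ∈ Γ) :
    Stab Γ (W.map (γ : V →ₗ[K] V)) := by
  intro x hx w hw
  obtain ⟨v, hv, rfl⟩ := Submodule.mem_map.1 hw
  have h1 := lie_conj hx (Γ.inv_mem hγ)
  have h2 := hW _ h1 v hv
  rw [inv_inv] at h2
  rw [Submodule.mem_map]
  refine ⟨_, h2, ?_⟩
  show γ (γ⁻¹ (x (γ v))) = x (γ v)
  exact γ.apply_symm_apply _

/-- the root relation -/
def Rr (ψ : V →ₗ[K] V →ₗ[K] K) (Γ : Subgroup (V ≃ₗ[K] V)) (b : Module.Basis ι K V)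
    (bar : ι → ι) (i j : ι) : Prop := i = j ∨ root bar (cc ψ b bar) i j ∈ LM Γ b

lemma Rr_refl (i : ι) : Rr ψ Γ b bar i i := Or.inl rfl

lemma Rr_trans (h : Setup ψ Γ b bar lam F) {i j k : ι} (h1 : Rr ψ Γ b bar i j)
    (h2 : Rr ψ Γ b bar j k) : Rr ψ Γ b bar i k := by
  rcases h1 with rfl | h1
  · exact h2
  rcases h2 with rfl | h2
  · exact Or.inr h1
  by_cases hij : i = j
  · subst hij; exact Or.inr h2
  by_cases hjk : j = k
  · subst hjk; exact Or.inr h1
  by_cases hik : i = k
  · exact Or.inl hik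
  exact Or.inr (root_trans (good h) h1 h2 hij hjk hik)

lemma Rr_dual (h : Setup ψ Γ b bar lam F) {i j : ι} (h1 : Rr ψ Γ b bar i j) :
    Rr ψ Γ b bar (bar j) (bar i) := by
  rcases h1 with rfl | h1
  · exact Or.inl rfl
  · right
    have : root bar (cc ψ b bar) (bar j) (bar i) = root bar (cc ψ b bar) i j := by
      ext k l
      rw [root_apply, root_apply, h.inv, h.inv, cc_neg h, cc_neg h]
      split_ifs <;> ring
    rw [this]
    exact h1

/-- membership of a coordinate vector in a stable subspace spreads along the relation -/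
lemma stab_Rr (h : Setup ψ Γ b bar lam F) {W : Submodule K V} (hW : Stab Γ W) {i j : ι}
    (h1 : Rr ψ Γ b bar i j) (hj : b j ∈ W) : b i ∈ W := by
  rcases h1 with rfl | h1
  · exact hj
  · by_cases hij : i = j
    · subst hij; exact hj
    have h2 : Matrix.toLin b b (root bar (cc ψ b bar) i j) (b j) ∈ W := hW _ h1 _ hj
    apply stab_coord h hW h2
    have h3 : b.repr (Matrix.toLin b b (root bar (cc ψ b bar) i j) (b j)) i =
        root bar (cc ψ b bar) i j i j := by
      rw [← LinearMap.toMatrix_apply, LinearMap.toMatrix_toLin]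
    rw [h3, root_apply]
    simp only [and_self, if_true]
    by_cases h4 : bar j = i ∧ bar i = j
    · rw [if_pos h4]
      have h5 : cc ψ b bar j = - cc ψ b bar i := by rw [← h4.2, cc_neg h]
      rw [h5]
      have h6 : cc ψ b bar i ≠ 0 := h.ne i
      intro h7
      apply h6
      have h8 : (2 : K) * cc ψ b bar i = 0 := by linear_combination -h7
      rcases mul_eq_zero.1 h8 with h9 | h9
      · exact absurd h9 two_ne_zero
      · exact h9
    · rw [if_neg h4, sub_zero]
      exact h.ne j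

/-- the coordinate subspace of the indices satisfying `p` -/
def co (b : Module.Basis ι K V) (p : ι → Prop) : Submodule K V where
  carrier := {v | ∀ k, b.repr v k ≠ 0 → p k}
  add_mem' := by
    intro u v hu hv k hk
    rw [map_add, Finsupp.add_apply] at hk
    by_cases h1 : b.repr u k = 0
    · rw [h1, zero_add] at hk
      exact hv k hk
    · exact hu k h1
  zero_mem' := by
    intro k hk
    simp at hk
  smul_mem' := by
    intro c v hv k hk
    rw [map_smul, Finsupp.smul_apply, smul_eq_mul] at hk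
    exact hv k (right_ne_zero_of_mul hk)

lemma mem_co {p : ι → Prop} {v : V} : v ∈ co b p ↔ ∀ k, b.repr v k ≠ 0 → p k := Iff.rfl

lemma basis_mem_co {p : ι → Prop} {i : ι} : b i ∈ co b p ↔ p i := by
  rw [mem_co]
  constructor
  · intro h
    apply h i
    simp
  · intro h k hk
    rw [b.repr_self, Finsupp.single_apply] at hk
    by_cases h1 : i = k
    · rw [← h1]; exact h
    · rw [if_neg h1] at hk; exact absurd rfl hk

/-- a subspace containing the coordinate vectors contains the coordinate subspace -/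
lemma co_le {p : ι → Prop} {W : Submodule K V} (hW : ∀ i, p i → b i ∈ W) : co b p ≤ W := by
  intro v hv
  rw [← b.sum_repr v]
  apply W.sum_mem
  intro i _
  by_cases h1 : b.repr v i = 0
  · rw [h1, zero_smul]; exact W.zero_mem
  · exact W.smul_mem _ (hW i (hv i h1))

/-- a lower set for the relation gives a stable subspace -/
lemma stab_co (h : Setup ψ Γ b bar lam F) {p : ι → Prop}
    (hp : ∀ i j, Rr ψ Γ b bar i j → p j → p i) : Stab Γ (co b p) := by
  intro x hx w hw k hk
  rw [← b.sum_repr w, map_sum, map_sum, Finsupp.finsetSum_apply] at hk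
  obtain ⟨j, _, hj⟩ := Finset.exists_ne_zero_of_sum_ne_zero hk
  rw [map_smul, map_smul, Finsupp.smul_apply, smul_eq_mul] at hj
  have h1 := hw j (left_ne_zero_of_mul hj)
  by_cases hkj : k = j
  · rw [hkj]; exact h1
  apply hp k j _ h1
  right
  have hX : LinearMap.toMatrix b b x ∈ LM Γ b := by
    rw [mem_LM, Matrix.toLin_toMatrix]
    exact hx
  apply proj (good h) hX hkj
  rw [LinearMap.toMatrix_apply]
  exact right_ne_zero_of_mul hj

/-- minimal indices -/
def Mn (ψ : V →ₗ[K] V →ₗ[K] K) (Γ : Subgroup (V ≃ₗ[K] V)) (b : Module.Basis ι K V)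
    (bar : ι → ι) (i : ι) : Prop := ∀ k, Rr ψ Γ b bar k i → Rr ψ Γ b bar i k

lemma exists_mn (h : Setup ψ Γ b bar lam F) (k : ι) :
    ∃ l, Rr ψ Γ b bar l k ∧ Mn ψ Γ b bar l := by
  classical
  let f : ι → ℕ := fun l => (Finset.univ.filter (fun m => Rr ψ Γ b bar m l)).card
  obtain ⟨l, hl, hmin⟩ := Finset.exists_min_image (Finset.univ.filter (fun l => Rr ψ Γ b bar l k)) f
    ⟨k, by simp [Rr_refl]⟩
  rw [Finset.mem_filter] at hl
  refine ⟨l, hl.2, ?_⟩
  intro m hm
  have h1 := hmin m (by simp [Rr_trans h hm hl.2])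
  have hsub : Finset.univ.filter (fun n => Rr ψ Γ b bar n m) ⊆
      Finset.univ.filter (fun n => Rr ψ Γ b bar n l) := by
    intro n hn
    simp only [Finset.mem_filter, Finset.mem_univ, true_and] at hn ⊢
    exact Rr_trans h hn hm
  have h2 := Finset.eq_of_subset_of_card_le hsub h1
  have h3 : l ∈ Finset.univ.filter (fun n => Rr ψ Γ b bar n l) := by simp [Rr_refl]
  rw [← h2] at h3
  simpa using h3

/-- the socle is stable under the group -/
lemma socle_stable (h : Setup ψ Γ b bar lam F) (γ : V ≃ₗ[K] V) (hγ : γ ∈ Γ) :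
    ∀ w ∈ co b (Mn ψ Γ b bar), γ w ∈ co b (Mn ψ Γ b bar) := by
  have key : ∀ i, Mn ψ Γ b bar i → γ (b i) ∈ co b (Mn ψ Γ b bar) := by
    intro i hi
    have hW : ∀ j, Stab Γ (co b (fun k => Rr ψ Γ b bar k j)) := fun j =>
      stab_co h (fun k l h1 h2 => Rr_trans h h1 h2)
    have hγW := stab_map (hW i) hγ
    have hle : ∀ (j : ι) (W : Submodule K V), Stab Γ W → b j ∈ W →
        co b (fun k => Rr ψ Γ b bar k j) ≤ W := by
      intro j W hW hj
      exact co_le fun k hk => stab_Rr h hW hk hj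
    intro k hk l hlk
    have hmem : γ (b i) ∈ (co b (fun k => Rr ψ Γ b bar k i)).map (γ : V →ₗ[K] V) :=
      Submodule.mem_map_of_mem (basis_mem_co.2 (Rr_refl i))
    have hbk : b k ∈ (co b (fun k => Rr ψ Γ b bar k i)).map (γ : V →ₗ[K] V) :=
      stab_coord h hγW hmem hk
    have hbl := stab_Rr h hγW hlk hbk
    -- pull back
    have hpull := stab_map (hW l) (Γ.inv_mem hγ)
    have h1 := hle l _ hγW hbl
    have h2 : (co b (fun k => Rr ψ Γ b bar k l)).map ((γ⁻¹ : V ≃ₗ[K] V) : V →ₗ[K] V) ≤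
        co b (fun k => Rr ψ Γ b bar k i) := by
      intro v hv
      obtain ⟨u, hu, rfl⟩ := Submodule.mem_map.1 hv
      obtain ⟨u', hu', hu2⟩ := Submodule.mem_map.1 (h1 hu)
      have : ((γ⁻¹ : V ≃ₗ[K] V) : V →ₗ[K] V) u = u' := by
        rw [← hu2]
        exact γ.symm_apply_apply u'
      rw [this]
      exact hu'
    -- a coordinate vector in the pulled back subspace
    obtain ⟨m, hm⟩ : ∃ m, b m ∈
        (co b (fun k => Rr ψ Γ b bar k l)).map ((γ⁻¹ : V ≃ₗ[K] V) : V →ₗ[K] V) := by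
      have h3 : γ⁻¹ (b l) ∈
          (co b (fun k => Rr ψ Γ b bar k l)).map ((γ⁻¹ : V ≃ₗ[K] V) : V →ₗ[K] V) :=
        Submodule.mem_map_of_mem (basis_mem_co.2 (Rr_refl l))
      have h4 : γ⁻¹ (b l) ≠ 0 := by
        intro h5
        have h6 : b l = γ (γ⁻¹ (b l)) := (γ.apply_symm_apply _).symm
        rw [h5, map_zero] at h6
        exact b.ne_zero l h6
      have h5 : b.repr (γ⁻¹ (b l)) ≠ 0 := by
        intro h6
        exact h4 (b.repr.map_eq_zero_iff.1 h6)
      obtain ⟨m, hm⟩ := Finsupp.ne_iff.1 h5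
      exact ⟨m, stab_coord h hpull h3 hm⟩
    have hmi : Rr ψ Γ b bar m i :=
      (basis_mem_co (b := b) (p := fun k => Rr ψ Γ b bar k i)).1 (h2 hm)
    have him := hi m hmi
    have hbi := stab_Rr h hpull him hm
    have h3 := hle i _ hpull hbi
    -- push forward
    obtain ⟨v, hv, hvk⟩ := Submodule.mem_map.1 hbk
    obtain ⟨u, hu, huv⟩ := Submodule.mem_map.1 (h3 hv)
    have : u = b k := by
      rw [← hvk, ← huv]
      exact (γ.apply_symm_apply u).symm
    rw [this] at hu
    exact (basis_mem_co (b := b) (p := fun k => Rr ψ Γ b bar k l)).1 hu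
  intro w hw
  rw [← b.sum_repr w, map_sum]
  apply Submodule.sum_mem
  intro i _
  rw [map_smul]
  by_cases h1 : b.repr w i = 0
  · rw [h1, zero_smul]; exact Submodule.zero_mem _
  · exact Submodule.smul_mem _ _ (key i (hw i h1))

/-- all indices are minimal -/
lemma all_mn [FiniteDimensional K V] (h : Setup ψ Γ b bar lam F)
    (hss : ∀ W : Submodule K V, (∀ γ ∈ Γ, ∀ w ∈ W, (γ : V ≃ₗ[K] V) w ∈ W) →
      ∃ W' : Submodule K V, (∀ γ ∈ Γ, ∀ w ∈ W', (γ : V ≃ₗ[K] V) w ∈ W') ∧ IsCompl W W')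
    (i : ι) : Mn ψ Γ b bar i := by
  obtain ⟨W', hW', hcompl⟩ := hss _ (socle_stable h)
  have hst : Stab Γ W' := by
    intro x hx
    exact lie_stab W' hW' hx
  have hbot : W' = ⊥ := by
    by_contra hne
    obtain ⟨w, hw, hw0⟩ := Submodule.exists_mem_ne_zero_of_ne_bot hne
    have h5 : b.repr w ≠ 0 := by
      intro h6
      exact hw0 (b.repr.map_eq_zero_iff.1 h6)
    obtain ⟨m, hm⟩ := Finsupp.ne_iff.1 h5
    have h1 := stab_coord h hst hw hm
    obtain ⟨l, hl, hmn⟩ := exists_mn h m
    have h2 := stab_Rr h hst hl h1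
    have h3 : b l ∈ co b (Mn ψ Γ b bar) := basis_mem_co.2 hmn
    have h4 := Submodule.disjoint_def.1 hcompl.disjoint _ h3 h2
    exact b.ne_zero l h4
  have htop : co b (Mn ψ Γ b bar) = ⊤ := by
    have := hcompl.sup_eq_top
    rwa [hbot, sup_bot_eq] at this
  have h6 : b i ∈ co b (Mn ψ Γ b bar) := by rw [htop]; trivial
  exact basis_mem_co.1 h6

lemma Rr_symm (hmn : ∀ i, Mn ψ Γ b bar i) {i j : ι}
    (h1 : Rr ψ Γ b bar i j) : Rr ψ Γ b bar j i := hmn j i h1

theorem frame (h : Setup ψ Γ b bar lam F) (hmn : ∀ i, Mn ψ Γ b bar i) :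
    Frame bar (cc ψ b bar) (Rr ψ Γ b bar) where
  inv := h.inv
  nofix := h.nofix
  c0 := h.ne
  cneg := cc_neg h
  refl := Rr_refl
  symm := fun _ _ h1 => Rr_symm hmn h1
  trans := fun _ _ _ h1 h2 => Rr_trans h h1 h2
  dual := fun _ _ h1 => Rr_symm hmn (Rr_dual h h1)

end Pool.Agent.H91.Mono
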