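import Pool.Agent.H91.Mono.Sym2

/-! The Zariski closure contains the full centralizer in the similitude group. -/

set_option linter.unusedSectionVars false

namespace Pool.Agent.H91.Mono

open MvPolynomial

variable {K : Type*} [Field K] [CharZero K] {V : Type*} [AddCommGroup V] [Module K V]
variable {ι : Type*} [Fintype ι] [DecidableEq ι]
variable {ψ : V →ₗ[K] V →ₗ[K] K} {Γ : Subgroup (V ≃ₗ[K] V)} {b : Module.Basis ι K V}
    {bar : ι → ι} {lam : ι → K} {F : V ≃ₗ[K] V}

/-- `c` commutes with a subgroup of finite index of `Γ`. -/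
def Comm (Γ : Subgroup (V ≃ₗ[K] V)) (c : Module.End K V) : Prop :=
  ∃ Δ : Subgroup Γ, Δ.FiniteIndex ∧
    ∀ γ : Γ, γ ∈ Δ → ∀ v, c ((γ : V ≃ₗ[K] V) v) = (γ : V ≃ₗ[K] V) (c v)

/-- the set of stable subspaces -/
def SS (Γ : Subgroup (V ≃ₗ[K] V)) : Type _ := {W : Submodule K V // Stab Γ W}

lemma eq_co (h : Setup ψ Γ b bar lam F) {W : Submodule K V} (hW : Stab Γ W) :
    W = co b (fun i => b i ∈ W) := by
  apply le_antisymm
  · intro w hw k hk
    exact stab_coord h hW hw hk
  · exact co_le fun i hi => hi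

lemma ss_finite (h : Setup ψ Γ b bar lam F) : Finite (SS Γ) := by
  let f : SS Γ → Set ι := fun W => {i | b i ∈ W.1}
  apply Finite.of_injective f
  intro W W' hWW
  apply Subtype.ext
  rw [eq_co h W.2, eq_co h W'.2]
  have h1 : ∀ i, b i ∈ W.1 ↔ b i ∈ W'.1 := fun i => Set.ext_iff.1 hWW i
  have h2 : (fun i => b i ∈ W.1) = (fun i => b i ∈ W'.1) := funext fun i => propext (h1 i)
  rw [h2]

/-- the action on stable subspaces -/
noncomputable instance ssAction : MulAction Γ (SS Γ) where
  smul γ W := ⟨W.1.map ((γ : V ≃ₗ[K] V) : V →ₗ[K] V), stab_map W.2 γ.2⟩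
  one_smul W := by
    apply Subtype.ext
    show W.1.map (((1 : Γ) : V ≃ₗ[K] V) : V →ₗ[K] V) = W.1
    exact Submodule.map_id _
  mul_smul γ δ W := by
    apply Subtype.ext
    show W.1.map (((γ * δ : Γ) : V ≃ₗ[K] V) : V →ₗ[K] V) =
      (W.1.map ((δ : V ≃ₗ[K] V) : V →ₗ[K] V)).map ((γ : V ≃ₗ[K] V) : V →ₗ[K] V)
    rw [← Submodule.map_comp]
    rfl

lemma smul_val' (γ : Γ) (W : SS Γ) :
    (γ • W).1 = W.1.map ((γ : V ≃ₗ[K] V) : V →ₗ[K] V) := rfl

/-- the subgroup fixing all stable subspaces -/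
noncomputable def fixSub (Γ : Subgroup (V ≃ₗ[K] V)) : Subgroup Γ :=
  (MulAction.toPermHom Γ (SS Γ)).ker

lemma fixSub_finite (h : Setup ψ Γ b bar lam F) : (fixSub Γ).FiniteIndex := by
  have := ss_finite h
  unfold fixSub
  infer_instance

lemma mem_fixSub {γ : Γ} (hγ : γ ∈ fixSub Γ) {W : Submodule K V} (hW : Stab Γ W) :
    W.map ((γ : V ≃ₗ[K] V) : V →ₗ[K] V) = W := by
  let Y : SS Γ := ⟨W, hW⟩
  have h1 := Equiv.ext_iff.1 (MonoidHom.mem_ker.1 hγ) Y
  have h2 : γ • Y = Y := h1
  exact congrArg Subtype.val h2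

lemma dg_repr (b : Module.Basis ι K V) (y : ι → K) (v : V) (k : ι) :
    b.repr (dg b y v) k = y k * b.repr v k := by
  conv_lhs => rw [← b.sum_repr v]
  rw [map_sum, map_sum, Finsupp.finsetSum_apply, Finset.sum_eq_single k]
  · rw [map_smul, map_smul, dg_apply, map_smul, Finsupp.smul_apply, Finsupp.smul_apply]
    simp [mul_comm]
  · intro j _ hj
    rw [map_smul, map_smul, dg_apply, map_smul, Finsupp.smul_apply, Finsupp.smul_apply,
      b.repr_self, Finsupp.single_apply, if_neg hj]
    simp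
  · simp

/-- class projections commute with a subgroup of finite index -/
lemma comm_proj (h : Setup ψ Γ b bar lam F) (hmn : ∀ i, Mn ψ Γ b bar i) (l : ι)
    (e : ι → K) (he1 : ∀ k, Rr ψ Γ b bar k l → e k = 1) (he0 : ∀ k, ¬ Rr ψ Γ b bar k l → e k = 0) :
    Comm Γ (dg b e) := by
  refine ⟨fixSub Γ, fixSub_finite h, ?_⟩
  intro γ hγ v
  let W : Submodule K V := co b (fun k => Rr ψ Γ b bar k l)
  let W' : Submodule K V := co b (fun k => ¬ Rr ψ Γ b bar k l)
  have hW : Stab Γ W := stab_co h (fun k m h1 h2 => Rr_trans h h1 h2)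
  have hW' : Stab Γ W' := stab_co h (fun k m h1 h2 h3 => h2 (Rr_trans h (Rr_symm hmn h1) h3))
  have h1 : ∀ w ∈ W, (γ : V ≃ₗ[K] V) w ∈ W := by
    intro w hw
    have := mem_fixSub hγ hW
    rw [← this]
    exact Submodule.mem_map_of_mem hw
  have h2 : ∀ w ∈ W', (γ : V ≃ₗ[K] V) w ∈ W' := by
    intro w hw
    have := mem_fixSub hγ hW'
    rw [← this]
    exact Submodule.mem_map_of_mem hw
  have e1 : ∀ w ∈ W, dg b e w = w := by
    intro w hw
    apply b.repr.injective
    ext k
    rw [dg_repr]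
    by_cases h3 : b.repr w k = 0
    · rw [h3, mul_zero]
    · rw [he1 k (hw k h3), one_mul]
  have e2 : ∀ w ∈ W', dg b e w = 0 := by
    intro w hw
    apply b.repr.injective
    ext k
    rw [dg_repr, map_zero, Finsupp.zero_apply]
    by_cases h3 : b.repr w k = 0
    · rw [h3, mul_zero]
    · rw [he0 k (hw k h3), zero_mul]
  have hw : dg b e v ∈ W := by
    intro k hk
    rw [dg_repr] at hk
    by_contra h3
    rw [he0 k h3, zero_mul] at hk
    exact hk rfl
  have hw' : v - dg b e v ∈ W' := by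
    intro k hk h3
    rw [map_sub, Finsupp.sub_apply, dg_repr, he1 k h3, one_mul, sub_self] at hk
    exact hk rfl
  have h4 : v = dg b e v + (v - dg b e v) := by abel
  have h5 : (γ : V ≃ₗ[K] V) v = (γ : V ≃ₗ[K] V) (dg b e v) + (γ : V ≃ₗ[K] V) (v - dg b e v) := by
    rw [← map_add, ← h4]
  rw [h5, map_add, e1 _ (h1 _ hw), e2 _ (h2 _ hw'), add_zero]

/-- elements commuting with the commutant are supported on the classes -/
lemma supp_of_comm (h : Setup ψ Γ b bar lam F) (hmn : ∀ i, Mn ψ Γ b bar i)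
    (g : Module.End K V)
    (hg : ∀ c : Module.End K V, Comm Γ c → c * g = g * c) :
    Supp (Rr ψ Γ b bar) (LinearMap.toMatrix b b g) := by
  classical
  intro k l hkl
  rw [LinearMap.toMatrix_apply] at hkl
  by_contra hcon
  let e : ι → K := fun m => if Rr ψ Γ b bar m l then 1 else 0
  have h1 := hg (dg b e) (comm_proj h hmn l e (fun k hk => if_pos hk) (fun k hk => if_neg hk))
  have h2 := congrArg (fun c : Module.End K V => b.repr (c (b l)) k) h1
  simp only [Module.End.mul_apply] at h2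
  rw [dg_repr, dg_apply] at h2
  have e1 : e k = 0 := if_neg hcon
  have e2 : e l = 1 := if_pos (Rr_refl l)
  rw [e1, e2, one_smul, zero_mul] at h2
  exact hkl h2.symm

/-- all elements of `NN` are in the closure -/
lemma NN_cl [IsAlgClosed K] (h : Setup ψ Γ b bar lam F) {g : Matrix ι ι K}
    (hg : g ∈ NN bar (cc ψ b bar) (Rr ψ Γ b bar) ∅) : InCl Γ (Matrix.toLin b b g) := by
  induction hg using Submonoid.closure_induction with
  | mem g hg =>
    cases hg with
    | unip i j s hij hE hi hj =>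
      rcases hE with h1 | h1
      · exact absurd h1 hij
      · have hsq : Matrix.toLin b b (root bar (cc ψ b bar) i j) *
            Matrix.toLin b b (root bar (cc ψ b bar) i j) = 0 := by
          have hbb : bar i ≠ bar j := fun h5 => hij (by rw [← h.inv i, h5, h.inv])
          have : root bar (cc ψ b bar) i j * root bar (cc ψ b bar) i j = 0 := by
            rw [root, sub_mul, mul_sub, mul_sub,
              Matrix.single_mul_single_of_ne _ _ _ _ (Ne.symm hij),
              Matrix.single_mul_single_of_ne _ _ _ _ (h.nofix j).symm,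
              Matrix.single_mul_single_of_ne _ _ _ _ (h.nofix i),
              Matrix.single_mul_single_of_ne _ _ _ _ hbb]
            simp
          have h2 := Matrix.toLin_mul b b b (root bar (cc ψ b bar) i j)
            (root bar (cc ψ b bar) i j)
          rw [this, map_zero] at h2
          exact h2.symm
        have h3 := inCl_exp (x := Matrix.toLin b b (root bar (cc ψ b bar) i j)) h1
          (by rw [hsq, zero_mul]) s
        rw [hsq, smul_zero, add_zero] at h3
        have h4 : Matrix.toLin b b (1 + s • root bar (cc ψ b bar) i j) =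
            1 + s • Matrix.toLin b b (root bar (cc ψ b bar) i j) := by
          rw [map_add, map_smul, Matrix.toLin_one]
          rfl
        rw [h4]
        exact h3
    | tor t ht hA => exact cl_tor h t 1 one_ne_zero ht
  | one =>
    rw [Matrix.toLin_one]
    exact inCl_one
  | mul x y _ _ hx hy =>
    rw [Matrix.toLin_mul b b b]
    exact inCl_mul hx hy

/-- **Main theorem in coordinates.** -/
theorem dense [IsAlgClosed K] [Nontrivial V]
    (h : Setup ψ Γ b bar lam F) (hmn : ∀ i, Mn ψ Γ b bar i) (g : V ≃ₗ[K] V)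
    (hsim : ∃ μ : K, ∀ u v, ψ (g u) (g v) = μ * ψ u v)
    (hg : Supp (Rr ψ Γ b bar) (LinearMap.toMatrix b b (g : Module.End K V))) :
    InCl Γ (g : Module.End K V) := by
  obtain ⟨μ, hμ⟩ := hsim
  have hμ0 : μ ≠ 0 := by
    rintro rfl
    obtain ⟨i⟩ : Nonempty ι := b.index_nonempty
    apply h.ne i
    have h1 := hμ (g.symm (b i)) (g.symm (b (bar i)))
    rw [g.apply_symm_apply, g.apply_symm_apply, zero_mul] at h1
    exact h1
  obtain ⟨ν, hν⟩ := IsAlgClosed.exists_pow_nat_eq μ (n := 2) (by norm_num)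
  have hν0 : ν ≠ 0 := by
    rintro rfl
    apply hμ0
    rw [← hν]
    norm_num
  let g' : Module.End K V := ν⁻¹ • (g : Module.End K V)
  have hs : Supp (Rr ψ Γ b bar) (LinearMap.toMatrix b b g') := by
    intro k l hkl
    apply hg k l
    rw [LinearMap.toMatrix_apply] at hkl ⊢
    intro h0
    apply hkl
    show b.repr (ν⁻¹ • g (b l)) k = 0
    have h1 : b.repr (g (b l)) k = 0 := h0
    rw [map_smul, Finsupp.smul_apply, h1, smul_zero]
  have hp : Pres bar (cc ψ b bar) (LinearMap.toMatrix b b g') := by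
    have hrep : ∀ w : V, (b.repr (g' w) : ι → K) =
        (LinearMap.toMatrix b b g').mulVec (b.repr w) := by
      intro w
      rw [LinearMap.toMatrix_mulVec_repr]
    intro u v
    obtain ⟨u', hu⟩ : ∃ u' : V, (b.repr u' : ι → K) = u :=
      ⟨b.equivFun.symm u, b.equivFun.apply_symm_apply u⟩
    obtain ⟨v', hv⟩ : ∃ v' : V, (b.repr v' : ι → K) = v :=
      ⟨b.equivFun.symm v, b.equivFun.apply_symm_apply v⟩
    rw [← hu, ← hv, ← hrep, ← hrep, ← psi_bil h, ← psi_bil h]
    show ψ (ν⁻¹ • g u') (ν⁻¹ • g v') = _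
    rw [map_smul, map_smul, LinearMap.smul_apply, hμ, ← hν]
    simp only [smul_eq_mul]
    field_simp
  have h1 := gen (frame h hmn) _ hp hs
  have h2 := NN_cl h h1
  rw [Matrix.toLin_toMatrix] at h2
  have h3 : InCl Γ (dg b (fun _ => ν)) := cl_tor h _ (ν * ν) (mul_ne_zero hν0 hν0) (fun _ => rfl)
  have h4 := inCl_mul h3 h2
  have h5 : dg b (fun _ => ν) * g' = (g : Module.End K V) := by
    have h6 : dg b (fun _ : ι => ν) = ν • (1 : Module.End K V) := by
      apply b.ext
      intro i
      rw [dg_apply]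
      rfl
    rw [h6]
    ext v
    show ν • (ν⁻¹ • g v) = g v
    rw [smul_smul, mul_inv_cancel₀ hν0, one_smul]
  rwa [h5] at h4

end Pool.Agent.H91.Mono
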