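import Mathlib

/-! Zariski closure and Lie algebra of a group of automorphisms of a vector space. -/

set_option linter.unusedSectionVars false

namespace Pool.Agent.H91.Mono

open MvPolynomial

variable {K : Type*} [Field K] {V : Type*} [AddCommGroup V] [Module K V]

/-- Evaluation of a polynomial in the linear functionals on `End V`. -/
noncomputable def ev (g : Module.End K V) :
    MvPolynomial (Module.Dual K (Module.End K V)) K →ₐ[K] K :=
  aeval (fun φ => φ g)

@[simp] lemma ev_X (g : Module.End K V) (φ : Module.Dual K (Module.End K V)) :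
    ev g (X φ) = φ g := by simp [ev]

/-- `g` lies in the Zariski closure of `Γ`. -/
def InCl (Γ : Subgroup (V ≃ₗ[K] V)) (g : Module.End K V) : Prop :=
  ∀ f : MvPolynomial (Module.Dual K (Module.End K V)) K,
    (∀ γ ∈ Γ, ev (γ : Module.End K V) f = 0) → ev g f = 0

/-- polynomials vanishing on `Γ` -/
def Van (Γ : Subgroup (V ≃ₗ[K] V)) (f : MvPolynomial (Module.Dual K (Module.End K V)) K) : Prop :=
  ∀ γ ∈ Γ, ev (γ : Module.End K V) f = 0

/-- left-invariant derivation -/
noncomputable def der (x : Module.End K V) :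
    Derivation K (MvPolynomial (Module.Dual K (Module.End K V)) K)
      (MvPolynomial (Module.Dual K (Module.End K V)) K) :=
  mkDerivation K (fun φ => X (φ ∘ₗ LinearMap.mulRight K x))

@[simp] lemma der_X (x : Module.End K V) (φ : Module.Dual K (Module.End K V)) :
    der x (X φ) = X (φ ∘ₗ LinearMap.mulRight K x) := by
  simp [der, mkDerivation_X]

/-- tangent vector at the identity -/
noncomputable def pd (x : Module.End K V)
    (f : MvPolynomial (Module.Dual K (Module.End K V)) K) : K := ev 1 (der x f)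

@[simp] lemma pd_X (x : Module.End K V) (φ : Module.Dual K (Module.End K V)) :
    pd x (X φ) = φ x := by simp [pd]

lemma pd_C (x : Module.End K V) (c : K) : pd x (C c) = 0 := by
  simp [pd, ← algebraMap_eq]

lemma pd_add (x : Module.End K V) (f g : MvPolynomial (Module.Dual K (Module.End K V)) K) :
    pd x (f + g) = pd x f + pd x g := by simp [pd]

lemma pd_mul (x : Module.End K V) (f g : MvPolynomial (Module.Dual K (Module.End K V)) K) :
    pd x (f * g) = ev 1 f * pd x g + ev 1 g * pd x f := by
  simp [pd, Derivation.leibniz]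

/-- left translation -/
noncomputable def lt (h : Module.End K V) :
    MvPolynomial (Module.Dual K (Module.End K V)) K →ₐ[K]
      MvPolynomial (Module.Dual K (Module.End K V)) K :=
  rename (fun φ => φ ∘ₗ LinearMap.mulLeft K h)

/-- right translation -/
noncomputable def rt (h : Module.End K V) :
    MvPolynomial (Module.Dual K (Module.End K V)) K →ₐ[K]
      MvPolynomial (Module.Dual K (Module.End K V)) K :=
  rename (fun φ => φ ∘ₗ LinearMap.mulRight K h)

lemma ev_lt (g h : Module.End K V) (f : MvPolynomial (Module.Dual K (Module.End K V)) K) :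
    ev g (lt h f) = ev (h * g) f := by
  have : (ev g).comp (lt h) = ev (h * g) := by
    apply MvPolynomial.algHom_ext
    intro φ
    simp [lt, ev]
  exact DFunLike.congr_fun this f

lemma ev_rt (g h : Module.End K V) (f : MvPolynomial (Module.Dual K (Module.End K V)) K) :
    ev g (rt h f) = ev (g * h) f := by
  have : (ev g).comp (rt h) = ev (g * h) := by
    apply MvPolynomial.algHom_ext
    intro φ
    simp [rt, ev]
  exact DFunLike.congr_fun this f

lemma der_lt (x h : Module.End K V) (f : MvPolynomial (Module.Dual K (Module.End K V)) K) :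
    der x (lt h f) = lt h (der x f) := by
  induction f using MvPolynomial.induction_on with
  | C c =>
    have h1 : lt h (C c) = C c := by simp [lt]
    rw [h1]
    simp [← algebraMap_eq]
  | add p q hp hq => simp only [map_add, hp, hq]
  | mul_X p φ hp =>
    have h1 : lt h (X φ) = X (φ ∘ₗ LinearMap.mulLeft K h) := by simp [lt]
    rw [map_mul, Derivation.leibniz, Derivation.leibniz, map_add, hp, h1]
    simp only [smul_eq_mul, map_mul, h1, der_X]
    congr 2
    simp only [lt, rename_X]
    congr 1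

lemma van_lt {Γ : Subgroup (V ≃ₗ[K] V)} {f} (hf : Van Γ f) {γ : V ≃ₗ[K] V} (hγ : γ ∈ Γ) :
    Van Γ (lt (γ : Module.End K V) f) := by
  intro δ hδ
  rw [ev_lt]
  exact hf (γ * δ) (Γ.mul_mem hγ hδ)

lemma van_rt {Γ : Subgroup (V ≃ₗ[K] V)} {f} (hf : Van Γ f) {h : Module.End K V}
    (hh : InCl Γ h) : Van Γ (rt h f) := by
  intro γ hγ
  rw [ev_rt, ← ev_lt]
  exact hh _ (van_lt hf hγ)

lemma inCl_mul {Γ : Subgroup (V ≃ₗ[K] V)} {g h : Module.End K V} (hg : InCl Γ g)
    (hh : InCl Γ h) : InCl Γ (g * h) := by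
  intro f hf
  rw [← ev_rt]
  exact hg _ (van_rt hf hh)

lemma inCl_one {Γ : Subgroup (V ≃ₗ[K] V)} : InCl Γ (1 : Module.End K V) := by
  intro f hf
  exact hf 1 Γ.one_mem

lemma inCl_of_mem {Γ : Subgroup (V ≃ₗ[K] V)} {γ : V ≃ₗ[K] V} (hγ : γ ∈ Γ) :
    InCl Γ (γ : Module.End K V) := fun _ hf => hf γ hγ

lemma inCl_mono {Γ Δ : Subgroup (V ≃ₗ[K] V)} (h : Γ ≤ Δ) {g : Module.End K V} (hg : InCl Γ g) :
    InCl Δ g := fun f hf => hg f fun γ hγ => hf γ (h hγ)

/-- The Lie algebra of `Γ`. -/
noncomputable def lie (Γ : Subgroup (V ≃ₗ[K] V)) : Submodule K (Module.End K V) where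
  carrier := {x | ∀ f, Van Γ f → pd x f = 0}
  add_mem' := by
    intro x y hx hy f hf
    have key : ∀ f, pd (x + y) f = pd x f + pd y f := by
      intro f
      induction f using MvPolynomial.induction_on with
      | C c => simp [pd_C]
      | add p q hp hq => rw [pd_add, pd_add, pd_add, hp, hq]; ring
      | mul_X p φ hp => rw [pd_mul, pd_mul, pd_mul, hp]; simp; ring
    rw [key, hx f hf, hy f hf, add_zero]
  zero_mem' := by
    intro f hf
    have key : ∀ f, pd (0 : Module.End K V) f = 0 := by
      intro f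
      induction f using MvPolynomial.induction_on with
      | C c => simp [pd_C]
      | add p q hp hq => rw [pd_add, hp, hq, add_zero]
      | mul_X p φ hp => rw [pd_mul, hp]; simp
    exact key f
  smul_mem' := by
    intro c x hx f hf
    have key : ∀ f, pd (c • x) f = c * pd x f := by
      intro f
      induction f using MvPolynomial.induction_on with
      | C c => simp [pd_C]
      | add p q hp hq => rw [pd_add, pd_add, hp, hq]; ring
      | mul_X p φ hp => rw [pd_mul, pd_mul, hp]; simp; ring
    rw [key, hx f hf, mul_zero]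

lemma mem_lie {Γ : Subgroup (V ≃ₗ[K] V)} {x : Module.End K V} :
    x ∈ lie Γ ↔ ∀ f, Van Γ f → pd x f = 0 := Iff.rfl

lemma lie_mono {Γ Δ : Subgroup (V ≃ₗ[K] V)} (h : Γ ≤ Δ) : lie Γ ≤ lie Δ := by
  intro x hx f hf
  exact hx f fun γ hγ => hf γ (h hγ)

/-- derivations along the Lie algebra preserve vanishing -/
lemma van_der {Γ : Subgroup (V ≃ₗ[K] V)} {x : Module.End K V} (hx : x ∈ lie Γ) {f}
    (hf : Van Γ f) : Van Γ (der x f) := by
  intro γ hγ
  have h1 := hx _ (van_lt hf hγ)
  rw [pd, der_lt, ev_lt, mul_one] at h1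
  exact h1

lemma pd_bracket (x y : Module.End K V) (f) :
    pd (x * y - y * x) f = ev 1 (der x (der y f)) - ev 1 (der y (der x f)) := by
  induction f using MvPolynomial.induction_on with
  | C c =>
    rw [pd_C]
    simp [← algebraMap_eq]
  | add p q hp hq =>
    rw [pd_add, hp, hq]
    simp only [map_add]
    ring
  | mul_X p φ hp =>
    rw [pd_mul, hp]
    simp only [Derivation.leibniz, map_add, smul_eq_mul, map_mul, ev_X, pd_X, der_X,
      LinearMap.coe_comp, Function.comp_apply, LinearMap.mulRight_apply, one_mul, map_sub]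
    ring

lemma lie_bracket {Γ : Subgroup (V ≃ₗ[K] V)} {x y : Module.End K V} (hx : x ∈ lie Γ)
    (hy : y ∈ lie Γ) : x * y - y * x ∈ lie Γ := by
  intro f hf
  rw [pd_bracket]
  have h1 := van_der hx (van_der hy hf) 1 Γ.one_mem
  have h2 := van_der hy (van_der hx hf) 1 Γ.one_mem
  have h3 : ((1 : V ≃ₗ[K] V) : Module.End K V) = 1 := rfl
  rw [h3] at h1 h2
  rw [h1, h2, sub_zero]

/-- conjugation invariance -/
lemma lie_conj {Γ : Subgroup (V ≃ₗ[K] V)} {x : Module.End K V} (hx : x ∈ lie Γ)
    {γ : V ≃ₗ[K] V} (hγ : γ ∈ Γ) :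
    (γ : Module.End K V) * x * ((γ⁻¹ : V ≃ₗ[K] V) : Module.End K V) ∈ lie Γ := by
  intro f hf
  let c : MvPolynomial (Module.Dual K (Module.End K V)) K →ₐ[K]
      MvPolynomial (Module.Dual K (Module.End K V)) K :=
    rename (fun φ => (φ ∘ₗ LinearMap.mulRight K ((γ⁻¹ : V ≃ₗ[K] V) : Module.End K V)) ∘ₗ
      LinearMap.mulLeft K (γ : Module.End K V))
  have hev : ∀ g f, ev g (c f) =
      ev ((γ : Module.End K V) * g * ((γ⁻¹ : V ≃ₗ[K] V) : Module.End K V)) f := by
    intro g f
    have : (ev g).comp c =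
        ev ((γ : Module.End K V) * g * ((γ⁻¹ : V ≃ₗ[K] V) : Module.End K V)) := by
      apply MvPolynomial.algHom_ext
      intro φ
      simp [c, ev]
    exact DFunLike.congr_fun this f
  have hone : (γ : Module.End K V) * 1 * ((γ⁻¹ : V ≃ₗ[K] V) : Module.End K V) = 1 := by
    ext v
    show γ (γ⁻¹ v) = v
    exact γ.apply_symm_apply v
  have hpd : ∀ f, pd x (c f) =
      pd ((γ : Module.End K V) * x * ((γ⁻¹ : V ≃ₗ[K] V) : Module.End K V)) f := by
    intro f
    induction f using MvPolynomial.induction_on with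
    | C a =>
      have h1 : c (C a) = C a := by simp [c]
      rw [h1, pd_C, pd_C]
    | add p q hp hq => rw [map_add, pd_add, pd_add, hp, hq]
    | mul_X p φ hp =>
      rw [map_mul, pd_mul, pd_mul, hp, hev, hev, hone]
      congr 2
      simp [c]
  rw [← hpd]
  apply hx
  intro δ hδ
  rw [hev]
  exact hf (γ * δ * γ⁻¹) (Γ.mul_mem (Γ.mul_mem hγ hδ) (Γ.inv_mem hγ))

end Pool.Agent.H91.Mono
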