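import Pool.Agent.H91.Mono.Zar

/-! Stabilizers, unipotent one-parameter groups and tori in the Zariski closure. -/

set_option linter.unusedSectionVars false

namespace Pool.Agent.H91.Mono

open MvPolynomial

variable {K : Type*} [Field K] {V : Type*} [AddCommGroup V] [Module K V]

/-- the functional `g ↦ φ (g v)` -/
noncomputable def coefF (φ : Module.Dual K V) (v : V) : Module.Dual K (Module.End K V) :=
  φ ∘ₗ LinearMap.applyₗ v

@[simp] lemma coefF_apply (φ : Module.Dual K V) (v : V) (g : Module.End K V) :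
    coefF φ v g = φ (g v) := rfl

/-- the Lie algebra of a group stabilising `W` stabilises `W` -/
lemma lie_stab [FiniteDimensional K V] {Γ : Subgroup (V ≃ₗ[K] V)} (W : Submodule K V)
    (hW : ∀ γ ∈ Γ, ∀ w ∈ W, (γ : V ≃ₗ[K] V) w ∈ W) {x : Module.End K V} (hx : x ∈ lie Γ) :
    ∀ w ∈ W, x w ∈ W := by
  intro w hw
  rw [← Subspace.dualAnnihilator_dualCoannihilator_eq (W := W), Submodule.mem_dualCoannihilator]
  intro φ hφ
  have h1 := hx (X (coefF φ w)) (by
    intro γ hγ
    rw [ev_X, coefF_apply]
    exact (Submodule.mem_dualAnnihilator φ).1 hφ _ (hW γ hγ w hw))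
  rwa [pd_X, coefF_apply] at h1

/-- evaluation along `1 + s x + s² x² / 2` -/
noncomputable def ex (x : Module.End K V) :
    MvPolynomial (Module.Dual K (Module.End K V)) K →ₐ[K] Polynomial K :=
  aeval (fun φ => Polynomial.C (φ 1) + Polynomial.X * Polynomial.C (φ x) +
    Polynomial.X ^ 2 * Polynomial.C (φ (x * x) / 2))

lemma ex_X (x : Module.End K V) (φ : Module.Dual K (Module.End K V)) :
    ex x (X φ) = Polynomial.C (φ 1) + Polynomial.X * Polynomial.C (φ x) +
    Polynomial.X ^ 2 * Polynomial.C (φ (x * x) / 2) := by simp [ex]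

lemma ex_eval (x : Module.End K V) (s : K) (f) :
    (ex x f).eval s = ev (1 + s • x + (s ^ 2 / 2) • (x * x)) f := by
  induction f using MvPolynomial.induction_on with
  | C c => simp [ex, ev]
  | add p q hp hq => simp only [map_add, Polynomial.eval_add, hp, hq]
  | mul_X p φ hp =>
    rw [map_mul, Polynomial.eval_mul, hp, map_mul, ex_X, ev_X]
    congr 1
    simp only [Polynomial.eval_add, Polynomial.eval_mul, Polynomial.eval_C, Polynomial.eval_X,
      Polynomial.eval_pow, map_add, map_smul, smul_eq_mul]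
    ring

lemma ex_der [CharZero K] {x : Module.End K V} (hx : x * x * x = 0) (f) :
    Polynomial.derivative (ex x f) = ex x (der x f) := by
  induction f using MvPolynomial.induction_on with
  | C c => simp [ex, ← algebraMap_eq]
  | add p q hp hq => simp only [map_add, hp, hq]
  | mul_X p φ hp =>
    rw [map_mul, Polynomial.derivative_mul, hp, Derivation.leibniz, map_add]
    simp only [smul_eq_mul, map_mul, der_X, ex_X, LinearMap.coe_comp, Function.comp_apply,
      LinearMap.mulRight_apply, one_mul, hx, map_zero, zero_div, mul_zero, add_zero,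
      Polynomial.derivative_add, Polynomial.derivative_mul, Polynomial.derivative_C,
      Polynomial.derivative_X, Polynomial.derivative_X_pow, zero_add]
    have h2 : (Polynomial.C (2 : K)) * Polynomial.C (φ (x * x) / 2) =
        Polynomial.C (φ (x * x)) := by
      rw [← Polynomial.C_mul]
      congr 1
      field_simp
    have h3 : Polynomial.C (((2 : ℕ) : K)) = Polynomial.C (2 : K) := by norm_num
    rw [h3]
    have h4 : (2 - 1 : ℕ) = 1 := rfl
    rw [h4, pow_one]
    linear_combination (ex x p) * Polynomial.X * h2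

/-- one-parameter groups of nilpotent elements of the Lie algebra lie in the closure -/
lemma inCl_exp [CharZero K] {Γ : Subgroup (V ≃ₗ[K] V)} {x : Module.End K V} (hx : x ∈ lie Γ)
    (hn : x * x * x = 0) (s : K) : InCl Γ (1 + s • x + (s ^ 2 / 2) • (x * x)) := by
  intro f hf
  rw [← ex_eval]
  have h1 : ∀ k : ℕ, ∀ f, Van Γ f → (ex x f).coeff k = 0 := by
    intro k
    induction k with
    | zero =>
      intro f hf
      rw [Polynomial.coeff_zero_eq_eval_zero, ex_eval]
      simp only [zero_smul, add_zero, ne_eq, OfNat.ofNat_ne_zero, not_false_eq_true, zero_pow,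
        zero_div]
      exact hf 1 Γ.one_mem
    | succ k ih =>
      intro f hf
      have h2 := ih (der x f) (van_der hx hf)
      rw [← ex_der hn, Polynomial.coeff_derivative] at h2
      rcases mul_eq_zero.1 h2 with h3 | h3
      · exact h3
      · exfalso
        have : ((k : K) + 1) ≠ 0 := by exact_mod_cast Nat.succ_ne_zero k
        exact this h3
  have h2 : ex x f = 0 := by
    ext k
    rw [h1 k f hf, Polynomial.coeff_zero]
  rw [h2, Polynomial.eval_zero]

/-! ### Tori -/

section Torus

variable {ι : Type*} [Fintype ι] [DecidableEq ι]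

/-- the endomorphism which is diagonal in the basis `b` -/
noncomputable def dg (b : Module.Basis ι K V) (x : ι → K) : Module.End K V :=
  Matrix.toLin b b (Matrix.diagonal x)

lemma dg_apply (b : Module.Basis ι K V) (x : ι → K) (i : ι) : dg b x (b i) = x i • b i := by
  rw [dg, Matrix.toLin_self]
  simp [Matrix.diagonal_apply]

lemma dg_eq_sum (b : Module.Basis ι K V) (x : ι → K) :
    dg b x = ∑ i, x i • dg b (Pi.single i 1) := by
  apply b.ext
  intro j
  rw [dg_apply, LinearMap.sum_apply]
  simp only [LinearMap.smul_apply, dg_apply]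
  rw [Finset.sum_eq_single j]
  · simp
  · intro i _ hij
    simp [hij.symm]
  · simp

lemma dg_mul (b : Module.Basis ι K V) (x y : ι → K) : dg b (x * y) = dg b x * dg b y := by
  apply b.ext
  intro j
  rw [Module.End.mul_apply, dg_apply, dg_apply, map_smul, dg_apply, smul_smul, Pi.mul_apply,
    mul_comm]

lemma dg_one (b : Module.Basis ι K V) : dg b (1 : ι → K) = 1 := by
  apply b.ext
  intro j
  rw [dg_apply]
  simp

lemma dg_pow (b : Module.Basis ι K V) (x : ι → K) (n : ℕ) : dg b (x ^ n) = dg b x ^ n := by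
  induction n with
  | zero => rw [pow_zero, pow_zero, dg_one]
  | succ n ih => rw [pow_succ, pow_succ, dg_mul, ih]

/-- restriction of polynomials to the diagonal endomorphisms -/
noncomputable def restr (b : Module.Basis ι K V) :
    MvPolynomial (Module.Dual K (Module.End K V)) K →ₐ[K] MvPolynomial ι K :=
  aeval (fun φ => ∑ i, C (φ (dg b (Pi.single i 1))) * X i)

lemma restr_X (b : Module.Basis ι K V) (φ : Module.Dual K (Module.End K V)) :
    restr b (X φ) = ∑ i, C (φ (dg b (Pi.single i 1))) * X i := by simp [restr]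

lemma ev_dg (b : Module.Basis ι K V) (x : ι → K) (f) :
    ev (dg b x) f = eval x (restr b f) := by
  induction f using MvPolynomial.induction_on with
  | C c => simp [restr, ev]
  | add p q hp hq => simp only [map_add, hp, hq]
  | mul_X p φ hp =>
    rw [map_mul, map_mul, map_mul, hp, restr_X, ev_X]
    congr 1
    rw [dg_eq_sum]
    simp [map_sum, mul_comm]

lemma pd_dg (b : Module.Basis ι K V) (x : ι → K) (f) :
    pd (dg b x) f = ∑ i, x i * eval 1 (pderiv i (restr b f)) := by
  induction f using MvPolynomial.induction_on with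
  | C c => simp [pd_C, restr]
  | add p q hp hq => rw [pd_add, hp, hq, ← Finset.sum_add_distrib]; simp [mul_add]
  | mul_X p φ hp =>
    rw [pd_mul, hp, pd_X, ev_X]
    have h1 : ev (1 : Module.End K V) p = eval 1 (restr b p) := by
      rw [← ev_dg, dg_one]
    have h2 : φ (dg b x) = ∑ i, x i * φ (dg b (Pi.single i 1)) := by
      rw [dg_eq_sum]; simp
    have h3 : φ 1 = ∑ i, φ (dg b (Pi.single i 1)) := by
      rw [← dg_one b, dg_eq_sum]; simp
    have h4 : ∀ i, eval 1 (pderiv i (restr b (X φ))) = φ (dg b (Pi.single i 1)) := by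
      intro i
      rw [restr_X, map_sum, map_sum, Finset.sum_eq_single i]
      · simp
      · intro j _ hj
        simp [pderiv_X_of_ne hj]
      · simp
    have h5 : eval (1 : ι → K) (restr b (X φ)) = φ 1 := by
      rw [← ev_dg, dg_one, ev_X]
    simp only [map_mul, pderiv_mul, map_add, h4, h5]
    rw [h1, h2, Finset.mul_sum, Finset.mul_sum, ← Finset.sum_add_distrib]
    apply Finset.sum_congr rfl
    intro i _
    ring

/-- power sums determine everything -/
lemma sum_eq_zero_of_pow {M : Type*} (s : Finset M) (a : M → K) (χ : M → K)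
    (h : ∀ n : ℕ, ∑ m ∈ s, a m * χ m ^ n = 0) (w : M → K)
    (hw : ∀ m ∈ s, ∀ m' ∈ s, χ m = χ m' → w m = w m') : ∑ m ∈ s, a m * w m = 0 := by
  classical
  -- interpolate
  obtain ⟨p, hp⟩ : ∃ p : Polynomial K, ∀ m ∈ s, p.eval (χ m) = w m := by
    let t := s.image χ
    have hch : ∀ c ∈ t, ∃ m ∈ s, χ m = c := by
      intro c hc
      obtain ⟨m, hm, hmc⟩ := Finset.mem_image.1 hc
      exact ⟨m, hm, hmc⟩
    let g : K → K := fun c => if hc : ∃ m ∈ s, χ m = c then w hc.choose else 0
    refine ⟨Lagrange.interpolate t id g, ?_⟩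
    intro m hm
    have hmt : χ m ∈ t := Finset.mem_image_of_mem _ hm
    have h1 := Lagrange.eval_interpolate_at_node g (s := t) (v := id)
      (Set.injOn_id _) hmt
    rw [id] at h1
    rw [h1]
    have hex : ∃ m' ∈ s, χ m' = χ m := ⟨m, hm, rfl⟩
    have h2 : g (χ m) = w hex.choose := by simp only [g]; rw [dif_pos hex]
    rw [h2]
    exact hw _ hex.choose_spec.1 _ hm hex.choose_spec.2
  have h1 : ∑ m ∈ s, a m * w m = ∑ m ∈ s, a m * p.eval (χ m) :=
    Finset.sum_congr rfl fun m hm => by rw [hp m hm]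
  rw [h1]
  have h2 : ∀ m, p.eval (χ m) = ∑ k ∈ Finset.range (p.natDegree + 1), p.coeff k * χ m ^ k :=
    fun m => Polynomial.eval_eq_sum_range _
  simp only [h2, Finset.mul_sum]
  rw [Finset.sum_comm]
  apply Finset.sum_eq_zero
  intro k _
  have h3 : ∑ m ∈ s, a m * (p.coeff k * χ m ^ k) = p.coeff k * ∑ m ∈ s, a m * χ m ^ k := by
    rw [Finset.mul_sum]
    exact Finset.sum_congr rfl fun m _ => by ring
  rw [h3, h k, mul_zero]

variable {Γ : Subgroup (V ≃ₗ[K] V)} {b : Module.Basis ι K V} {F : V ≃ₗ[K] V} {lam : ι → K}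

lemma restr_sum (hF : F ∈ Γ) (hb : ∀ i, F (b i) = lam i • b i) {f} (hf : Van Γ f) (n : ℕ) :
    ∑ m ∈ (restr b f).support, (restr b f).coeff m * (∏ i, lam i ^ m i) ^ n = 0 := by
  have h0 : ∀ (n : ℕ) (i : ι), (F ^ n) (b i) = (lam i ^ n) • b i := by
    intro n i
    induction n with
    | zero => rw [pow_zero, pow_zero, one_smul]; rfl
    | succ n ih =>
      rw [pow_succ', LinearEquiv.mul_apply, ih, map_smul, hb, smul_smul, pow_succ]
  have h1 : ((F ^ n : V ≃ₗ[K] V) : Module.End K V) = dg b (lam ^ n) := by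
    apply b.ext
    intro i
    rw [dg_apply, Pi.pow_apply]
    exact h0 n i
  have h2 := hf (F ^ n) (Γ.pow_mem hF n)
  rw [h1, ev_dg, eval_eq'] at h2
  rw [← h2]
  apply Finset.sum_congr rfl
  intro m _
  congr 1
  rw [← Finset.prod_pow]
  apply Finset.prod_congr rfl
  intro i _
  rw [Pi.pow_apply, ← pow_mul, ← pow_mul, mul_comm]

/-- torus elements in the closure -/
lemma inCl_torus (hF : F ∈ Γ) (hb : ∀ i, F (b i) = lam i • b i) (t : ι → K)
    (ht : ∀ m m' : ι →₀ ℕ, ∏ i, lam i ^ m i = ∏ i, lam i ^ m' i →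
      ∏ i, t i ^ m i = ∏ i, t i ^ m' i) : InCl Γ (dg b t) := by
  intro f hf
  rw [ev_dg, eval_eq']
  have h2 := sum_eq_zero_of_pow (restr b f).support (fun m => (restr b f).coeff m)
    (fun m => ∏ i, lam i ^ m i) (restr_sum hF hb hf) (fun m => ∏ i, t i ^ m i)
    (fun m _ m' _ h => ht m m' h)
  exact h2

/-- the Lie algebra of the torus -/
lemma lie_torus (hF : F ∈ Γ) (hb : ∀ i, F (b i) = lam i • b i) (x : ι → K)
    (hx : ∀ m m' : ι →₀ ℕ, ∏ i, lam i ^ m i = ∏ i, lam i ^ m' i →
      ∑ i, (m i : K) * x i = ∑ i, (m' i : K) * x i) : dg b x ∈ lie Γ := by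
  intro f hf
  rw [pd_dg]
  have h1 : ∀ i, eval (1 : ι → K) (pderiv i (restr b f)) =
      ∑ m ∈ (restr b f).support, (restr b f).coeff m * (m i : K) := by
    intro i
    conv_lhs => rw [(restr b f).as_sum]
    rw [map_sum, map_sum]
    apply Finset.sum_congr rfl
    intro m _
    rw [pderiv_monomial, eval_monomial]
    simp
  simp only [h1, Finset.mul_sum]
  rw [Finset.sum_comm]
  have h2 := sum_eq_zero_of_pow (restr b f).support (fun m => (restr b f).coeff m)
    (fun m => ∏ i, lam i ^ m i) (restr_sum hF hb hf) (fun m => ∑ i, (m i : K) * x i)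
    (fun m _ m' _ h => hx m m' h)
  rw [← h2]
  apply Finset.sum_congr rfl
  intro m _
  rw [Finset.mul_sum]
  apply Finset.sum_congr rfl
  intro i _
  ring

end Torus

end Pool.Agent.H91.Mono
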